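import Pool.Agent.N515.DMin.Stm

set_option autoImplicit false

/-! Lemma A of project DM: kernels of maps onto divisible groups are dense. -/

open Topology Set

namespace Pool.Agent.N515.DMin

/-- a subgroup with finitely many values of a character: a common exponent -/
theorem a531_exp {K : Type} [CommGroup K] [TopologicalSpace K] {M : Subgroup K} (hM : LP M)
    (χ : K →ₜ* Circle) : ∃ n : ℕ, 0 < n ∧ ∀ m ∈ M, χ m ^ n = 1 := by
  let S : Subgroup Circle := Subgroup.map (χ : K →* Circle) M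
  have hS : (S : Set Circle).Finite := by
    have h := hM χ
    exact h
  have hfin : Finite S := hS
  refine ⟨Nat.card S, Nat.card_pos, fun m hm => ?_⟩
  have h1 : (⟨χ m, ⟨m, hm, rfl⟩⟩ : S) ^ Nat.card S = 1 := pow_card_eq_one'
  have h2 := congrArg Subtype.val h1
  exact h2

theorem t_A (hT1 : St_T1) : St_A := by
  intro K _ _ _ _ _ G hG hDM N hN hNb M hM hLP V _ hdiv φ hinj hsurj
  obtain ⟨H, hH⟩ : ∃ H : Subgroup K, H = Subgroup.map G.subtype φ.ker := ⟨_, rfl⟩
  have hHG : H ≤ G := by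
    rw [hH]
    rintro _ ⟨g, _, rfl⟩
    exact g.2
  have hHN : H ⊓ N = ⊥ := by
    rw [eq_bot_iff, hH]
    rintro x ⟨⟨g, hg, rfl⟩, hx⟩
    have h1 := hinj g hx hg
    rw [Subgroup.mem_bot, h1, map_one]
  by_cases hd : Dense (H : Set K)
  · exact hDM H hHG hd N hN hNb hHN
  · have hk : ∃ k, k ∉ H.topologicalClosure := by
      by_contra hcon
      push Not at hcon
      apply hd
      intro k
      have h1 := hcon k
      rw [← SetLike.mem_coe, Subgroup.topologicalClosure_coe] at h1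
      exact h1
    obtain ⟨k, hk⟩ := hk
    obtain ⟨χ, hχ1, hχ2⟩ := hT1 K H.topologicalClosure H.isClosed_topologicalClosure k hk
    obtain ⟨g, hgG, hg⟩ : ∃ g ∈ G, χ g ≠ 1 := by
      by_contra hcon
      push Not at hcon
      have hcl : IsClosed {x | χ x = 1} :=
        isClosed_eq (map_continuous χ) continuous_const
      have hsub : closure (G : Set K) ⊆ {x | χ x = 1} := hcl.closure_subset_iff.2 hcon
      exact hχ2 (hsub (hG k))
    obtain ⟨n, hn0, hn⟩ := a531_exp hLP χ
    obtain ⟨w, hw⟩ := hdiv n hn0 (Multiplicative.toAdd (φ ⟨g, hgG⟩))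
    obtain ⟨m, hmM, hm⟩ := hsurj (Multiplicative.ofAdd w)
    have hmn : φ (m ^ n) = φ ⟨g, hgG⟩ := by
      rw [map_pow, hm, ← ofAdd_nsmul, hw]
      rfl
    have hker : (⟨g, hgG⟩ : G) * (m ^ n)⁻¹ ∈ φ.ker := by
      rw [MonoidHom.mem_ker, map_mul, map_inv, hmn, mul_inv_cancel]
    have hmem : g * ((m : K) ^ n)⁻¹ ∈ H := by
      rw [hH]
      exact ⟨_, hker, rfl⟩
    have h1 := hχ1 _ (H.le_topologicalClosure hmem)
    rw [map_mul, map_inv, map_pow, hn _ hmM, inv_one, mul_one] at h1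
    exact hg h1

end Pool.Agent.N515.DMin
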