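import Pool.Agent.N515.DMin.Stm

set_option autoImplicit false

/-! MP_00f11d_al: extension of homomorphisms to the `p`-power roots of unity. -/

open Topology Set

namespace Pool.Agent.N515.DMin

/-- divisible groups: extension from subgroups -/
theorem algA_ext {B Z : Type} [CommGroup B] [CommGroup Z]
    (hdiv : ∀ n : ℕ, 0 < n → ∀ z : Z, ∃ w : Z, w ^ n = z) (S : Subgroup B) (f : S →* Z) :
    ∃ g : B →* Z, ∀ s : S, g s = f s := by
  classical
  let _ : DivisibleBy (Additive Z) ℕ :=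
    { div := fun a n => if hn : n = 0 then 0 else
        Additive.ofMul (Classical.choose (hdiv n (Nat.pos_of_ne_zero hn) a.toMul))
      div_zero := fun a => by simp
      div_cancel := fun {n} a hn => by
        rw [dif_neg hn]
        exact congrArg Additive.ofMul
          (Classical.choose_spec (hdiv n (Nat.pos_of_ne_zero hn) a.toMul)) }
  let _ : DivisibleBy (Additive Z) ℤ := AddGroup.divisibleByIntOfDivisibleByNat (Additive Z)
  obtain ⟨h, hh⟩ := (Module.Baer.of_divisible (Additive Z)).extension_property_addMonoidHom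
    (MonoidHom.toAdditive S.subtype) (by
      intro a b hab
      exact Subtype.ext hab) (MonoidHom.toAdditive f)
  refine ⟨MonoidHom.toAdditive.symm h, fun s => ?_⟩
  exact congrArg (fun F : Additive S →+ Additive Z => (F (Additive.ofMul s)).toMul) hh

/-- divisible groups: extension along homomorphisms -/
theorem algA_ext' {A B Z : Type} [CommGroup A] [CommGroup B] [CommGroup Z]
    (hdiv : ∀ n : ℕ, 0 < n → ∀ z : Z, ∃ w : Z, w ^ n = z) (f : A →* B) (g : A →* Z)
    (hk : ∀ a, f a = 1 → g a = 1) : ∃ h : B →* Z, ∀ a, h (f a) = g a := by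
  have hs : Function.Surjective f.rangeRestrict := f.rangeRestrict_surjective
  have hker : f.rangeRestrict.ker ≤ g.ker := by
    intro a ha
    rw [MonoidHom.mem_ker] at ha ⊢
    exact hk a (congrArg Subtype.val ha)
  let h₀ : f.range →* Z := f.rangeRestrict.liftOfRightInverse (Function.surjInv hs)
    (Function.rightInverse_surjInv hs) ⟨g, hker⟩
  have h₀f : ∀ a, h₀ (f.rangeRestrict a) = g a := fun a =>
    f.rangeRestrict.liftOfRightInverse_comp_apply (Function.surjInv hs)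
      (Function.rightInverse_surjInv hs) ⟨g, hker⟩ a
  obtain ⟨h, hh⟩ := algA_ext hdiv f.range h₀
  exact ⟨h, fun a => (hh (f.rangeRestrict a)).trans (h₀f a)⟩

theorem algA_circle (n : ℕ) (hn : 0 < n) (z : Circle) : ∃ w : Circle, w ^ n = z := by
  refine ⟨Circle.exp (Complex.arg z / n), ?_⟩
  have h1 : ∀ (m : ℕ) (t : ℝ), Circle.exp t ^ m = Circle.exp (m * t) := by
    intro m t
    induction m with
    | zero => simp
    | succ m ih =>
      rw [pow_succ, ih, ← Circle.exp_add]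
      congr 1
      push_cast
      ring
  rw [h1]
  have hn' : (n : ℝ) ≠ 0 := Nat.cast_ne_zero.2 hn.ne'
  rw [mul_div_cancel₀ _ hn']
  exact Circle.exp_arg z

/-- the group of the roots of unity of `p`-power order -/
def algA_PP (p : ℕ) : Subgroup Circle where
  carrier := {z | ∃ n : ℕ, z ^ (p ^ n) = 1}
  mul_mem' := by
    rintro a b ⟨n, hn⟩ ⟨m, hm⟩
    refine ⟨n + m, ?_⟩
    rw [mul_pow, pow_add, pow_mul, hn, one_pow, one_mul, mul_comm, pow_mul, hm, one_pow]
  one_mem' := ⟨0, one_pow _⟩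
  inv_mem' := by
    rintro a ⟨n, hn⟩
    exact ⟨n, by rw [inv_pow, hn, inv_one]⟩

theorem algA_div (p : ℕ) (hp : p.Prime) (n : ℕ) (hn : 0 < n) (z : algA_PP p) :
    ∃ w : algA_PP p, w ^ n = z := by
  obtain ⟨z, k, hk⟩ := z
  obtain ⟨a, m, hm, rfl⟩ := Nat.exists_eq_pow_mul_and_not_dvd hn.ne' p hp.ne_one
  obtain ⟨w1, hw1⟩ := algA_circle (p ^ a) (pow_pos hp.pos a) z
  have hw1' : w1 ^ (p ^ (a + k)) = 1 := by rw [pow_add, pow_mul, hw1, hk]
  have hco : IsCoprime (m : ℤ) ((p ^ (a + k) : ℕ) : ℤ) := by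
    rw [Nat.isCoprime_iff_coprime]
    exact Nat.Coprime.pow_right _ ((Nat.Prime.coprime_iff_not_dvd hp).2 hm).symm
  obtain ⟨u, v, huv⟩ := hco
  have h1 : w1 ^ (u * m) = w1 := by
    have h2 : w1 ^ (u * m + v * ((p ^ (a + k) : ℕ) : ℤ)) = w1 := by rw [huv, zpow_one]
    rw [zpow_add, mul_comm v, zpow_mul w1 _ v, zpow_natCast, hw1', one_zpow, mul_one] at h2
    exact h2
  refine ⟨⟨w1 ^ u, a + k, ?_⟩, Subtype.ext ?_⟩
  · rw [← zpow_natCast, ← zpow_mul, mul_comm, zpow_mul, zpow_natCast, hw1', one_zpow]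
  · show (w1 ^ u) ^ (p ^ a * m) = z
    rw [← zpow_natCast, ← zpow_mul]
    have h3 : u * ((p ^ a * m : ℕ) : ℤ) = u * m * ((p ^ a : ℕ) : ℤ) := by
      push_cast
      ring
    rw [h3, zpow_mul, h1, zpow_natCast, hw1]

theorem algA_zeta (p : ℕ) (hp : p.Prime) : ∃ ζ : Circle, ζ ≠ 1 ∧ ζ ^ p = 1 := by
  have h := Complex.isPrimitiveRoot_exp p hp.ne_zero
  have hn : ‖Complex.exp (2 * Real.pi * Complex.I / p)‖ = 1 := h.norm'_eq_one hp.ne_zero
  refine ⟨⟨Complex.exp (2 * Real.pi * Complex.I / p), mem_sphere_zero_iff_norm.2 hn⟩, ?_, ?_⟩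
  · intro h1
    have h2 : Complex.exp (2 * Real.pi * Complex.I / p) = 1 := congrArg Subtype.val h1
    exact h.ne_one hp.one_lt h2
  · exact Subtype.ext h.pow_eq_one

theorem t_E1 : St_E1 := by
  intro B _ p hp b hb
  obtain ⟨ζ, hζ1, hζp⟩ := algA_zeta p hp
  let ζ' : algA_PP p := ⟨ζ, 1, by rw [pow_one]; exact hζp⟩
  obtain ⟨h, hh⟩ := algA_ext' (algA_div p hp) (zpowersHom B b) (zpowersHom (algA_PP p) ζ') (by
    intro a ha
    rw [zpowersHom_apply] at ha ⊢
    have hdvd : (p : ℤ) ∣ a.toAdd := by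
      by_contra hcon
      have h1 : Nat.Coprime a.toAdd.natAbs p := by
        rw [Nat.coprime_comm, Nat.Prime.coprime_iff_not_dvd hp, ← Int.natCast_dvd]
        exact hcon
      refine hb _ h1 ?_
      rcases Int.natAbs_eq a.toAdd with h2 | h2
      · rw [h2, zpow_natCast] at ha
        exact ha
      · rw [h2, zpow_neg, zpow_natCast, inv_eq_one] at ha
        exact ha
    obtain ⟨t, ht⟩ := hdvd
    rw [ht]
    refine Subtype.ext ?_
    show ζ ^ ((p : ℤ) * t) = 1
    rw [zpow_mul, zpow_natCast, hζp, one_zpow])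
  refine ⟨(algA_PP p).subtype.comp h, fun b => (h b).2, ?_⟩
  have h1 := hh (Multiplicative.ofAdd 1)
  rw [zpowersHom_apply, zpowersHom_apply, toAdd_ofAdd, zpow_one, zpow_one] at h1
  show (h b : Circle) ≠ 1
  rw [h1]
  exact hζ1

theorem t_E2 : St_E2 := by
  intro B _ p hp φ hφ
  obtain ⟨h, hh⟩ := algA_ext' algA_circle (powMonoidHom p : B →* B) φ hφ
  refine ⟨h, fun b => ?_⟩
  rw [← map_pow]
  exact hh b

theorem t_E3 : St_E3 := by
  intro B _ p hp b hb
  let H : Subgroup B := (powMonoidHom p : B →* B).range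
  have hbH : b ∉ H := by
    rintro ⟨c, hc⟩
    exact hb c hc
  obtain ⟨ψ, -, hψ⟩ := t_E1 (B ⧸ H) p hp (QuotientGroup.mk b) (by
    intro m hm h1
    apply hbH
    rw [← QuotientGroup.eq_one_iff]
    have h2 : (QuotientGroup.mk b : B ⧸ H) ^ p = 1 := by
      rw [← QuotientGroup.mk_pow, QuotientGroup.eq_one_iff]
      exact ⟨b, rfl⟩
    obtain ⟨u, v, huv⟩ := Nat.isCoprime_iff_coprime.2 hm
    have h3 : (QuotientGroup.mk b : B ⧸ H) ^ (u * (m : ℤ) + v * (p : ℤ)) = QuotientGroup.mk b := by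
      rw [huv, zpow_one]
    rw [zpow_add, mul_comm u, mul_comm v, zpow_mul, zpow_mul, zpow_natCast, zpow_natCast, h1, h2,
      one_zpow, one_zpow, one_mul] at h3
    exact h3.symm)
  refine ⟨ψ.comp (QuotientGroup.mk' H), fun z => ?_, hψ⟩
  rw [← map_pow]
  show ψ (QuotientGroup.mk (z ^ p)) = 1
  rw [(QuotientGroup.eq_one_iff (N := H) (z ^ p)).2 ⟨z, rfl⟩, map_one]

end Pool.Agent.N515.DMin

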