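import Mathlib

set_option autoImplicit false

/-! MP_00f11d_al (helper515): densely minimal abelian groups. Definitions and statements.
`K` is a compact Hausdorff abelian group, `G` a dense subgroup of `K`. -/

open Topology Set

namespace Pool.Agent.N515.DMin

section defs

variable {K : Type} [CommGroup K] [TopologicalSpace K]

/-- `x` is a `p`-adic element: every continuous character takes a value of `p`-power order. -/
def Pad (p : ℕ) (x : K) : Prop := ∀ χ : K →ₜ* Circle, ∃ n : ℕ, (χ x) ^ (p ^ n) = 1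

/-- every continuous character of `K` takes finitely many values on `M` -/
def LP (M : Subgroup K) : Prop := ∀ χ : K →ₜ* Circle, ((fun k => χ k) '' (M : Set K)).Finite

/-- every dense subgroup of `K` contained in `G` meets every nontrivial closed subgroup -/
def DM (G : Subgroup K) : Prop := ∀ H : Subgroup K, H ≤ G → Dense (H : Set K) →
  ∀ N : Subgroup K, IsClosed (N : Set K) → N ≠ ⊥ → H ⊓ N ≠ ⊥

/-- the closed subgroup generated by `x` -/
def cl [IsTopologicalGroup K] (x : K) : Subgroup K := (Subgroup.zpowers x).topologicalClosure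

/-- the dual of `K` is a torsion group -/
def TorX (K : Type) [CommGroup K] [TopologicalSpace K] : Prop :=
  ∀ χ : K →ₜ* Circle, ∃ n : ℕ, 0 < n ∧ ∀ k, χ k ^ n = 1

end defs

/-! ### algebra -/

/-- homomorphisms into the group of `p`-power roots of unity -/
def PV (p : ℕ) {B : Type} [CommGroup B] (φ : B →* Circle) : Prop := ∀ b, ∃ n : ℕ, φ b ^ (p ^ n) = 1

/-- extension to the whole group of homomorphisms into the `p`-power roots of unity -/
def St_E1 : Prop := ∀ (B : Type) [CommGroup B] (p : ℕ), p.Prime → ∀ (b : B),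
  (∀ m : ℕ, Nat.Coprime m p → b ^ m ≠ 1) → ∃ φ : B →* Circle, PV p φ ∧ φ b ≠ 1

/-- a homomorphism that kills the elements of order `p` is a `p`-th power -/
def St_E2 : Prop := ∀ (B : Type) [CommGroup B] (p : ℕ), p.Prime → ∀ (φ : B →* Circle),
  (∀ b : B, b ^ p = 1 → φ b = 1) → ∃ φ' : B →* Circle, ∀ b, φ' b ^ p = φ b

/-- an element that is not a `p`-th power is separated by a homomorphism into the `p`-th roots of
unity -/
def St_E3 : Prop := ∀ (B : Type) [CommGroup B] (p : ℕ), p.Prime → ∀ (b : B),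
  (∀ c : B, c ^ p ≠ b) → ∃ φ : B →* Circle, (∀ z, φ z ^ p = 1) ∧ φ b ≠ 1

/-- the divisible hull construction: `C`, `M` subgroups of `B`, and a family of elements of `M`
independent modulo `C`, indexed by a type of cardinality `≥ max (#C) ℵ₀`. -/
def St_E4 : Prop := ∀ (B : Type) [AddCommGroup B] (C M : AddSubgroup B) (ι : Type) (f : ι → B),
  (∀ i, f i ∈ M) → (∀ n : ι →₀ ℤ, (n.sum fun i a => a • f i) ∈ C → n = 0) →
  Cardinal.mk C ≤ Cardinal.mk ι → Cardinal.aleph0 ≤ Cardinal.mk ι →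
  ∃ (V : Type) (_ : AddCommGroup V) (φ : B →+ V),
    (∀ n : ℕ, 0 < n → ∀ v : V, ∃ w : V, n • w = v) ∧
    (∀ c ∈ C, φ c = 0 → c = 0) ∧ ∀ v : V, ∃ m ∈ M, φ m = v

/-- cardinality: an uncountable torsion-free abelian group has an independent family of full
cardinality -/
def St_E5 : Prop := ∀ (B : Type) [AddCommGroup B], (∀ (n : ℤ) (b : B), n ≠ 0 → n • b = 0 → b = 0) →
  Cardinal.aleph0 < Cardinal.mk B → ∃ f : B → B, LinearIndependent ℤ f

/-- a group of infinite rank modulo a subgroup of finite rank -/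
def St_E6 : Prop := ∀ (B : Type) [AddCommGroup B] (C M : AddSubgroup B),
  Module.rank ℤ C < Cardinal.aleph0 → Cardinal.aleph0 ≤ Module.rank ℤ M →
  ∃ f : ℕ → B, (∀ i, f i ∈ M) ∧ ∀ n : ℕ →₀ ℤ, (n.sum fun i a => a • f i) ∈ C → n = 0

/-- torsion-free of finite rank implies countable -/
def St_E7 : Prop := ∀ (B : Type) [AddCommGroup B], (∀ (n : ℤ) (b : B), n ≠ 0 → n • b = 0 → b = 0) →
  Module.rank ℤ B < Cardinal.aleph0 → Countable B

/-! ### topology -/

/-- separation of a point from a closed subgroup by a character -/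
def St_T1 : Prop := ∀ (K : Type) [CommGroup K] [TopologicalSpace K] [IsTopologicalGroup K]
  [CompactSpace K] [T2Space K] (H : Subgroup K), IsClosed (H : Set K) → ∀ k, k ∉ H →
  ∃ χ : K →ₜ* Circle, (∀ h ∈ H, χ h = 1) ∧ χ k ≠ 1

/-- existence of `p`-adic elements -/
def St_T2 : Prop := ∀ (K : Type) [CommGroup K] [TopologicalSpace K] [IsTopologicalGroup K]
  [CompactSpace K] [T2Space K] (L : Subgroup K), IsClosed (L : Set K) → ∀ (ψ : K →ₜ* Circle)
  (p : ℕ), p.Prime → ∀ l ∈ L, ψ l ≠ 1 → ψ l ^ p = 1 → ∃ x ∈ L, Pad p x ∧ ψ x = ψ l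

/-- closed subgroups of a `p`-adic monothetic group -/
def St_T3 : Prop := ∀ (K : Type) [CommGroup K] [TopologicalSpace K] [IsTopologicalGroup K]
  [CompactSpace K] [T2Space K] (p : ℕ), p.Prime → ∀ x : K, Pad p x → ∀ A : Subgroup K,
  IsClosed (A : Set K) → A ≤ cl x → A ≠ ⊥ → ∃ k : ℕ, A = cl (x ^ (p ^ k))

/-- Lemma D -/
def St_D : Prop := ∀ (K : Type) [CommGroup K] [TopologicalSpace K] [IsTopologicalGroup K]
  (G : Subgroup K) (p : ℕ), p.Prime → ∀ (n : ℕ) (φ : G →* Circle) (χ : K →ₜ* Circle),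
  (∀ g, φ g ^ (p ^ (n + 1)) = 1) → (∀ g : G, φ g = 1 → χ g = 1) → (∃ g : G, χ g ≠ 1) →
  ∃ ψ : K →ₜ* Circle, ∀ g : G, ψ g = φ g ^ (p ^ n)

/-- Lemma A -/
def St_A : Prop := ∀ (K : Type) [CommGroup K] [TopologicalSpace K] [IsTopologicalGroup K]
  [CompactSpace K] [T2Space K] (G : Subgroup K), Dense (G : Set K) → DM G →
  ∀ (N : Subgroup K), IsClosed (N : Set K) → N ≠ ⊥ → ∀ (M : Subgroup K), M ≤ G → LP M →
  ∀ (V : Type) [AddCommGroup V], (∀ n : ℕ, 0 < n → ∀ v : V, ∃ w : V, n • w = v) →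
  ∀ φ : G →* Multiplicative V, (∀ g : G, (g : K) ∈ N → φ g = 1 → g = 1) →
  (∀ v : Multiplicative V, ∃ g : G, (g : K) ∈ M ∧ φ g = v) → False

/-- Lemma B -/
def St_B : Prop := ∀ (K : Type) [CommGroup K] [TopologicalSpace K] [IsTopologicalGroup K]
  [CompactSpace K] [T2Space K] (G : Subgroup K), Dense (G : Set K) → DM G →
  ∀ (p q : ℕ), p.Prime → q.Prime → ∀ x y : K, Pad p x → Pad q y → x ≠ 1 → y ≠ 1 →
  cl x ⊓ cl y = ⊥ → ∀ (M : Subgroup K), M ≤ G → LP M →
  Cardinal.aleph0 ≤ Module.rank ℤ (Additive M) → False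

/-- the chain lemma -/
def St_C : Prop := ∀ (K : Type) [CommGroup K] [TopologicalSpace K] [IsTopologicalGroup K]
  [CompactSpace K] [T2Space K] (G : Subgroup K), Dense (G : Set K) → DM G →
  ∀ (p : ℕ), p.Prime → ∀ (α : G →* Circle), (∀ g, α g ^ p = 1) →
  (¬ ∃ ψ : K →ₜ* Circle, ∀ g : G, ψ g = α g) → ∀ k : ℕ, ∃ φ : G →* Circle,
    (∀ g, φ g ^ (p ^ k) = α g) ∧ ∀ g : G, g ^ p = 1 → φ g = 1

/-- torsion elements are in `G` -/
def St_C4 : Prop := ∀ (K : Type) [CommGroup K] [TopologicalSpace K] [IsTopologicalGroup K]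
  [CompactSpace K] [T2Space K] (G : Subgroup K), Dense (G : Set K) → DM G →
  ∀ (p : ℕ), p.Prime → ∀ (n : ℕ) (z : K), z ^ (p ^ n) = 1 → z ∈ G

/-- `p`-th roots of characters, torsion case -/
def St_R : Prop := ∀ (K : Type) [CommGroup K] [TopologicalSpace K] [IsTopologicalGroup K]
  [CompactSpace K] [T2Space K], TorX K → ∀ (p : ℕ), p.Prime → ∀ (χ : K →ₜ* Circle),
  (∀ z : K, z ^ p = 1 → χ z = 1) → ∃ ψ : K →ₜ* Circle, ∀ k, ψ k ^ p = χ k

/-- Lemma 1: all homomorphisms into the `p`-power roots of unity are continuous -/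
def St_L1 : Prop := ∀ (K : Type) [CommGroup K] [TopologicalSpace K] [IsTopologicalGroup K]
  [CompactSpace K] [T2Space K] (G : Subgroup K), Dense (G : Set K) → DM G → TorX K →
  ∀ (p : ℕ), p.Prime → (∃ g : K, g ≠ 1 ∧ g ^ p = 1) →
  ∀ φ : G →* Circle, PV p φ → ∃ ψ : K →ₜ* Circle, ∀ g : G, ψ g = φ g

/-- the uncountability argument -/
def St_U : Prop := ∀ (K : Type) [CommGroup K] [TopologicalSpace K] [IsTopologicalGroup K]
  [CompactSpace K] [T2Space K], (∀ (n : ℕ) (k : K), 0 < n → k ^ n = 1 → k = 1) →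
  ∀ (G : Subgroup K), Countable G → (∀ N : Subgroup K, IsClosed (N : Set K) → N ≠ ⊥ → G ⊓ N ≠ ⊥) →
  ∀ (p : ℕ), p.Prime → ∀ x y : K, Pad p x → Pad p y → x ≠ 1 → y ≠ 1 → cl x ⊓ cl y ≠ ⊥

/-- characters of order `p` form a cyclic group -/
def St_U2 : Prop := ∀ (K : Type) [CommGroup K] [TopologicalSpace K] [IsTopologicalGroup K]
  [CompactSpace K] [T2Space K], (∀ (n : ℕ) (k : K), 0 < n → k ^ n = 1 → k = 1) →
  ∀ (p : ℕ), p.Prime → (∀ x y : K, Pad p x → Pad p y → x ≠ 1 → y ≠ 1 → cl x ⊓ cl y ≠ ⊥) →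
  ∀ χ ψ : K →ₜ* Circle, (∀ k, χ k ^ p = 1) → (∃ k, χ k ≠ 1) → (∀ k, ψ k ^ p = 1) →
  ∃ j : ℤ, ∀ k, ψ k = χ k ^ j

/-- `p`-adic elements for infinitely many primes `p` are independent -/
def St_I : Prop := ∀ (K : Type) [CommGroup K] [TopologicalSpace K] [IsTopologicalGroup K]
  [CompactSpace K] [T2Space K] (M : Subgroup K) (P : Set ℕ), P.Infinite → (∀ p ∈ P, p.Prime) →
  ∀ c : ℕ → K, (∀ p ∈ P, Pad p (c p) ∧ c p ∈ M ∧ ∀ n : ℕ, 0 < n → c p ^ n ≠ 1) →
  Cardinal.aleph0 ≤ Module.rank ℤ (Additive M)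

/-- a dense cyclic subgroup -/
def St_G : Prop := ∀ (K : Type) [CommGroup K] [TopologicalSpace K] [IsTopologicalGroup K]
  [CompactSpace K] [T2Space K], (∀ (n : ℕ) (k : K), 0 < n → k ^ n = 1 → k = 1) → TorX K →
  ∀ (G : Subgroup K), Dense (G : Set K) →
  (∀ N : Subgroup K, IsClosed (N : Set K) → N ≠ ⊥ → G ⊓ N ≠ ⊥) →
  Module.rank ℤ (Additive G) < Cardinal.aleph0 →
  ∃ g ∈ G, Dense ((Subgroup.zpowers g : Subgroup K) : Set K)

/-- torsion dual: conclusion -/
def St_Tor : Prop := ∀ (K : Type) [CommGroup K] [TopologicalSpace K] [IsTopologicalGroup K]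
  [CompactSpace K] [T2Space K] (G : Subgroup K), Dense (G : Set K) → DM G → TorX K →
  ∀ (S N : Subgroup K), S ≤ G → IsClosed (N : Set K) → (N : Set K) ⊆ closure (S : Set K) → N ≠ ⊥ →
  S ⊓ N ≠ ⊥

/-- minimal closed subgroups with a circle as image -/
def St_M : Prop := ∀ (K : Type) [CommGroup K] [TopologicalSpace K] [IsTopologicalGroup K]
  [CompactSpace K] [T2Space K], ¬ TorX K → ∃ (L : Subgroup K) (χ₀ : K →ₜ* Circle),
    IsClosed (L : Set K) ∧ (∀ t : Circle, ∃ l ∈ L, χ₀ l = t) ∧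
    (∀ n : ℕ, 0 < n → ∀ l ∈ L, ∃ l' ∈ L, l' ^ n = l) ∧
    ∀ ψ : K →ₜ* Circle, (∃ l ∈ L, ψ l ≠ 1) → LP (L ⊓ (ψ : K →* Circle).ker)

/-- the dual of `K` is a torsion group -/
def St_NT : Prop := ∀ (K : Type) [CommGroup K] [TopologicalSpace K] [IsTopologicalGroup K]
  [CompactSpace K] [T2Space K] (G : Subgroup K), Dense (G : Set K) → DM G → TorX K

end Pool.Agent.N515.DMin
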