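import Mathlib
import Pool.Agent.N515.DMin.Stm

/-! MP_00f11d_al (project of helper515), the statement St_E4 (proof by helper281). -/

set_option autoImplicit false
set_option linter.unusedSectionVars false

open Topology Set

namespace Pool.Agent.N515.DMin

section hull

variable (C : Type) [AddCommGroup C]

/-- the canonical homomorphism from the free group on `C` to `C` -/
noncomputable def e4Pi : (C →₀ ℤ) →+ C := (Finsupp.linearCombination ℤ (id : C → C)).toAddMonoidHom

/-- the inclusion of the free group into the rational vector space -/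
noncomputable def e4In : (C →₀ ℤ) →+ (C →₀ ℚ) :=
  Finsupp.mapRange.addMonoidHom (Int.castAddHom ℚ)

lemma e4Pi_single (c : C) (n : ℤ) : e4Pi C (Finsupp.single c n) = n • c := by
  simp [e4Pi]

lemma e4In_single (c : C) (n : ℤ) : e4In C (Finsupp.single c n) = Finsupp.single c (n : ℚ) := by
  simp [e4In]

lemma e4In_inj : Function.Injective (e4In C) := by
  intro a b h
  ext c
  have h1 := DFunLike.congr_fun h c
  simp only [e4In, Finsupp.mapRange.addMonoidHom_apply, Finsupp.mapRange_apply,
    Int.coe_castAddHom] at h1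
  exact_mod_cast h1

/-- the relations -/
noncomputable def e4R : AddSubgroup (C →₀ ℚ) := (e4Pi C).ker.map (e4In C)

/-- the divisible hull -/
abbrev E4V : Type := (C →₀ ℚ) ⧸ e4R C

lemma e4_div (n : ℕ) (hn : 0 < n) (v : E4V C) : ∃ w : E4V C, n • w = v := by
  obtain ⟨x, rfl⟩ := QuotientAddGroup.mk_surjective v
  refine ⟨QuotientAddGroup.mk ((1 / (n : ℚ)) • x), ?_⟩
  rw [← QuotientAddGroup.mk_nsmul]
  congr 1
  rw [← Nat.cast_smul_eq_nsmul ℚ, smul_smul]
  have : (n : ℚ) * (1 / (n : ℚ)) = 1 := by
    have : (n : ℚ) ≠ 0 := by positivity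
    field_simp
  rw [this, one_smul]

/-- the embedding of `C` into its divisible hull -/
noncomputable def e4J : C →+ E4V C :=
  AddMonoidHom.mk' (fun c => (QuotientAddGroup.mk (Finsupp.single c (1 : ℚ)) : E4V C)) (by
    intro a b
    rw [← QuotientAddGroup.mk_add, QuotientAddGroup.eq]
    refine ⟨-Finsupp.single (a + b) (1 : ℤ) + (Finsupp.single a 1 + Finsupp.single b 1), ?_, ?_⟩
    · change e4Pi C _ = 0
      rw [map_add, map_neg, map_add, e4Pi_single, e4Pi_single, e4Pi_single]
      simp
    · rw [map_add, map_neg, map_add, e4In_single, e4In_single, e4In_single]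
      simp)

lemma e4J_ker (c : C) (h : e4J C c = 0) : c = 0 := by
  have h1 : (QuotientAddGroup.mk (Finsupp.single c (1 : ℚ)) : E4V C) = 0 := h
  rw [QuotientAddGroup.eq_zero_iff] at h1
  obtain ⟨r, hr, hr2⟩ := h1
  have h2 : e4In C r = e4In C (Finsupp.single c 1) := by
    rw [hr2, e4In_single, Int.cast_one]
  have h3 := e4In_inj C h2
  have h4 : e4Pi C r = 0 := hr
  rw [h3, e4Pi_single, one_smul] at h4
  exact h4

lemma e4_card : Cardinal.mk (E4V C) ≤ max (Cardinal.mk C) Cardinal.aleph0 := by
  have h1 : Cardinal.mk (E4V C) ≤ Cardinal.mk (C →₀ ℚ) :=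
    Cardinal.mk_le_of_surjective QuotientAddGroup.mk_surjective
  rw [Cardinal.mk_finsupp_of_infinite' C ℚ] at h1
  simpa using h1

end hull

/-- the divisible hull construction -/
theorem t_E4 : St_E4 := by
  intro B _ C M ι f hf hind hC hι
  have hcard : Cardinal.mk (E4V C) ≤ Cardinal.mk ι :=
    (e4_card C).trans (max_le hC hι)
  obtain ⟨emb⟩ := (Cardinal.le_def _ _).1 hcard
  set s : ι → E4V C := Function.invFun emb with hs
  have hsurj : Function.Surjective s := Function.invFun_surjective emb.injective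
  let S : (ι →₀ ℤ) →+ B := (Finsupp.linearCombination ℤ f).toAddMonoidHom
  let S' : (ι →₀ ℤ) →+ E4V C := (Finsupp.linearCombination ℤ s).toAddMonoidHom
  let T : (C × (ι →₀ ℤ)) →+ B := C.subtype.coprod S
  let g : (C × (ι →₀ ℤ)) →+ E4V C := (e4J C).coprod S'
  have hSn : ∀ n : ι →₀ ℤ, S n = n.sum fun i a => a • f i := fun n =>
    Finsupp.linearCombination_apply ℤ n
  have hT : Function.Injective T := by
    rw [injective_iff_map_eq_zero]
    rintro ⟨c, n⟩ h
    have h1 : (c : B) + S n = 0 := h
    have h2 : S n ∈ C := by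
      rw [← neg_eq_of_add_eq_zero_right h1]
      exact C.neg_mem c.2
    rw [hSn] at h2
    have h3 := hind n h2
    subst h3
    rw [map_zero, add_zero] at h1
    have h4 : c = 0 := Subtype.ext h1
    rw [h4]
    rfl
  let _ : DivisibleBy (E4V C) ℤ := by
    have h0 : ∀ {n : ℤ}, n ≠ 0 → Function.Surjective (fun v : E4V C => n • v) := by
      intro n hn v
      obtain ⟨w, hw⟩ := e4_div C n.natAbs (Int.natAbs_pos.mpr hn) v
      rcases Int.natAbs_eq n with h | h
      · refine ⟨w, ?_⟩
        change n • w = v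
        rw [h, natCast_zsmul]
        exact hw
      · refine ⟨-w, ?_⟩
        change n • (-w) = v
        rw [h, neg_smul, smul_neg, neg_neg, natCast_zsmul]
        exact hw
    exact divisibleByOfSMulRightSurj (E4V C) ℤ h0
  obtain ⟨φ, hφ⟩ := (Module.Baer.of_divisible (E4V C)).extension_property_addMonoidHom T hT g
  refine ⟨E4V C, inferInstance, φ, e4_div C, ?_, ?_⟩
  · intro c hc h
    have h1 := DFunLike.congr_fun hφ ((⟨c, hc⟩ : C), (0 : ι →₀ ℤ))
    have h2 : T ((⟨c, hc⟩ : C), (0 : ι →₀ ℤ)) = c := by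
      change c + S 0 = c
      rw [map_zero, add_zero]
    have h3 : g ((⟨c, hc⟩ : C), (0 : ι →₀ ℤ)) = e4J C ⟨c, hc⟩ := by
      change e4J C ⟨c, hc⟩ + S' 0 = _
      rw [map_zero, add_zero]
    rw [AddMonoidHom.comp_apply, h2, h3, h] at h1
    have h4 := e4J_ker C _ h1.symm
    exact congrArg Subtype.val h4
  · intro v
    obtain ⟨i, hi⟩ := hsurj v
    refine ⟨f i, hf i, ?_⟩
    have h1 := DFunLike.congr_fun hφ ((0 : C), Finsupp.single i (1 : ℤ))
    have h2 : T ((0 : C), Finsupp.single i (1 : ℤ)) = f i := by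
      change ((0 : C) : B) + (Finsupp.linearCombination ℤ f) (Finsupp.single i 1) = f i
      rw [Finsupp.linearCombination_single]
      simp
    have h3 : g ((0 : C), Finsupp.single i (1 : ℤ)) = s i := by
      change e4J C 0 + (Finsupp.linearCombination ℤ s) (Finsupp.single i 1) = s i
      rw [Finsupp.linearCombination_single, map_zero]
      simp
    rw [AddMonoidHom.comp_apply, h2, h3, hi] at h1
    exact h1

end Pool.Agent.N515.DMin
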