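import Pool.Agent.N515.DMin.Stm

/-! Project DM (helper515), part ALG-C (helper853): rank and cardinality of torsion-free groups. -/

set_option autoImplicit false

open Cardinal Module nonZeroDivisors

namespace Pool.Agent.N515.DMin

theorem ac_card (R B : Type) [CommRing R] [IsDomain R] [Infinite R] [Countable R]
    [AddCommGroup B] [Module R B] (h : ∀ (n : R) (b : B), n ≠ 0 → n • b = 0 → b = 0) :
    #B ≤ max (Module.rank R B) ℵ₀ := by
  set V := LocalizedModule R⁰ B
  set b := Module.Free.chooseBasis (FractionRing R) V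
  have h1 : #(Module.Free.ChooseBasisIndex (FractionRing R) V) = Module.rank R B := by
    rw [← Module.Free.rank_eq_card_chooseBasisIndex,
      IsLocalization.rank_eq (FractionRing R) R⁰ le_rfl,
      IsLocalizedModule.rank_eq R⁰ le_rfl (LocalizedModule.mkLinearMap R⁰ B)]
  have h2 : #B ≤ #V := by
    refine Cardinal.mk_le_of_injective (f := LocalizedModule.mkLinearMap R⁰ B) ?_
    intro x y hxy
    obtain ⟨c, hc⟩ := (IsLocalizedModule.eq_iff_exists R⁰ (LocalizedModule.mkLinearMap R⁰ B)).1 hxy
    have h3 : (c : R) • (x - y) = 0 := by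
      rw [smul_sub, sub_eq_zero]
      exact hc
    exact sub_eq_zero.1 (h c (x - y) (nonZeroDivisors.ne_zero c.2) h3)
  have hc : #(FractionRing R) ≤ ℵ₀ :=
    (IsLocalization.cardinalMk_le (R := R) (L := FractionRing R) R⁰).trans
      (Cardinal.mk_le_aleph0_iff.2 inferInstance)
  have h3 : #V = #((Module.Free.ChooseBasisIndex (FractionRing R) V) →₀ FractionRing R) :=
    b.repr.toEquiv.cardinal_eq
  rw [h3] at h2
  refine h2.trans ?_
  rcases isEmpty_or_nonempty (Module.Free.ChooseBasisIndex (FractionRing R) V) with he | he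
  · have : Subsingleton ((Module.Free.ChooseBasisIndex (FractionRing R) V) →₀ FractionRing R) :=
      inferInstance
    exact ((Cardinal.le_one_iff_subsingleton.2 this).trans one_le_aleph0).trans (le_max_right _ _)
  · have hi : Infinite (FractionRing R) :=
      Infinite.of_injective (algebraMap R (FractionRing R)) (IsFractionRing.injective R _)
    rw [Cardinal.mk_finsupp_of_infinite', h1]
    exact max_le_max le_rfl hc

theorem t_E7 : St_E7 := by
  intro B _ h hr
  rw [← Cardinal.mk_le_aleph0_iff]
  exact (ac_card ℤ B h).trans (max_le hr.le le_rfl)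

theorem t_E5 : St_E5 := by
  intro B _ h hB
  have h1 := ac_card ℤ B h
  have h2 : #B ≤ Module.rank ℤ B := by
    rcases le_max_iff.1 h1 with h3 | h3
    · exact h3
    · exact absurd hB (not_lt.2 h3)
  obtain ⟨s, hs, hli⟩ := exists_set_linearIndependent_of_isDomain ℤ B
  rw [← hs] at h2
  obtain ⟨g⟩ := h2
  exact ⟨fun b => (g b : B), LinearIndependent.comp hli g g.injective⟩

end Pool.Agent.N515.DMin
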