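import Pool.Agent.N515.DMin.Stm

set_option autoImplicit false

/-! MP_00f11d_al (helper515), subtask 11079: `St_E6`. -/

namespace Pool.Agent.N515.DMin

open Cardinal

/-- a quotient of a module of infinite rank by a submodule of finite rank contains an infinite
linearly independent sequence -/
theorem algD_seq {M : Type} [AddCommGroup M] (D : Submodule ℤ M)
    (hD : Module.rank ℤ D < ℵ₀) (hM : ℵ₀ ≤ Module.rank ℤ M) :
    ∃ g : ℕ → M ⧸ D, LinearIndependent ℤ g := by
  have h1 : Module.rank ℤ (M ⧸ D) + Module.rank ℤ D = Module.rank ℤ M :=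
    rank_quotient_add_rank_of_isDomain D
  have h2 : ℵ₀ ≤ Module.rank ℤ (M ⧸ D) := by
    by_contra h
    push Not at h
    have := Cardinal.add_lt_aleph0 h hD
    rw [h1] at this
    exact absurd hM (not_le.mpr this)
  obtain ⟨s, hs, hli⟩ := exists_set_linearIndependent ℤ (M ⧸ D)
  have h3 : ℵ₀ ≤ Cardinal.mk s := by rw [hs]; exact h2
  haveI : Infinite s := Cardinal.infinite_iff.mpr h3
  refine ⟨fun n => ((Infinite.natEmbedding s n : s) : M ⧸ D), ?_⟩
  exact hli.comp _ (Infinite.natEmbedding s).injective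

theorem t_E6 : St_E6 := by
  intro B _ C M hC hM
  -- the intersection as a submodule of `M`
  let CM : Submodule ℤ M := AddSubgroup.toIntSubmodule (C.comap M.subtype)
  have hmem : ∀ x : M, x ∈ CM ↔ (x : B) ∈ C := fun x => Iff.rfl
  let φ : CM →ₗ[ℤ] C :=
    (AddMonoidHom.mk' (fun x : CM => (⟨((x : M) : B), (hmem x).1 x.2⟩ : C))
      (by intro a b; rfl)).toIntLinearMap
  have hφ : Function.Injective φ := by
    intro a b hab
    have h : ((φ a : C) : B) = ((φ b : C) : B) := by rw [hab]
    have : ((a : M) : B) = ((b : M) : B) := h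
    exact Subtype.ext (Subtype.ext this)
  have hD : Module.rank ℤ CM < ℵ₀ := lt_of_le_of_lt (LinearMap.rank_le_of_injective φ hφ) hC
  obtain ⟨g, hg⟩ := algD_seq CM hD hM
  have hsurj : ∀ i, ∃ m : M, CM.mkQ m = g i := fun i => Submodule.mkQ_surjective CM (g i)
  choose m hm using hsurj
  refine ⟨fun i => (m i : B), fun i => (m i).2, ?_⟩
  intro n hn
  have h1 : (n.sum fun i a => a • m i) ∈ CM := by
    rw [hmem]
    have : (((n.sum fun i a => a • m i) : M) : B) = n.sum fun i a => a • (m i : B) := by
      simp only [Finsupp.sum]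
      rw [AddSubgroup.val_finsetSum]
      rfl
    rw [this]
    exact hn
  have h2 : CM.mkQ (n.sum fun i a => a • m i) = 0 := (Submodule.Quotient.mk_eq_zero CM).2 h1
  rw [linearIndependent_iff] at hg
  apply hg n
  rw [Finsupp.linearCombination_apply, ← h2]
  simp only [Finsupp.sum, map_sum, map_smul, hm]

end Pool.Agent.N515.DMin
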