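import Pool.Agent.N515.DMin.Stm

set_option autoImplicit false

/-! Project DM, piece B: two independent `p`-adic elements and an LP subgroup of infinite rank. -/

open Topology Set

namespace Pool.Agent.N515.DMin

section

variable {K : Type} [CommGroup K] [TopologicalSpace K]

/-- the elements of `G` in `N`, as a subgroup of the additive group of `G` -/
def B_sub (G N : Subgroup K) : AddSubgroup (Additive G) where
  carrier := {b | ((b.toMul : G) : K) ∈ N}
  zero_mem' := N.one_mem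
  add_mem' := fun ha hb => N.mul_mem ha hb
  neg_mem' := fun ha => N.inv_mem ha

theorem B_LP_mono {M M' : Subgroup K} (h : M' ≤ M) (hM : LP M) : LP M' := fun χ =>
  (hM χ).subset (Set.image_mono h)

theorem B_roots {n : ℕ} (hn : 0 < n) : {z : Circle | z ^ n = 1}.Finite := by
  refine Set.Finite.of_finite_image (f := fun z : Circle => (z : ℂ)) ?_
    (fun a _ b _ h => Circle.ext h)
  refine (Finset.finite_toSet (Polynomial.nthRootsFinset n (1 : ℂ))).subset ?_
  rintro _ ⟨z, hz, rfl⟩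
  rw [Finset.mem_coe, Polynomial.mem_nthRootsFinset hn]
  have h := congrArg (fun z : Circle => (z : ℂ)) (show z ^ n = 1 from hz)
  simpa using h

theorem B_LP_cl [IsTopologicalGroup K] {p : ℕ} (hp : p.Prime) {x : K} (hx : Pad p x) :
    LP (cl x) := by
  intro χ
  obtain ⟨n, hn⟩ := hx χ
  refine (B_roots (n := p ^ n) (pow_pos hp.pos n)).subset ?_
  rintro _ ⟨k, hk, rfl⟩
  have hc : IsClosed {k : K | χ k ^ p ^ n = 1} :=
    isClosed_eq ((map_continuous χ).pow _) continuous_const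
  have hs : ((Subgroup.zpowers x : Subgroup K) : Set K) ⊆ {k : K | χ k ^ p ^ n = 1} := by
    rintro _ ⟨j, rfl⟩
    show χ (x ^ j) ^ p ^ n = 1
    rw [map_zpow, ← zpow_natCast, ← zpow_mul, mul_comm, zpow_mul, zpow_natCast, hn, one_zpow]
  exact closure_minimal hs hc hk

theorem B_tf (hT3 : St_T3) [IsTopologicalGroup K] [CompactSpace K] [T2Space K] {p : ℕ}
    (hp : p.Prime) {x : K} (hx : Pad p x) (hinf : ((cl x : Subgroup K) : Set K).Infinite) :
    ∀ z ∈ cl x, ∀ n : ℕ, 0 < n → z ^ n = 1 → z = 1 := by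
  intro z hz n hn hzn
  by_contra hz1
  have hfo : IsOfFinOrder z := isOfFinOrder_iff_pow_eq_one.2 ⟨n, hn, hzn⟩
  have hfin : ((Subgroup.zpowers z : Subgroup K) : Set K).Finite := finite_zpowers.2 hfo
  obtain ⟨k, hk⟩ := hT3 K p hp x hx (Subgroup.zpowers z) hfin.isClosed
    (Subgroup.zpowers_le.2 hz) (fun h => hz1 (Subgroup.zpowers_eq_bot.1 h))
  have h1 : x ^ (p ^ k) ∈ Subgroup.zpowers z := by
    rw [hk]
    exact Subgroup.le_topologicalClosure _ (Subgroup.mem_zpowers _)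
  have h2 : IsOfFinOrder (x ^ (p ^ k)) := by
    obtain ⟨j, hj⟩ := h1
    have hj' : z ^ j = x ^ (p ^ k) := hj
    rw [← hj']
    exact hfo.zpow
  have h3 : IsOfFinOrder x := h2.of_pow (pow_pos hp.pos k).ne'
  have h4 : ((Subgroup.zpowers x : Subgroup K) : Set K).Finite := finite_zpowers.2 h3
  apply hinf
  have h5 : ((cl x : Subgroup K) : Set K) = closure ((Subgroup.zpowers x : Subgroup K) : Set K) := rfl
  rw [h5, h4.isClosed.closure_eq]
  exact h4

theorem B_tool (hA : St_A) (hE4 : St_E4) [IsTopologicalGroup K] [CompactSpace K] [T2Space K]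
    {G : Subgroup K} (hd : Dense (G : Set K)) (hDM : DM G) (N : Subgroup K)
    (hNc : IsClosed (N : Set K)) (hN : N ≠ ⊥) (M : Subgroup K) (hM : M ≤ G) (hLP : LP M)
    (ι : Type) (f : ι → K) (hf : ∀ i, f i ∈ M)
    (hind : ∀ n : ι →₀ ℤ, (n.prod fun i a => f i ^ a) ∈ N → n = 0)
    (hc : Cardinal.mk ↥(G ⊓ N) ≤ Cardinal.mk ι) (hι : Cardinal.aleph0 ≤ Cardinal.mk ι) : False := by
  have hsum : ∀ n : ι →₀ ℤ, (((n.sum fun i a => a • (Additive.ofMul (⟨f i, hM (hf i)⟩ : G))).toMul :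
      G) : K) = n.prod fun i a => f i ^ a := by
    intro n
    unfold Finsupp.sum Finsupp.prod
    rw [toMul_sum]
    rw [Subgroup.val_finsetProd]
    rfl
  have hcard : Cardinal.mk ↥(B_sub G N) ≤ Cardinal.mk ι := by
    refine le_trans (Cardinal.mk_le_of_injective
      (f := fun c : ↥(B_sub G N) => (⟨((c.1.toMul : G) : K), (c.1.toMul : G).2, c.2⟩ : ↥(G ⊓ N))) ?_) hc
    intro a b hab
    have h1 := congrArg (fun z : ↥(G ⊓ N) => (z : K)) hab
    exact Subtype.ext (Additive.toMul.injective (Subtype.ext h1))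
  obtain ⟨V, _, φ, hdiv, hinj, hsurj⟩ := hE4 (Additive G) (B_sub G N) (B_sub G M) ι
    (fun i => Additive.ofMul (⟨f i, hM (hf i)⟩ : G)) (fun i => hf i)
    (fun n hn => hind n (by
      have h1 : (((n.sum fun i a => a • (Additive.ofMul (⟨f i, hM (hf i)⟩ : G))).toMul : G) : K) ∈ N := hn
      rwa [hsum n] at h1)) hcard hι
  refine hA K G hd hDM N hNc hN M hM hLP V hdiv (AddMonoidHom.toMultiplicativeRight φ) ?_ ?_
  · intro g hg hφ
    have h1 : φ (Additive.ofMul g) = 0 := by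
      have h2 := congrArg Multiplicative.toAdd hφ
      simpa using h2
    have h3 := hinj (Additive.ofMul g) hg h1
    exact congrArg Additive.toMul h3
  · intro v
    obtain ⟨m, hm, hmv⟩ := hsurj v.toAdd
    refine ⟨m.toMul, hm, ?_⟩
    have : (AddMonoidHom.toMultiplicativeRight φ) m.toMul = Multiplicative.ofAdd (φ m) := rfl
    rw [this, hmv]
    rfl

/-- the additive group of a subgroup -/
def B_equiv (M : Subgroup K) : ↥(Subgroup.toAddSubgroup M) ≃+ Additive M where
  toFun a := Additive.ofMul ⟨a.1.toMul, a.2⟩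
  invFun a := ⟨Additive.ofMul ((a.toMul : M) : K), (a.toMul : M).2⟩
  left_inv _ := rfl
  right_inv _ := rfl
  map_add' _ _ := rfl

theorem B_rank (M : Subgroup K) :
    Module.rank ℤ ↥(Subgroup.toAddSubgroup M) = Module.rank ℤ (Additive M) :=
  (B_equiv M).toIntLinearEquiv.rank_eq

theorem B_E6 (hE6 : St_E6) (C M : Subgroup K)
    (hC : Module.rank ℤ ↥(Subgroup.toAddSubgroup C) < Cardinal.aleph0)
    (hM : Cardinal.aleph0 ≤ Module.rank ℤ ↥(Subgroup.toAddSubgroup M)) :
    ∃ f : ℕ → K, (∀ i, f i ∈ M) ∧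
      ∀ n : ℕ →₀ ℤ, (n.prod fun i a => f i ^ a) ∈ C → n = 0 := by
  obtain ⟨f, hf, hf'⟩ := hE6 (Additive K) (Subgroup.toAddSubgroup C) (Subgroup.toAddSubgroup M) hC hM
  refine ⟨fun i => (f i).toMul, fun i => hf i, fun n hn => hf' n ?_⟩
  have h1 : (n.sum fun i a => a • f i).toMul = n.prod fun i a => (f i).toMul ^ a := by
    unfold Finsupp.sum Finsupp.prod
    rw [toMul_sum]
    rfl
  show (n.sum fun i a => a • f i).toMul ∈ C
  rw [h1]
  exact hn

theorem B_cl_closed [IsTopologicalGroup K] (x : K) : IsClosed ((cl x : Subgroup K) : Set K) :=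
  Subgroup.isClosed_topologicalClosure _

theorem B_cl_bot [IsTopologicalGroup K] {x : K} (hx : x ≠ 1) : cl x ≠ ⊥ := by
  intro h
  have h1 : x ∈ cl x := Subgroup.le_topologicalClosure _ (Subgroup.mem_zpowers x)
  rw [h] at h1
  exact hx (Subgroup.mem_bot.1 h1)

theorem B_prod_mem {ι : Type} (M : Subgroup K) (f : ι → K) (hf : ∀ i, f i ∈ M) (n : ι →₀ ℤ) :
    (n.prod fun i a => f i ^ a) ∈ M :=
  Subgroup.prod_mem _ fun i _ => Subgroup.zpow_mem _ (hf i) _

theorem B_unc (hA : St_A) (hE4 : St_E4) (hE5 : St_E5) (hT3 : St_T3)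
    [IsTopologicalGroup K] [CompactSpace K] [T2Space K] {G : Subgroup K}
    (hd : Dense (G : Set K)) (hDM : DM G) {q : ℕ} (hq : q.Prime) {x y : K}
    (hy : Pad q y) (hx1 : x ≠ 1) (hxy : cl x ⊓ cl y = ⊥)
    (hle : Cardinal.mk ↥(G ⊓ cl x) ≤ Cardinal.mk ↥(G ⊓ cl y)) (hunc : ¬ Countable ↥(G ⊓ cl y)) :
    False := by
  have hlt : Cardinal.aleph0 < Cardinal.mk ↥(G ⊓ cl y) := by
    rw [← not_le, Cardinal.mk_le_aleph0_iff]
    exact hunc
  have hinf : ((cl y : Subgroup K) : Set K).Infinite := by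
    intro hfin
    apply hunc
    have h1 : (((G ⊓ cl y : Subgroup K)) : Set K).Finite := hfin.subset fun z hz => hz.2
    exact h1.countable.to_subtype
  have htf := B_tf hT3 hq hy hinf
  obtain ⟨f, hf⟩ := hE5 (Additive ↥(G ⊓ cl y)) (by
    intro n b hn hb
    have h1 : (b.toMul : ↥(G ⊓ cl y)) ^ n = 1 := by
      have := congrArg Additive.toMul hb
      simpa using this
    have h2 : ((b.toMul : ↥(G ⊓ cl y)) : K) ^ n = 1 := by
      have := congrArg (fun z : ↥(G ⊓ cl y) => (z : K)) h1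
      simpa using this
    have h3 : ((b.toMul : ↥(G ⊓ cl y)) : K) ^ n.natAbs = 1 := by
      rcases Int.natAbs_eq n with h | h
      · rw [h] at h2
        simpa using h2
      · rw [h] at h2
        simpa using h2
    have h4 := htf _ (b.toMul : ↥(G ⊓ cl y)).2.2 n.natAbs (Int.natAbs_pos.2 hn) h3
    exact congrArg Additive.ofMul (show (b.toMul : ↥(G ⊓ cl y)) = 1 from Subtype.ext h4)) hlt
  refine B_tool hA hE4 hd hDM (cl x) (B_cl_closed x) (B_cl_bot hx1) (G ⊓ cl y) inf_le_left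
    (B_LP_mono inf_le_right (B_LP_cl hq hy)) (Additive ↥(G ⊓ cl y))
    (fun i => (((f i).toMul : ↥(G ⊓ cl y)) : K)) (fun i => ((f i).toMul : ↥(G ⊓ cl y)).2) ?_ hle hlt.le
  intro n hn
  have h1 : (n.prod fun i a => (((f i).toMul : ↥(G ⊓ cl y)) : K) ^ a) ∈ G ⊓ cl y :=
    B_prod_mem _ _ (fun i => ((f i).toMul : ↥(G ⊓ cl y)).2) n
  have h2 : (n.prod fun i a => (((f i).toMul : ↥(G ⊓ cl y)) : K) ^ a) = 1 := by
    have : (n.prod fun i a => (((f i).toMul : ↥(G ⊓ cl y)) : K) ^ a) ∈ cl x ⊓ cl y := ⟨hn, h1.2⟩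
    rw [hxy] at this
    exact Subgroup.mem_bot.1 this
  have h3 : Finsupp.linearCombination ℤ f n = 0 := by
    rw [Finsupp.linearCombination_apply]
    apply Additive.toMul.injective
    apply Subtype.ext
    have h4 : (((n.sum fun i a => a • f i).toMul : ↥(G ⊓ cl y)) : K) =
        n.prod fun i a => (((f i).toMul : ↥(G ⊓ cl y)) : K) ^ a := by
      unfold Finsupp.sum Finsupp.prod
      rw [toMul_sum, Subgroup.val_finsetProd]
      rfl
    rw [h4, h2]
    rfl
  exact linearIndependent_iff.1 hf n h3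

end

theorem t_B (hA : St_A) (hE4 : St_E4) (hE5 : St_E5) (hE6 : St_E6) (hT3 : St_T3) : St_B := by
  intro K _ _ _ _ _ G hd hDM p q hp hq x y hx hy hx1 hy1 hxy M hMG hM hrk
  by_cases h2 : Countable ↥(G ⊓ cl y)
  · by_cases h1 : Countable ↥(G ⊓ cl x)
    · by_cases hr : Module.rank ℤ ↥(Subgroup.toAddSubgroup (G ⊓ cl x)) < Cardinal.aleph0
      · obtain ⟨f, hf, hf'⟩ := B_E6 hE6 (G ⊓ cl x) M hr (by rw [B_rank]; exact hrk)
        refine B_tool hA hE4 hd hDM (cl x) (B_cl_closed x) (B_cl_bot hx1) M hMG hM ℕ f hf ?_ ?_ ?_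
        · intro n hn
          exact hf' n ⟨hMG (B_prod_mem M f hf n), hn⟩
        · rw [Cardinal.mk_nat]
          exact Cardinal.mk_le_aleph0_iff.2 h1
        · rw [Cardinal.mk_nat]
      · rw [not_lt] at hr
        obtain ⟨f, hf, hf'⟩ := B_E6 hE6 ⊥ (G ⊓ cl x) (by
          have h3 : Subsingleton ↥(Subgroup.toAddSubgroup (⊥ : Subgroup K)) := by
            refine ⟨fun a b => Subtype.ext ?_⟩
            have ha : (a.1.toMul : K) = 1 := Subgroup.mem_bot.1 a.2
            have hb : (b.1.toMul : K) = 1 := Subgroup.mem_bot.1 b.2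
            exact Additive.toMul.injective (ha.trans hb.symm)
          rw [rank_subsingleton']
          exact Cardinal.aleph0_pos) hr
        refine B_tool hA hE4 hd hDM (cl y) (B_cl_closed y) (B_cl_bot hy1) (G ⊓ cl x) inf_le_left
          (B_LP_mono inf_le_right (B_LP_cl hp hx)) ℕ f hf ?_ ?_ ?_
        · intro n hn
          apply hf' n
          rw [← hxy]
          exact ⟨(B_prod_mem _ f hf n).2, hn⟩
        · rw [Cardinal.mk_nat]
          exact Cardinal.mk_le_aleph0_iff.2 h2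
        · rw [Cardinal.mk_nat]
    · refine B_unc hA hE4 hE5 hT3 hd hDM hp hx hy1 (by rw [inf_comm]; exact hxy) ?_ h1
      exact (Cardinal.mk_le_aleph0_iff.2 h2).trans (le_of_lt (by
        rw [← not_le, Cardinal.mk_le_aleph0_iff]
        exact h1))
  · rcases le_total (Cardinal.mk ↥(G ⊓ cl x)) (Cardinal.mk ↥(G ⊓ cl y)) with hle | hle
    · exact B_unc hA hE4 hE5 hT3 hd hDM hq hy hx1 hxy hle h2
    · refine B_unc hA hE4 hE5 hT3 hd hDM hp hx hy1 (by rw [inf_comm]; exact hxy) hle ?_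
      intro h1
      apply h2
      rw [← Cardinal.mk_le_aleph0_iff] at h1 ⊢
      exact hle.trans h1

end Pool.Agent.N515.DMin
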