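import Pool.Agent.N515.DMin.Stm

set_option autoImplicit false

/-! MP_00f11d_al: the chain lemma and torsion elements (St_C, St_C4). -/

open Topology Set

namespace Pool.Agent.N515.DMin

/-- a nontrivial power of an element of prime order generates it -/
lemma c478_gen {K : Type} [CommGroup K] {p : ℕ} (hp : p.Prime) {z : K} (hz : z ^ p = 1) {j : ℤ}
    (hj : z ^ j ≠ 1) : ∃ a : ℤ, z = (z ^ j) ^ a := by
  have hpj : ¬ (p : ℤ) ∣ j := by
    rintro ⟨c, rfl⟩
    apply hj
    rw [zpow_mul, zpow_natCast, hz, one_zpow]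
  have hcop : IsCoprime (p : ℤ) j := by
    rw [Int.isCoprime_iff_gcd_eq_one]
    have h1 : Nat.Coprime p j.natAbs := (Nat.Prime.coprime_iff_not_dvd hp).2 (fun h => hpj (Int.natCast_dvd.2 h))
    simpa [Int.gcd] using h1
  obtain ⟨a, b, hab⟩ := hcop
  refine ⟨b, ?_⟩
  have h1 : z = z ^ (a * p + b * j) := by rw [hab, zpow_one]
  have h2 : z ^ (a * p + b * j) = (z ^ j) ^ b := by
    rw [zpow_add, mul_comm a, mul_comm b, zpow_mul, zpow_natCast, hz, one_zpow, one_mul, zpow_mul]
  rw [← h2, ← h1]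

lemma c478_closed {K : Type} [CommGroup K] [TopologicalSpace K] [T2Space K] {p : ℕ} (hp : p.Prime)
    {z : K} (hz : z ^ p = 1) : IsClosed ((Subgroup.zpowers z : Subgroup K) : Set K) := by
  have hfin : IsOfFinOrder z := isOfFinOrder_iff_pow_eq_one.2 ⟨p, hp.pos, hz⟩
  have : Finite (Subgroup.zpowers z) := hfin.finite_zpowers
  exact (Set.toFinite _).isClosed

/-- every homomorphism on the chain kills the elements of order `p` -/
lemma c478_key (hD : St_D) (hT1 : St_T1) (K : Type) [CommGroup K] [TopologicalSpace K]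
    [IsTopologicalGroup K] [CompactSpace K] [T2Space K] (G : Subgroup K) (hG : Dense (G : Set K))
    (hDM : DM G) (p : ℕ) (hp : p.Prime) (α : G →* Circle) (hα : ∀ g, α g ^ p = 1)
    (hn : ¬ ∃ ψ : K →ₜ* Circle, ∀ g : G, ψ g = α g) (k : ℕ) (φ : G →* Circle)
    (hφ : ∀ g, φ g ^ (p ^ k) = α g) : ∀ g : G, g ^ p = 1 → φ g = 1 := by
  set H : Subgroup K := φ.ker.map G.subtype with hH
  have hHG : H ≤ G := by
    rintro x ⟨y, -, rfl⟩
    exact y.2
  by_cases hd : Dense (H : Set K)
  · intro g hg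
    by_cases h1 : g = 1
    · rw [h1, map_one]
    have hgK : (g : K) ^ p = 1 := by
      have := congrArg (fun x : G => (x : K)) hg
      simpa using this
    have hne : Subgroup.zpowers (g : K) ≠ ⊥ := by
      rw [Ne, Subgroup.zpowers_eq_bot]
      intro h
      exact h1 (Subtype.ext h)
    have h2 := hDM H hHG hd (Subgroup.zpowers (g : K)) (c478_closed hp hgK) hne
    obtain ⟨x, hx⟩ := Subgroup.ne_bot_iff_exists_ne_one.1 h2
    obtain ⟨hxH, hxN⟩ := Subgroup.mem_inf.1 x.2
    obtain ⟨j, hj⟩ := Subgroup.mem_zpowers_iff.1 hxN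
    have hx1' : (g : K) ^ j ≠ 1 := by
      rw [hj]
      intro h
      exact hx (Subtype.ext h)
    obtain ⟨a, ha⟩ := c478_gen hp hgK hx1'
    obtain ⟨y, hy, hyx⟩ := hxH
    have hyj : y = g ^ j := by
      apply Subtype.ext
      have : (y : K) = (x : K) := hyx
      rw [this, ← hj]
      simp
    have h3 : g = (g ^ j) ^ a := by
      apply Subtype.ext
      push_cast
      exact ha
    have h4 : φ (g ^ j) = 1 := by
      rw [← hyj]
      exact hy
    rw [h3, map_zpow, h4, one_zpow]
  · exfalso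
    have h1 : ∃ k : K, k ∉ H.topologicalClosure := by
      by_contra hcon
      push Not at hcon
      apply hd
      intro x
      have := hcon x
      exact this
    obtain ⟨x, hx⟩ := h1
    obtain ⟨χ, hχ1, hχ2⟩ := hT1 K H.topologicalClosure H.isClosed_topologicalClosure x hx
    have h2 : ∃ g : G, χ g ≠ 1 := by
      by_contra hcon
      push Not at hcon
      apply hχ2
      have h3 : (fun x : K => χ x) = fun _ => (1 : Circle) := by
        apply Continuous.ext_on hG (by exact χ.continuous_toFun) continuous_const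
        intro y hy
        exact hcon ⟨y, hy⟩
      exact congrFun h3 x
    obtain ⟨ψ, hψ⟩ := hD K G p hp k φ χ (fun g => by rw [pow_succ, pow_mul, hφ, hα])
      (fun g hg => hχ1 g (H.le_topologicalClosure ⟨g, hg, rfl⟩)) h2
    exact hn ⟨ψ, fun g => by rw [hψ, hφ]⟩

theorem t_C (hD : St_D) (hE2 : St_E2) (hT1 : St_T1) : St_C := by
  intro K _ _ _ _ _ G hG hDM p hp α hα hn k
  have key := c478_key hD hT1 K G hG hDM p hp α hα hn
  have hP : ∀ k : ℕ, ∃ φ : G →* Circle, ∀ g, φ g ^ (p ^ k) = α g := by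
    intro k
    induction k with
    | zero => exact ⟨α, fun g => by rw [pow_zero, pow_one]⟩
    | succ k ih =>
      obtain ⟨φ, hφ⟩ := ih
      obtain ⟨φ', hφ'⟩ := hE2 G p hp φ (key k φ hφ)
      exact ⟨φ', fun g => by rw [pow_succ', pow_mul, hφ', hφ]⟩
  obtain ⟨φ, hφ⟩ := hP k
  exact ⟨φ, hφ, key k φ hφ⟩

lemma c478_base (K : Type) [CommGroup K] [TopologicalSpace K]
    [IsTopologicalGroup K] [CompactSpace K] [T2Space K] (G : Subgroup K) (hG : Dense (G : Set K))
    (hDM : DM G) (p : ℕ) (hp : p.Prime) (z : K) (hz : z ^ p = 1) : z ∈ G := by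
  by_cases h1 : z = 1
  · rw [h1]
    exact G.one_mem
  have hne : Subgroup.zpowers z ≠ ⊥ := by
    rw [Ne, Subgroup.zpowers_eq_bot]
    exact h1
  have h2 := hDM G le_rfl hG (Subgroup.zpowers z) (c478_closed hp hz) hne
  obtain ⟨x, hx⟩ := Subgroup.ne_bot_iff_exists_ne_one.1 h2
  obtain ⟨hxH, hxN⟩ := Subgroup.mem_inf.1 x.2
  obtain ⟨j, hj⟩ := Subgroup.mem_zpowers_iff.1 hxN
  have hx1' : z ^ j ≠ 1 := by
    rw [hj]
    intro h
    exact hx (Subtype.ext h)
  obtain ⟨a, ha⟩ := c478_gen hp hz hx1'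
  rw [ha, hj]
  exact G.zpow_mem hxH a

theorem t_C4 (hC : St_C) (hE3 : St_E3) : St_C4 := by
  intro K _ _ _ _ _ G hG hDM p hp n
  induction n with
  | zero =>
    intro z hz
    rw [pow_zero, pow_one] at hz
    rw [hz]
    exact G.one_mem
  | succ n ih =>
    intro z hz
    have hw : z ^ p ∈ G := ih (z ^ p) (by rw [← pow_mul, ← pow_succ']; exact hz)
    by_cases hex : ∃ h : G, h ^ p = ⟨z ^ p, hw⟩
    · obtain ⟨h, hh⟩ := hex
      have hh' : (h : K) ^ p = z ^ p := by
        have := congrArg (fun x : G => (x : K)) hh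
        simpa using this
      have h1 : (z * (h : K)⁻¹) ^ p = 1 := by
        rw [mul_pow, inv_pow, hh', mul_inv_cancel]
      have h2 := c478_base K G hG hDM p hp _ h1
      have h3 : z = z * (h : K)⁻¹ * h := by group
      rw [h3]
      exact G.mul_mem h2 h.2
    · push Not at hex
      obtain ⟨α, hα, hαw⟩ := hE3 G p hp ⟨z ^ p, hw⟩ hex
      exfalso
      have hn : ¬ ∃ ψ : K →ₜ* Circle, ∀ g : G, ψ g = α g := by
        rintro ⟨ψ, hψ⟩
        apply hαw
        have h3 : (fun x : K => ψ x ^ p) = fun _ => (1 : Circle) := by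
          apply Continuous.ext_on hG ((ψ.continuous_toFun).pow p) continuous_const
          intro y hy
          have := hψ ⟨y, hy⟩
          show ψ y ^ p = 1
          rw [this]
          exact hα _
        have h4 := congrFun h3 z
        have h5 := hψ ⟨z ^ p, hw⟩
        rw [← h5]
        show ψ (z ^ p) = 1
        rw [map_pow]
        exact h4
      obtain ⟨φ, hφ, -⟩ := hC K G hG hDM p hp α hα hn n
      apply hαw
      rw [← hφ, ← map_pow]
      have h6 : (⟨z ^ p, hw⟩ : G) ^ (p ^ n) = 1 := by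
        apply Subtype.ext
        push_cast
        rw [← pow_mul, ← pow_succ']
        exact hz
      rw [h6, map_one]

end Pool.Agent.N515.DMin
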