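import Pool.Agent.N515.DMin.Stm

set_option autoImplicit false

/-! MP_00f11d_al: Lemma D (helper701). -/

open Topology Set

namespace Pool.Agent.N515.DMin

theorem dD_root {z w : Circle} {N : ℕ} (hN : 0 < N) (hz : orderOf z = N) (hw : w ^ N = 1) :
    ∃ i : ℕ, w = z ^ i := by
  have : NeZero N := ⟨hN.ne'⟩
  have h1 : IsPrimitiveRoot z N := by
    rw [← hz]
    exact IsPrimitiveRoot.orderOf z
  have h2 : IsPrimitiveRoot (z : ℂ) N :=
    h1.map_of_injective (f := Circle.coeHom) Circle.coe_injective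
  have h3 : (w : ℂ) ^ N = 1 := by
    rw [← Circle.coe_pow, hw, Circle.coe_one]
  obtain ⟨i, -, hi⟩ := h2.eq_pow_of_pow_eq_one h3
  refine ⟨i, Circle.coe_injective ?_⟩
  rw [Circle.coe_pow]
  exact hi.symm

theorem dD_pow {K : Type} [CommGroup K] [TopologicalSpace K] (χ : K →ₜ* Circle) (N : ℕ) :
    ∃ ψ : K →ₜ* Circle, ∀ k, ψ k = χ k ^ N :=
  ⟨{ toFun := fun k => χ k ^ N
     map_one' := by rw [map_one, one_pow]
     map_mul' := fun a b => by rw [map_mul, mul_pow]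
     continuous_toFun := χ.continuous_toFun.pow N }, fun _ => rfl⟩

theorem t_D : St_D := by
  intro K _ _ _ G p hp n φ χ hφ hker hex
  have : Fact p.Prime := ⟨hp⟩
  by_cases hA : ∀ g, φ g ^ (p ^ n) = 1
  · obtain ⟨ψ, hψ⟩ := dD_pow χ 0
    exact ⟨ψ, fun g => by rw [hψ, pow_zero, hA]⟩
  · push Not at hA
    obtain ⟨u, hu⟩ := hA
    have hord : orderOf (φ u) = p ^ (n + 1) := orderOf_eq_prime_pow hu (hφ u)
    have hpow : ∀ g : G, ∃ i : ℕ, φ g = φ u ^ i ∧ χ g = χ u ^ i := by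
      intro g
      obtain ⟨i, hi⟩ := dD_root (pow_pos hp.pos _) hord (hφ g)
      refine ⟨i, hi, ?_⟩
      have h1 : φ (g * (u ^ i)⁻¹) = 1 := by
        rw [map_mul, map_inv, map_pow, hi, mul_inv_cancel]
      have h2 := hker _ h1
      rw [Subgroup.coe_mul, Subgroup.coe_inv, Subgroup.coe_pow, map_mul, map_inv, map_pow,
        mul_inv_eq_one] at h2
      exact h2
    have hχu : χ u ≠ 1 := by
      intro h0
      obtain ⟨g, hg⟩ := hex
      obtain ⟨i, -, hi⟩ := hpow g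
      rw [h0, one_pow] at hi
      exact hg hi
    have hχp : χ u ^ (p ^ (n + 1)) = 1 := by
      have h1 : φ (u ^ (p ^ (n + 1))) = 1 := by rw [map_pow, hφ]
      have h2 := hker _ h1
      rw [Subgroup.coe_pow, map_pow] at h2
      exact h2
    have hm : ∃ m : ℕ, χ u ^ (p ^ (m + 1)) = 1 := ⟨n, hχp⟩
    classical
    obtain ⟨m, hm1, hm2⟩ : ∃ m : ℕ, χ u ^ (p ^ (m + 1)) = 1 ∧ χ u ^ (p ^ m) ≠ 1 := by
      refine ⟨Nat.find hm, Nat.find_spec hm, ?_⟩
      rcases h : Nat.find hm with _ | k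
      · rw [pow_zero, pow_one]
        exact hχu
      · exact Nat.find_min hm (by rw [h]; exact Nat.lt_succ_self k)
    have hc : orderOf (χ u ^ (p ^ m)) = p := by
      refine orderOf_eq_prime ?_ hm2
      rw [← pow_mul, ← pow_succ]
      exact hm1
    obtain ⟨j, hj⟩ := dD_root (w := φ u ^ (p ^ n)) hp.pos hc (by
      rw [← pow_mul, ← pow_succ]
      exact hφ u)
    obtain ⟨ψ, hψ⟩ := dD_pow χ (p ^ m * j)
    refine ⟨ψ, fun g => ?_⟩
    obtain ⟨i, h1, h2⟩ := hpow g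
    rw [hψ, h1, h2, ← pow_mul, mul_comm i, pow_mul, pow_mul, ← hj, ← pow_mul, ← pow_mul,
      mul_comm]

end Pool.Agent.N515.DMin
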