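import Pool.Agent.N515.DMin.Stm
import Pool.Agent.N485.MGCore

set_option autoImplicit false

open Topology Set

namespace Pool.Agent.N515.DMin

open Pool.Agent.N485.MG

theorem fin_main (hNT : St_NT) (hTor : St_Tor)
    (A : Type) [CommGroup A] [TopologicalSpace A] [IsTopologicalGroup A] [T2Space A]
    (h : ∀ D : Subgroup A, Dense (D : Set A) → MinGrp D) (S : Subgroup A) : MinGrp S := by
  have hA : MinGrp A := by
    refine min_of_dense (A := (⊤ : Subgroup A)) (B := A) (⊤ : Subgroup A).subtype
      IsEmbedding.subtypeVal ?_ (h ⊤ (by simp))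
    intro a
    exact subset_closure ⟨⟨a, Subgroup.mem_top a⟩, rfl⟩
  obtain ⟨B, _, _, _, _, _, i, hi, hd⟩ := exists_compact A hA
  let G : Subgroup B := i.range
  have hG : Dense (G : Set B) := by
    have : (G : Set B) = range i := MonoidHom.coe_range i
    rw [this]; exact hd
  have hDM : DM G := by
    intro H hHG hHd N hNc hN hbot
    let D : Subgroup A := H.comap i
    have himg : i '' (D : Set A) = (H : Set B) := by
      ext b
      constructor
      · rintro ⟨a, ha, rfl⟩
        exact ha
      · intro hb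
        obtain ⟨a, rfl⟩ := hHG hb
        exact ⟨a, hb, rfl⟩
    have hDd : Dense (D : Set A) := by
      intro a
      rw [hi.closure_eq_preimage_closure_image, himg]
      exact hHd (i a)
    let f : D →* B := i.comp D.subtype
    have hf : IsEmbedding f := hi.comp IsEmbedding.subtypeVal
    have hfr : range f = (H : Set B) := by
      rw [← himg]
      ext b
      constructor
      · rintro ⟨a, rfl⟩
        exact ⟨a, a.2, rfl⟩
      · rintro ⟨a, ha, rfl⟩
        exact ⟨⟨a, ha⟩, rfl⟩
    have hfd : DenseRange f := by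
      show Dense (range f)
      rw [hfr]; exact hHd
    refine hN (essential f hf hfd (h D hDd) N hNc ?_)
    intro a ha
    have h1 : f a ∈ H ⊓ N := ⟨a.2, ha⟩
    rw [hbot, Subgroup.mem_bot] at h1
    exact hf.injective (by rw [h1, map_one])
  have hX : TorX B := hNT B G hG hDM
  let j : S →* B := i.comp S.subtype
  have hj : IsEmbedding j := hi.comp IsEmbedding.subtypeVal
  have hjr : range j = ((S.map i : Subgroup B) : Set B) := by
    ext b
    constructor
    · rintro ⟨a, rfl⟩
      exact ⟨a, a.2, rfl⟩
    · rintro ⟨a, ha, rfl⟩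
      exact ⟨⟨a, ha⟩, rfl⟩
  refine core j hj (MonoidHom.id S) Function.surjective_id continuous_id IsOpenMap.id ?_
  intro N hNc hNr hNk
  by_cases hN : N = ⊥
  · subst hN
    intro b hb
    have hb1 : b = 1 := hb
    rw [hb1]
    exact subset_closure ⟨1, rfl, map_one j⟩
  · exfalso
    rw [hjr] at hNr
    refine hTor B G hG hDM hX (S.map i) N ?_ hNc hNr hN ?_
    · rintro _ ⟨a, _, rfl⟩
      exact ⟨a, rfl⟩
    · rw [eq_bot_iff]
      rintro _ ⟨⟨a, ha, rfl⟩, haN⟩
      have h1 : (⟨a, ha⟩ : S) ∈ N.comap j := haN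
      rw [hNk] at h1
      have h2 : (⟨a, ha⟩ : S) = 1 := h1
      have h3 : a = 1 := congrArg Subtype.val h2
      rw [h3, map_one]
      exact Subgroup.one_mem _

end Pool.Agent.N515.DMin
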