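import Pool.Agent.N515.DMin.Stm

set_option autoImplicit false

/-! MP_00f11d_al (helper515): a dense cyclic subgroup (helper438). -/

open Topology Set

namespace Pool.Agent.N515.DMin

lemma gg_cop {z : Circle} {l j : ℤ} (h : IsCoprime l j) (h1 : z ^ l = 1) (h2 : z ^ j = 1) : z = 1 := by
  obtain ⟨a, b, hab⟩ := h
  have h3 : z ^ (a * l + b * j) = 1 := by
    rw [zpow_add, mul_comm a, mul_comm b, zpow_mul, zpow_mul, h1, h2, one_zpow, one_zpow, one_mul]
  rwa [hab, zpow_one] at h3

section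

variable {K : Type} [CommGroup K] [TopologicalSpace K]

/-- the powers of a character -/
noncomputable def gg_pow (ψ : K →ₜ* Circle) (m : ℕ) : K →ₜ* Circle where
  toMonoidHom := (powMonoidHom m).comp (ψ : K →* Circle)
  continuous_toFun := (map_continuous ψ).pow m

lemma gg_pow_apply (ψ : K →ₜ* Circle) (m : ℕ) (k : K) : gg_pow ψ m k = ψ k ^ m := rfl

lemma gg_ker_closed (χ : K →ₜ* Circle) (n : ℕ) :
    IsClosed {y : K | χ y ^ n = 1} :=
  isClosed_eq ((map_continuous χ).pow n) continuous_const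

lemma gg_pad [IsTopologicalGroup K] {p : ℕ} {x c : K} (hx : Pad p x) (hc : c ∈ cl x) : Pad p c := by
  intro χ
  obtain ⟨n, hn⟩ := hx χ
  refine ⟨n, ?_⟩
  have h1 : (Subgroup.zpowers x : Set K) ⊆ {y : K | χ y ^ (p ^ n) = 1} := by
    rintro y ⟨k, rfl⟩
    have : χ (x ^ k) ^ (p ^ n) = 1 := by
      rw [map_zpow, ← zpow_natCast, ← zpow_mul, mul_comm, zpow_mul, zpow_natCast, hn, one_zpow]
    exact this
  exact closure_minimal h1 (gg_ker_closed χ _) hc

lemma gg_self [IsTopologicalGroup K] (x : K) : x ∈ cl x := subset_closure (Subgroup.mem_zpowers x)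

lemma gg_dense {G : Subgroup K} (hG : Dense (G : Set K)) (χ : K →ₜ* Circle) (h : ∃ k, χ k ≠ 1) :
    ∃ g ∈ G, χ g ≠ 1 := by
  by_contra hcon
  push Not at hcon
  obtain ⟨k, hk⟩ := h
  apply hk
  have h1 : (G : Set K) ⊆ {y : K | χ y ^ 1 = 1} := by
    intro g hg
    have : χ g ^ 1 = 1 := by rw [hcon g hg, one_pow]
    exact this
  have h2 := closure_minimal h1 (gg_ker_closed χ 1) (hG k)
  have h3 : χ k ^ 1 = 1 := h2
  rwa [pow_one] at h3

end

theorem t_G (hT1 : St_T1) (hT2 : St_T2) (_hT3 : St_T3) (hE7 : St_E7) (hU : St_U) (hU2 : St_U2)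
    (hI : St_I) : St_G := by
  intro K _ _ _ _ _ htf htor G hG hmeet hrank
  classical
  have hcount : Countable G := by
    have h1 : Countable (Additive G) := by
      refine hE7 (Additive G) ?_ hrank
      intro n b hn hb
      have h2 : (Additive.toMul b) ^ n = 1 := by
        have h3 := congrArg Additive.toMul hb
        simpa using h3
      have h4 : ((Additive.toMul b : G) : K) ^ n = 1 := by
        have h3 := congrArg (fun g : G => (g : K)) h2
        simpa using h3
      have h5 : ((Additive.toMul b : G) : K) ^ n.natAbs = 1 := by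
        rcases Int.natAbs_eq n with h | h
        · rw [h, zpow_natCast] at h4
          exact h4
        · rw [h, zpow_neg, zpow_natCast, inv_eq_one] at h4
          exact h4
      have h6 := htf n.natAbs _ (Int.natAbs_pos.2 hn) h5
      have h7 : Additive.toMul b = 1 := Subtype.ext h6
      exact Additive.toMul.injective h7
    exact Countable.of_equiv _ (Additive.toMul : Additive G ≃ G)
  have hUp : ∀ p : ℕ, p.Prime → ∀ x y : K, Pad p x → Pad p y → x ≠ 1 → y ≠ 1 → cl x ⊓ cl y ≠ ⊥ :=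
    fun p hp => hU K htf G hcount hmeet p hp
  have hU2p := fun (p : ℕ) (hp : p.Prime) => hU2 K htf p hp (hUp p hp)
  -- the primes
  let P : Set ℕ := {p | p.Prime ∧ ∃ χ : K →ₜ* Circle, (∀ k, χ k ^ p = 1) ∧ ∃ k, χ k ≠ 1}
  have hPfin : P.Finite := by
    by_contra hinf
    have key : ∀ p : ℕ, ∃ c : K, p ∈ P → Pad p c ∧ c ∈ G ∧ ∀ n : ℕ, 0 < n → c ^ n ≠ 1 := by
      intro p
      by_cases hp : p ∈ P
      · obtain ⟨hpp, χ, hχ, k, hk⟩ := hp
        obtain ⟨x, -, hx1, hx2⟩ := hT2 K ⊤ (by simp) χ p hpp k (by simp) hk (hχ k)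
        have hx3 : x ≠ 1 := by
          rintro rfl
          rw [map_one] at hx2
          exact hk hx2.symm
        have h1 : cl x ≠ ⊥ := by
          intro h
          have h2 : x ∈ cl x := gg_self x
          rw [h, Subgroup.mem_bot] at h2
          exact hx3 h2
        obtain ⟨c, hc1⟩ := Subgroup.ne_bot_iff_exists_ne_one.1
          (hmeet (cl x) (Subgroup.isClosed_topologicalClosure _) h1)
        refine ⟨c, fun _ => ⟨gg_pad hx1 c.2.2, c.2.1, fun n hn h => hc1 ?_⟩⟩
        exact Subtype.ext (htf n _ hn h)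
      · exact ⟨1, fun h => absurd h hp⟩
    choose c hc using key
    have h1 := hI K G P hinf (fun p hp => hp.1) c hc
    exact absurd hrank (not_lt.2 h1)
  -- characters of order `p`
  have hχ : ∀ p : ℕ, ∃ χ : K →ₜ* Circle, p ∈ P → (∀ k, χ k ^ p = 1) ∧ ∃ k, χ k ≠ 1 := by
    intro p
    by_cases hp : p ∈ P
    · obtain ⟨-, χ, h⟩ := hp
      exact ⟨χ, fun _ => h⟩
    · exact ⟨1, fun h => absurd h hp⟩
  choose χ hχ using hχ
  have hF : ∀ F : Finset ℕ, (∀ p ∈ F, p ∈ P) → ∃ g ∈ G, ∀ p ∈ F, χ p g ≠ 1 := by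
    intro F
    induction F using Finset.induction_on with
    | empty => exact fun _ => ⟨1, one_mem G, by simp⟩
    | insert l F hl ih =>
      intro hP
      obtain ⟨g, hg, hgF⟩ := ih fun p hp => hP p (Finset.mem_insert_of_mem hp)
      have hlP := hP l (Finset.mem_insert_self l F)
      by_cases h1 : χ l g = 1
      · obtain ⟨h, hh, hh1⟩ := gg_dense hG (χ l) (hχ l hlP).2
        refine ⟨g * h ^ (∏ p ∈ F, p), mul_mem hg (pow_mem hh _), ?_⟩
        intro p hp
        rw [Finset.mem_insert] at hp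
        rw [map_mul, map_pow]
        rcases hp with rfl | hp
        · rw [h1, one_mul]
          intro h2
          apply hh1
          refine gg_cop (l := ((∏ q ∈ F, q : ℕ) : ℤ)) (j := (p : ℤ)) ?_ (by rw [zpow_natCast]; exact h2)
            (by rw [zpow_natCast]; exact (hχ p hlP).1 h)
          rw [Nat.isCoprime_iff_coprime]
          apply Nat.Coprime.prod_left
          intro q hq
          have hqP := hP q (Finset.mem_insert_of_mem hq)
          rw [Nat.coprime_primes hqP.1 hlP.1]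
          rintro rfl
          exact hl hq
        · obtain ⟨r, hr⟩ := Finset.dvd_prod_of_mem (fun q : ℕ => q) hp
          have h3 : ∏ q ∈ F, q = p * r := hr
          rw [h3, pow_mul, (hχ p (hP p (Finset.mem_insert_of_mem hp))).1 h, one_pow, mul_one]
          exact hgF p hp
      · refine ⟨g, hg, ?_⟩
        intro p hp
        rw [Finset.mem_insert] at hp
        rcases hp with rfl | hp
        · exact h1
        · exact hgF p hp
  obtain ⟨g, hg, hgF⟩ := hF hPfin.toFinset fun p hp => by simpa using hp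
  refine ⟨g, hg, ?_⟩
  by_contra hnd
  have h1 : ∃ k, k ∉ cl g := by
    by_contra hall
    push Not at hall
    exact hnd fun k => hall k
  obtain ⟨k, hk⟩ := h1
  obtain ⟨ψ, hψ1, hψ2⟩ := hT1 K (cl g) (Subgroup.isClosed_topologicalClosure _) k hk
  have hψg : ψ g = 1 := hψ1 g (gg_self g)
  have hex : ∃ n : ℕ, 0 < n ∧ ∀ k, ψ k ^ n = 1 := htor ψ
  have hn := Nat.find_spec hex
  set n := Nat.find hex with hn0
  have hn1 : n ≠ 1 := by
    intro h
    rw [h] at hn
    exact hψ2 (by simpa using hn.2 k)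
  have hl : n.minFac.Prime := Nat.minFac_prime hn1
  obtain ⟨m, hm⟩ := Nat.minFac_dvd n
  set l := n.minFac with hl0
  have hm0 : 0 < m := by
    rcases Nat.eq_zero_or_pos m with h | h
    · rw [h, mul_zero] at hm
      omega
    · exact h
  have hmn : m < n := by
    have := hl.two_le
    nlinarith
  have hθ1 : ∀ k, gg_pow ψ m k ^ l = 1 := by
    intro k
    rw [gg_pow_apply, ← pow_mul, mul_comm, ← hm]
    exact hn.2 k
  have hθ2 : ∃ k, gg_pow ψ m k ≠ 1 := by
    by_contra hall
    push Not at hall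
    exact Nat.find_min hex hmn ⟨hm0, hall⟩
  have hlP : l ∈ P := ⟨hl, gg_pow ψ m, hθ1, hθ2⟩
  obtain ⟨j, hj⟩ := hU2p l hl (χ l) (gg_pow ψ m) (hχ l hlP).1 (hχ l hlP).2 hθ1
  have hcop : IsCoprime (l : ℤ) j := by
    rw [Prime.coprime_iff_not_dvd (Nat.prime_iff_prime_int.1 hl)]
    rintro ⟨r, hr⟩
    obtain ⟨k, hk⟩ := hθ2
    apply hk
    rw [hj k, hr, zpow_mul, zpow_natCast, (hχ l hlP).1 k, one_zpow]
  have h2 : χ l g ^ j = 1 := by
    rw [← hj g, gg_pow_apply, hψg, one_pow]
  have h3 : χ l g ^ (l : ℤ) = 1 := by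
    rw [zpow_natCast]
    exact (hχ l hlP).1 g
  exact hgF l (by simpa using hlP) (gg_cop hcop h3 h2)

end Pool.Agent.N515.DMin
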