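import Pool.Agent.N515.DMin.Stm

set_option autoImplicit false

/-! MP_00f11d_al: `p`-adic elements for infinitely many primes `p` are independent. -/

open Topology Set

namespace Pool.Agent.N515.DMin

theorem i_zero {K : Type} [CommGroup K] [TopologicalSpace K] [IsTopologicalGroup K]
    [CompactSpace K] [T2Space K] (hT1 : St_T1) (P : Set ℕ) (hP : ∀ p ∈ P, p.Prime)
    (c : ℕ → K) (hc : ∀ p ∈ P, Pad p (c p)) (s : Finset P) (g : P → ℤ)
    (h : ∏ i ∈ s, c i ^ g i = 1) (i : P) (hi : i ∈ s) : c i ^ g i = 1 := by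
  classical
  by_contra hz
  obtain ⟨χ, -, hχ⟩ := hT1 K ⊥ (by
    rw [Subgroup.coe_bot]
    exact isClosed_singleton) (c i ^ g i) (by rwa [Subgroup.mem_bot])
  apply hχ
  obtain ⟨n, hn⟩ := hc i i.2 χ
  choose m hm using fun j : P => hc j j.2 χ
  set N : ℕ := ∏ j ∈ s.erase i, (j : ℕ) ^ m j with hN
  have h1 : χ (c i ^ g i) ^ ((i : ℕ) ^ n) = 1 := by
    rw [map_zpow, ← zpow_natCast, ← zpow_mul, mul_comm, zpow_mul, zpow_natCast, hn, one_zpow]
  have h2 : χ (c i ^ g i) * χ (∏ j ∈ s.erase i, c j ^ g j) = 1 := by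
    rw [← map_mul, Finset.mul_prod_erase s (fun j : P => c j ^ g j) hi, h, map_one]
  have h3 : χ (∏ j ∈ s.erase i, c j ^ g j) ^ N = 1 := by
    rw [map_prod, ← Finset.prod_pow]
    refine Finset.prod_eq_one fun j hj => ?_
    obtain ⟨k, hk⟩ : (j : ℕ) ^ m j ∣ N := Finset.dvd_prod_of_mem _ hj
    rw [map_zpow, ← zpow_natCast, ← zpow_mul, mul_comm, zpow_mul, zpow_natCast, hk, pow_mul, hm,
      one_pow, one_zpow]
  have h4 : χ (c i ^ g i) ^ N = 1 := by
    have : (χ (c i ^ g i) * χ (∏ j ∈ s.erase i, c j ^ g j)) ^ N = 1 := by rw [h2, one_pow]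
    rwa [mul_pow, h3, mul_one] at this
  have h5 : Nat.Coprime ((i : ℕ) ^ n) N := by
    rw [hN]
    refine Nat.Coprime.pow_left _ (Nat.Coprime.prod_right fun j hj => Nat.Coprime.pow_right _ ?_)
    rw [Nat.coprime_primes (hP i i.2) (hP j j.2)]
    intro e
    exact (Finset.ne_of_mem_erase hj) (Subtype.ext e.symm)
  have h6 : orderOf (χ (c i ^ g i)) ∣ 1 := by
    rw [← h5.gcd_eq_one]
    exact Nat.dvd_gcd (orderOf_dvd_of_pow_eq_one h1) (orderOf_dvd_of_pow_eq_one h4)
  rw [← orderOf_eq_one_iff]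
  exact Nat.dvd_one.1 h6

theorem t_I (hT1 : St_T1) : St_I := by
  intro K _ _ _ _ _ M P hPi hP c hc
  classical
  haveI : Infinite P := hPi.to_subtype
  have key : LinearIndependent ℤ (fun p : P => (Additive.ofMul (⟨c p, (hc p p.2).2.1⟩ : M))) := by
    rw [linearIndependent_iff']
    intro s g h i hi
    have h1 : ∏ j ∈ s, c j ^ g j = 1 := by
      have e := congrArg (fun a : Additive M => ((Additive.toMul a : M) : K)) h
      simp only [toMul_sum, toMul_zsmul, toMul_ofMul, toMul_zero, Subgroup.val_finsetProd,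
        SubgroupClass.coe_zpow, OneMemClass.coe_one] at e
      exact e
    have h2 := i_zero hT1 P hP c (fun p hp => (hc p hp).1) s g h1 i hi
    by_contra h0
    refine (hc i i.2).2.2 (g i).natAbs (Int.natAbs_pos.2 h0) ?_
    rcases Int.natAbs_eq (g i) with e | e
    · rw [← zpow_natCast, ← e]
      exact h2
    · rw [e, zpow_neg, inv_eq_one, zpow_natCast] at h2
      exact h2
  exact (Cardinal.aleph0_le_mk P).trans key.cardinal_le_rank

end Pool.Agent.N515.DMin
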