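import Pool.Agent.N515.DMin.Stm

/-!
# Lemma 1: all homomorphisms into the `p`-power roots of unity are continuous
-/

set_option autoImplicit false

open Topology Set

namespace Pool.Agent.N515.DMin

/-- a subgroup which is not dense is killed by a character which is nontrivial on `G` -/
theorem l1_sep (hT1 : St_T1) {K : Type} [CommGroup K] [TopologicalSpace K] [IsTopologicalGroup K]
    [CompactSpace K] [T2Space K] (G : Subgroup K) (hG : Dense (G : Set K)) (H : Subgroup K)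
    (hH : ¬ Dense (H : Set K)) :
    ∃ χ : K →ₜ* Circle, (∀ h ∈ H, χ h = 1) ∧ ∃ g : G, χ g ≠ 1 := by
  obtain ⟨k, hk⟩ : ∃ k, k ∉ closure (H : Set K) := by
    by_contra hno
    push Not at hno
    exact hH hno
  obtain ⟨χ, h1, h2⟩ := hT1 K H.topologicalClosure H.isClosed_topologicalClosure k hk
  refine ⟨χ, fun h hh => h1 h (H.le_topologicalClosure hh), ?_⟩
  by_contra hno
  push Not at hno
  apply h2
  have hcl : IsClosed {x : K | χ x = 1} := isClosed_eq χ.continuous_toFun continuous_const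
  have hsub : (G : Set K) ⊆ {x : K | χ x = 1} := fun x hx => hno ⟨x, hx⟩
  have h3 := closure_minimal hsub hcl
  rw [hG.closure_eq] at h3
  exact h3 (mem_univ k)

/-- an element of order `p` is in every dense subgroup of `G` -/
theorem l1_mem {K : Type} [CommGroup K] [TopologicalSpace K] [T2Space K] (G : Subgroup K)
    (hDM : DM G) {p : ℕ} (hp : p.Prime) (g : K) (hg1 : g ≠ 1) (hgp : g ^ p = 1) (H : Subgroup K)
    (hH : H ≤ G) (hd : Dense (H : Set K)) : g ∈ H := by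
  have hfin : ((Subgroup.zpowers g : Subgroup K) : Set K).Finite :=
    finite_zpowers.2 (isOfFinOrder_iff_pow_eq_one.2 ⟨p, hp.pos, hgp⟩)
  have h1 := hDM H hH hd (Subgroup.zpowers g) hfin.isClosed (by
    rw [Subgroup.zpowers_ne_bot]
    exact hg1)
  obtain ⟨y, hy, hy1⟩ : ∃ y ∈ H ⊓ Subgroup.zpowers g, y ≠ 1 := by
    by_contra hno
    push Not at hno
    exact h1 ((Subgroup.eq_bot_iff_forall _).2 hno)
  obtain ⟨hyH, i, hi⟩ := hy
  simp only at hi
  have hco : IsCoprime (p : ℤ) i := by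
    rw [(Nat.prime_iff_prime_int.1 hp).irreducible.coprime_iff_not_dvd]
    rintro ⟨j, rfl⟩
    apply hy1
    rw [← hi, zpow_mul, zpow_natCast, hgp, one_zpow]
  obtain ⟨a, b, hab⟩ := hco
  have h2 : g = y ^ b := by
    rw [← hi, ← zpow_mul, mul_comm i b]
    calc g = g ^ (a * p + b * i) := by rw [hab, zpow_one]
      _ = g ^ (b * i) := by
        rw [zpow_add, mul_comm a, zpow_mul, zpow_natCast, hgp, one_zpow, one_mul]
  rw [h2]
  exact H.zpow_mem hyH b

/-- elements of all orders in the image -/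
theorem l1_ord {B : Type} [CommGroup B] {p : ℕ} (hp : p.Prime) (β : B →* Circle) (hβ : PV p β)
    (hinf : ∀ m : ℕ, ∃ u : B, β u ^ (p ^ m) ≠ 1) (k : ℕ) : ∃ u : B, orderOf (β u) = p ^ k := by
  obtain ⟨u, hu⟩ := hinf k
  obtain ⟨n, hn⟩ := hβ u
  obtain ⟨j, -, hj⟩ := (Nat.dvd_prime_pow hp).1 (orderOf_dvd_of_pow_eq_one hn)
  have hkj : k ≤ j := by
    by_contra hlt
    apply hu
    rw [← orderOf_dvd_iff_pow_eq_one, hj]
    exact pow_dvd_pow p (by omega)
  refine ⟨u ^ (p ^ (j - k)), ?_⟩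
  rw [map_pow, orderOf_pow_of_dvd (pow_ne_zero _ hp.ne_zero) (by
    rw [hj]; exact pow_dvd_pow p (by omega)), hj]
  exact Nat.div_eq_of_eq_mul_right (pow_pos hp.pos _) (by rw [← pow_add]; congr 1; omega)

/-- the image consists of all roots of unity of `p`-power order -/
theorem l1_surj {B : Type} [CommGroup B] {p : ℕ} (hp : p.Prime) (β : B →* Circle) (hβ : PV p β)
    (hinf : ∀ m : ℕ, ∃ u : B, β u ^ (p ^ m) ≠ 1) (k : ℕ) (w : Circle) (hw : w ^ (p ^ k) = 1) :
    ∃ u : B, β u = w := by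
  obtain ⟨u, hu⟩ := l1_ord hp β hβ hinf k
  have hne : NeZero (p ^ k) := ⟨pow_ne_zero _ hp.ne_zero⟩
  have h1 : IsPrimitiveRoot (β u) (p ^ k) := hu ▸ IsPrimitiveRoot.orderOf (β u)
  have h2 : IsPrimitiveRoot ((β u : Circle) : ℂ) (p ^ k) :=
    h1.map_of_injective (f := Circle.coeHom) Circle.coe_injective
  have h3 : ((w : Circle) : ℂ) ^ (p ^ k) = 1 := by
    rw [← Circle.coe_pow, hw, Circle.coe_one]
  obtain ⟨i, -, hi⟩ := h2.eq_pow_of_pow_eq_one h3
  refine ⟨u ^ i, ?_⟩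
  rw [map_pow]
  apply Circle.coe_injective
  rw [Circle.coe_pow]
  exact hi

/-- the circle is divisible -/
theorem l1_root (v : Circle) {n : ℕ} (hn : 0 < n) : ∃ w : Circle, w ^ n = v := by
  refine ⟨Circle.exp (Complex.arg v / n), ?_⟩
  apply Circle.coe_injective
  have h1 : ((n : ℕ) : ℂ) ≠ 0 := by exact_mod_cast hn.ne'
  rw [Circle.coe_pow, Circle.coe_exp, ← Complex.exp_nat_mul]
  have h2 : ((n : ℕ) : ℂ) * (((Complex.arg v / n : ℝ) : ℂ) * Complex.I) =
      ((Complex.arg v : ℝ) : ℂ) * Complex.I := by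
    push_cast
    field_simp
  rw [h2, ← Circle.coe_exp, Circle.exp_arg]

/-- the roots of unity of `p`-power order form a divisible group -/
theorem l1_div {p : ℕ} (hp : p.Prime) (v : Circle) (a : ℕ) (hv : v ^ (p ^ a) = 1) {n : ℕ}
    (hn : 0 < n) : ∃ w : Circle, w ^ n = v ∧ ∃ c : ℕ, w ^ (p ^ c) = 1 := by
  obtain ⟨w0, hw0⟩ := l1_root v hn
  obtain ⟨c, n', hn', hcn⟩ := Nat.exists_eq_pow_mul_and_not_dvd
    (Nat.mul_pos hn (pow_pos hp.pos a)).ne' p hp.ne_one
  have hco : IsCoprime (n' : ℤ) ((p ^ a : ℕ) : ℤ) := by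
    rw [Nat.isCoprime_iff_coprime]
    exact (Nat.Coprime.pow_left a ((Nat.Prime.coprime_iff_not_dvd hp).2 hn')).symm
  obtain ⟨s, t, hst⟩ := hco
  refine ⟨w0 ^ ((n' : ℤ) * s), ?_, c, ?_⟩
  · rw [← zpow_natCast, ← zpow_mul, mul_comm, zpow_mul, zpow_natCast, hw0]
    have h1 : (n' : ℤ) * s = 1 - ((p ^ a : ℕ) : ℤ) * t := by linarith
    rw [h1, zpow_sub, zpow_one, zpow_mul, zpow_natCast, hv, one_zpow, inv_one, mul_one]
  · rw [← zpow_natCast, ← zpow_mul]
    have h1 : (n' : ℤ) * s * ((p ^ c : ℕ) : ℤ) = (n : ℤ) * ((p ^ a : ℕ) : ℤ) * s := by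
      have h2 : ((n * p ^ a : ℕ) : ℤ) = ((p ^ c * n' : ℕ) : ℤ) := by rw [hcn]
      rw [Nat.cast_mul, Nat.cast_mul] at h2
      rw [h2]
      ring
    rw [h1, zpow_mul, zpow_mul, zpow_natCast, zpow_natCast, hw0, hv, one_zpow]

/-- homomorphisms of infinite order kill the elements of order `p` -/
theorem l1_inf (hT1 : St_T1) {K : Type} [CommGroup K] [TopologicalSpace K] [IsTopologicalGroup K]
    [CompactSpace K] [T2Space K] (G : Subgroup K) (hG : Dense (G : Set K)) (hDM : DM G)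
    (hX : TorX K) {p : ℕ} (hp : p.Prime) (g : G) (hg1 : (g : K) ≠ 1) (hgp : (g : K) ^ p = 1)
    (β : G →* Circle) (hβ : PV p β) (hinf : ∀ m : ℕ, ∃ u : G, β u ^ (p ^ m) ≠ 1) : β g = 1 := by
  have hle : β.ker.map G.subtype ≤ G := by
    rintro _ ⟨y, -, rfl⟩
    exact y.2
  by_cases hd : Dense ((β.ker.map G.subtype : Subgroup K) : Set K)
  · obtain ⟨y, hy, hyg⟩ := l1_mem G hDM hp g hg1 hgp _ hle hd
    have : y = g := Subtype.ext hyg
    rw [← this]
    exact hy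
  · exfalso
    obtain ⟨χ, h1, h, hh⟩ := l1_sep hT1 G hG _ hd
    obtain ⟨n, hn, hχ⟩ := hX χ
    obtain ⟨a, ha⟩ := hβ h
    obtain ⟨w, hw, c, hc⟩ := l1_div hp (β h) a ha hn
    obtain ⟨u, hu⟩ := l1_surj hp β hβ hinf c w hc
    apply hh
    have h2 : h * (u ^ n)⁻¹ ∈ β.ker := by
      rw [MonoidHom.mem_ker, map_mul, map_inv, map_pow, hu, hw, mul_inv_cancel]
    have h3 : χ ((h * (u ^ n)⁻¹ : G) : K) = 1 := h1 _ ⟨_, h2, rfl⟩
    rw [Subgroup.coe_mul, Subgroup.coe_inv, Subgroup.coe_pow, map_mul, map_inv, map_pow, hχ,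
      inv_one, mul_one] at h3
    exact h3

/-- Lemma 1 -/
theorem t_L1 (hT1 : St_T1) (hD : St_D) (hC : St_C) (hC4 : St_C4) (hE1 : St_E1) (hR : St_R) :
    St_L1 := by
  intro K _ _ _ _ _ G hG hDM hX p hp ⟨g0, hg1, hgp⟩ φ hφ
  have hg0G : g0 ∈ G := hC4 K G hG hDM p hp 1 g0 (by rw [pow_one]; exact hgp)
  let g : G := ⟨g0, hg0G⟩
  have hgp' : g ^ p = 1 := Subtype.ext (by rw [Subgroup.coe_pow]; exact hgp)
  -- (2)
  obtain ⟨β, hβ, hβg⟩ := hE1 G p hp g (by
    intro m hm hgm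
    apply hg1
    have h1 : g0 ^ m = 1 := by
      have := congrArg (Subtype.val : G → K) hgm
      rwa [Subgroup.coe_pow] at this
    have h2 : orderOf g0 ∣ 1 := by
      rw [← hm]
      exact Nat.dvd_gcd (orderOf_dvd_of_pow_eq_one h1) (orderOf_dvd_of_pow_eq_one hgp)
    exact orderOf_eq_one_iff.1 (Nat.dvd_one.1 h2))
  have hfinβ : ∃ m : ℕ, ∀ u : G, β u ^ (p ^ m) = 1 := by
    by_contra hno
    push Not at hno
    exact hβg (l1_inf hT1 G hG hDM hX hp g hg1 hgp β hβ hno)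
  obtain ⟨m, hm⟩ := hfinβ
  -- (3)
  have h3 : ∀ α : G →* Circle, (∀ u, α u ^ p = 1) → ∃ ψ : K →ₜ* Circle, ∀ u : G, ψ u = α u := by
    intro α hα
    by_contra hno
    obtain ⟨φ', hφ1, hφ2⟩ := hC K G hG hDM p hp α hα hno m
    have hθm : ∀ u, (φ' * β) u ^ (p ^ m) = α u := by
      intro u
      rw [MonoidHom.mul_apply, mul_pow, hφ1, hm, mul_one]
    have hle : (φ' * β).ker.map G.subtype ≤ G := by
      rintro _ ⟨y, -, rfl⟩
      exact y.2
    by_cases hd : Dense (((φ' * β).ker.map G.subtype : Subgroup K) : Set K)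
    · obtain ⟨y, hy, hyg⟩ := l1_mem G hDM hp g0 hg1 hgp _ hle hd
      have h4 : y = g := Subtype.ext hyg
      rw [h4] at hy
      have h5 : (φ' * β) g = 1 := hy
      rw [MonoidHom.mul_apply, hφ2 g hgp', one_mul] at h5
      exact hβg h5
    · obtain ⟨χ, h4, h, hh⟩ := l1_sep hT1 G hG _ hd
      obtain ⟨ψ, hψ⟩ := hD K G p hp m (φ' * β) χ (fun u => by
        rw [pow_succ, pow_mul, hθm, hα]) (fun u hu => h4 _ ⟨u, hu, rfl⟩) ⟨h, hh⟩
      exact hno ⟨ψ, fun u => (hψ u).trans (hθm u)⟩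
  -- (4)
  have h4 : ∃ n : ℕ, ∀ u : G, φ u ^ (p ^ n) = 1 := by
    by_contra hno
    push Not at hno
    have h5 := l1_inf hT1 G hG hDM hX hp g hg1 hgp φ hφ hno
    have h6 : PV p (φ * β) := by
      intro u
      obtain ⟨n, hn⟩ := hφ u
      refine ⟨n + m, ?_⟩
      rw [MonoidHom.mul_apply, mul_pow, pow_add, pow_mul, hn, one_pow, one_mul, mul_comm (p ^ n),
        pow_mul, hm, one_pow]
    have h7 : ∀ n : ℕ, ∃ u : G, (φ * β) u ^ (p ^ n) ≠ 1 := by
      intro n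
      by_contra hno'
      push Not at hno'
      obtain ⟨u, hu⟩ := hno (n + m)
      apply hu
      have h8 : (φ * β) u ^ (p ^ (n + m)) = 1 := by
        rw [pow_add, pow_mul, hno' u, one_pow]
      rw [MonoidHom.mul_apply, mul_pow] at h8
      have h9 : β u ^ (p ^ (n + m)) = 1 := by
        rw [pow_add, mul_comm (p ^ n), pow_mul, hm, one_pow]
      rwa [h9, mul_one] at h8
    have h8 := l1_inf hT1 G hG hDM hX hp g hg1 hgp (φ * β) h6 h7
    rw [MonoidHom.mul_apply, h5, one_mul] at h8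
    exact hβg h8
  -- (5)
  have h5 : ∀ (n : ℕ) (φ : G →* Circle), (∀ u : G, φ u ^ (p ^ n) = 1) →
      ∃ ψ : K →ₜ* Circle, ∀ u : G, ψ u = φ u := by
    intro n
    induction n with
    | zero =>
      intro φ h
      refine ⟨1, fun u => ?_⟩
      have := h u
      rw [pow_zero, pow_one] at this
      rw [this]
      rfl
    | succ n ih =>
      intro φ h
      obtain ⟨χ, hχ⟩ := ih (φ ^ p) (fun u => by
        rw [MonoidHom.pow_apply, ← pow_mul, ← pow_succ']
        exact h u)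
      obtain ⟨ψ, hψ⟩ := hR K hX p hp χ (by
        intro z hz
        have hzG : z ∈ G := hC4 K G hG hDM p hp 1 z (by rw [pow_one]; exact hz)
        have h6 := hχ ⟨z, hzG⟩
        rw [MonoidHom.pow_apply, ← map_pow] at h6
        have h7 : (⟨z, hzG⟩ : G) ^ p = 1 := Subtype.ext (by rw [Subgroup.coe_pow]; exact hz)
        rw [h7, map_one] at h6
        exact h6)
      let ψG : G →* Circle := (ψ : K →* Circle).comp G.subtype
      have hψG : ∀ u : G, ψG u = ψ u := fun _ => rfl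
      obtain ⟨θ, hθ⟩ := h3 (φ * ψG⁻¹) (fun u => by
        rw [MonoidHom.mul_apply, MonoidHom.inv_apply, mul_pow, inv_pow, hψG, hψ, hχ,
          MonoidHom.pow_apply, mul_inv_cancel])
      refine ⟨θ * ψ, fun u => ?_⟩
      have h8 : (θ * ψ : K →ₜ* Circle) (u : K) = θ u * ψ u := rfl
      rw [h8, hθ, MonoidHom.mul_apply, MonoidHom.inv_apply, hψG, inv_mul_cancel_right]
  obtain ⟨n, hn⟩ := h4
  exact h5 n φ hn

end Pool.Agent.N515.DMin
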