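import Pool.Agent.N515.DMin.Stm

set_option autoImplicit false

/-! MP_00f11d_al (project DM of helper515), part M (helper619): minimal closed subgroups whose image
under a character is the circle. -/

open Topology Set

namespace Pool.Agent.N515.DMin

/-- a closed infinite subgroup of the circle is the circle -/
theorem mM_fact (A : Subgroup Circle) (hA : IsClosed (A : Set Circle)) :
    (∀ t : Circle, t ∈ A) ∨ ∃ n : ℕ, 0 < n ∧ ∀ a ∈ A, a ^ n = 1 := by
  let B : AddSubgroup ℝ :=
    { carrier := {t | Circle.exp t ∈ A}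
      zero_mem' := by
        change Circle.exp 0 ∈ A
        rw [Circle.exp_zero]; exact A.one_mem
      add_mem' := by
        intro a b ha hb
        change Circle.exp (a + b) ∈ A
        rw [Circle.exp_add]; exact A.mul_mem ha hb
      neg_mem' := by
        intro a ha
        change Circle.exp (-a) ∈ A
        rw [Circle.exp_neg]; exact A.inv_mem ha }
  have hBmem : ∀ t : ℝ, t ∈ B ↔ Circle.exp t ∈ A := fun t => Iff.rfl
  have hBc : IsClosed (B : Set ℝ) := hA.preimage Circle.exp.continuous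
  have hsurj : ∀ t : Circle, ∃ s : ℝ, Circle.exp s = t := fun t => ⟨Complex.arg t, Circle.exp_arg t⟩
  rcases AddSubgroup.dense_or_cyclic B with h | ⟨a, ha⟩
  · left
    intro t
    obtain ⟨s, rfl⟩ := hsurj t
    have h1 : (B : Set ℝ) = Set.univ := by
      rw [← hBc.closure_eq]; exact h.closure_eq
    have : s ∈ (B : Set ℝ) := by rw [h1]; trivial
    exact this
  · right
    have h2 : (2 * Real.pi) ∈ B := by
      rw [hBmem, Circle.exp_two_pi]; exact A.one_mem
    rw [ha, AddSubgroup.mem_closure_singleton] at h2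
    obtain ⟨k, hk⟩ := h2
    have hk0 : k ≠ 0 := by
      rintro rfl
      rw [zero_smul] at hk
      have := Real.two_pi_pos
      linarith
    refine ⟨k.natAbs, Int.natAbs_pos.mpr hk0, ?_⟩
    intro x hx
    obtain ⟨s, rfl⟩ := hsurj x
    have hs : s ∈ B := hx
    rw [ha, AddSubgroup.mem_closure_singleton] at hs
    obtain ⟨j, rfl⟩ := hs
    have hexp : Circle.exp (k • (j • a)) = 1 := by
      have : k • (j • a) = j • (k • a) := by
        rw [smul_smul, smul_smul, mul_comm]
      rw [this, hk]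
      rw [zsmul_eq_mul, mul_comm]
      have := Circle.exp_int_mul_two_pi j
      rw [mul_comm]
      exact this
    have hz : (Circle.exp (j • a)) ^ k = 1 := by
      have : (Circle.exp (j • a)) ^ k = Circle.exp (k • (j • a)) := by
        have h := map_zsmul (Circle.expHom) k (j • a)
        have h' : Circle.exp (k • (j • a)) = (Circle.exp (j • a)) ^ k := by
          apply Additive.ofMul.injective
          exact h
        exact h'.symm
      rw [this, hexp]
    rcases Int.natAbs_eq k with h | h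
    · rw [h, zpow_natCast] at hz
      exact hz
    · rw [h, zpow_neg, zpow_natCast, inv_eq_one] at hz
      exact hz

/-- n-th roots in the circle -/
theorem mM_root (n : ℕ) (hn : 0 < n) (t : Circle) : ∃ s : Circle, s ^ n = t := by
  refine ⟨Circle.exp (Complex.arg t / n), ?_⟩
  have h : (Circle.exp (Complex.arg t / n)) ^ n = Circle.exp (n • (Complex.arg t / n)) := by
    have h := map_nsmul (Circle.expHom) n (Complex.arg t / n)
    exact (Additive.ofMul.injective h).symm
  rw [h, nsmul_eq_mul, mul_div_cancel₀]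
  · exact Circle.exp_arg t
  · exact_mod_cast hn.ne'

/-- the circle has no exponent -/
theorem mM_noexp (n : ℕ) (hn : 0 < n) : ∃ t : Circle, t ^ n ≠ 1 := by
  obtain ⟨s, hs⟩ := mM_root n hn (-1)
  refine ⟨s, ?_⟩
  rw [hs]
  intro h
  have : ((-1 : Circle) : ℂ) = ((1 : Circle) : ℂ) := by rw [h]
  norm_num at this

section

variable {K : Type} [CommGroup K] [TopologicalSpace K] [IsTopologicalGroup K]
  [CompactSpace K] [T2Space K]

/-- the image of a closed subgroup is closed -/
theorem mM_closed (L : Subgroup K) (hL : IsClosed (L : Set K)) (χ : K →ₜ* Circle) :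
    IsClosed ((L.map (χ : K →* Circle) : Subgroup Circle) : Set Circle) := by
  have h : ((L.map (χ : K →* Circle) : Subgroup Circle) : Set Circle) = (fun k => χ k) '' (L : Set K) :=
    rfl
  rw [h]
  exact (hL.isCompact.image χ.continuous_toFun).isClosed

/-- the image of a closed subgroup: everything, or of finite exponent -/
theorem mM_dich (L : Subgroup K) (hL : IsClosed (L : Set K)) (χ : K →ₜ* Circle) :
    (∀ t : Circle, ∃ l ∈ L, χ l = t) ∨ ∃ n : ℕ, 0 < n ∧ ∀ l ∈ L, χ l ^ n = 1 := by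
  rcases mM_fact _ (mM_closed L hL χ) with h | ⟨n, hn, h⟩
  · left
    intro t
    obtain ⟨l, hl, h'⟩ := h t
    exact ⟨l, hl, h'⟩
  · right
    exact ⟨n, hn, fun l hl => h _ ⟨l, hl, rfl⟩⟩

/-- a subgroup of the circle of finite exponent is finite -/
theorem mM_fin (n : ℕ) (hn : 0 < n) : {t : Circle | t ^ n = 1}.Finite := by
  have h : ({z : ℂ | z ^ n = 1}).Finite := by
    have := (Polynomial.nthRoots n (1 : ℂ)).toFinset.finite_toSet
    refine this.subset ?_
    intro z hz
    simp only [Finset.mem_coe, Multiset.mem_toFinset]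
    rw [Polynomial.mem_nthRoots hn]
    exact hz
  refine Set.Finite.of_finite_image (f := fun t : Circle => (t : ℂ)) (h.subset ?_) ?_
  · rintro _ ⟨t, ht, rfl⟩
    have ht' : t ^ n = 1 := ht
    change ((t : ℂ)) ^ n = 1
    rw [← Circle.coe_pow, ht', Circle.coe_one]
  · intro a _ b _ hab
    exact Subtype.ext hab

/-- the kernel of a character is closed -/
theorem mM_ker (L : Subgroup K) (hL : IsClosed (L : Set K)) (χ : K →ₜ* Circle) :
    IsClosed ((L ⊓ (χ : K →* Circle).ker : Subgroup K) : Set K) := by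
  have h : ((L ⊓ (χ : K →* Circle).ker : Subgroup K) : Set K) = (L : Set K) ∩ (fun k => χ k) ⁻¹' {1} :=
    rfl
  rw [h]
  exact hL.inter (isClosed_singleton.preimage χ.continuous_toFun)

/-- step (3) -/
theorem mM_step (L : Subgroup K) (hL : IsClosed (L : Set K)) (ψ : K →ₜ* Circle)
    (hmin : ∀ L' : Subgroup K, L' ≤ L → IsClosed (L' : Set K) → (∀ t : Circle, ∃ l ∈ L', ψ l = t) →
      L' = L) (hψ : ∀ t : Circle, ∃ l ∈ L, ψ l = t) : LP (L ⊓ (ψ : K →* Circle).ker) := by
  intro χ
  rcases mM_dich _ (mM_ker L hL ψ) χ with h | ⟨n, hn, h⟩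
  · exfalso
    have h1 : ∀ t : Circle, ∃ l ∈ L ⊓ (χ : K →* Circle).ker, ψ l = t := by
      intro t
      obtain ⟨l, hl, rfl⟩ := hψ t
      obtain ⟨u, hu, hul⟩ := h (χ l)
      have hu1 : u ∈ L := hu.1
      have hu2 : ψ u = 1 := hu.2
      refine ⟨l * u⁻¹, ⟨L.mul_mem hl (L.inv_mem hu1), ?_⟩, ?_⟩
      · change χ (l * u⁻¹) = 1
        rw [map_mul, map_inv, hul, mul_inv_cancel]
      · rw [map_mul, map_inv, hu2, inv_one, mul_one]
    have h2 := hmin _ inf_le_left (mM_ker L hL χ) h1
    obtain ⟨t, ht⟩ := mM_noexp 1 one_pos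
    obtain ⟨u, hu, hut⟩ := h t
    have hu1 : u ∈ L := hu.1
    rw [← h2] at hu1
    have hu3 : χ u = 1 := hu1.2
    apply ht
    rw [← hut, hu3, one_pow]
  · refine (mM_fin n hn).subset ?_
    rintro _ ⟨l, hl, rfl⟩
    exact h l hl

/-- Zorn -/
theorem mM_zorn (χ : K →ₜ* Circle) (hχ : ∀ t : Circle, ∃ l : K, χ l = t) :
    ∃ L : Subgroup K, IsClosed (L : Set K) ∧ (∀ t : Circle, ∃ l ∈ L, χ l = t) ∧
      ∀ L' : Subgroup K, L' ≤ L → IsClosed (L' : Set K) → (∀ t : Circle, ∃ l ∈ L', χ l = t) →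
        L' = L := by
  let S : Set (Set K) := {X | ∃ L : Subgroup K, (L : Set K) = X ∧ IsClosed X ∧
    ∀ t : Circle, ∃ l ∈ X, χ l = t}
  have hz : ∀ c ⊆ S, IsChain (· ⊆ ·) c → ∃ lb ∈ S, ∀ s ∈ c, lb ⊆ s := by
    intro c hc hchain
    rcases c.eq_empty_or_nonempty with rfl | hne
    · refine ⟨Set.univ, ⟨⊤, rfl, isClosed_univ, fun t => ?_⟩, fun s hs => absurd hs (by simp)⟩
      obtain ⟨l, hl⟩ := hχ t
      exact ⟨l, trivial, hl⟩
    · refine ⟨⋂₀ c, ⟨?_, ?_, ?_, ?_⟩, fun s hs => Set.sInter_subset_of_mem hs⟩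
      · exact
          { carrier := ⋂₀ c
            one_mem' := by
              intro s hs
              obtain ⟨L, rfl, -⟩ := hc hs
              exact L.one_mem
            mul_mem' := by
              intro a b ha hb s hs
              have h1 := ha s hs
              have h2 := hb s hs
              obtain ⟨L, rfl, -⟩ := hc hs
              exact L.mul_mem h1 h2
            inv_mem' := by
              intro a ha s hs
              have h1 := ha s hs
              obtain ⟨L, rfl, -⟩ := hc hs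
              exact L.inv_mem h1 }
      · rfl
      · exact isClosed_sInter fun s hs => (hc hs).choose_spec.2.1
      · intro t
        have hne' : Nonempty c := hne.to_subtype
        have h := IsCompact.nonempty_iInter_of_directed_nonempty_isCompact_isClosed
          (fun s : c => (s : Set K) ∩ (fun k => χ k) ⁻¹' {t}) ?_ ?_ ?_ ?_
        · obtain ⟨l, hl⟩ := h
          rw [Set.mem_iInter] at hl
          refine ⟨l, fun s hs => (hl ⟨s, hs⟩).1, ?_⟩
          obtain ⟨s, hs⟩ := hne
          exact (hl ⟨s, hs⟩).2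
        · intro s s'
          rcases hchain.total s.2 s'.2 with h | h
          · exact ⟨s, fun x hx => hx, fun x hx => ⟨h hx.1, hx.2⟩⟩
          · exact ⟨s', fun x hx => ⟨h hx.1, hx.2⟩, fun x hx => hx⟩
        · intro s
          obtain ⟨L, h1, h2, h3⟩ := hc s.2
          obtain ⟨l, hl, hlt⟩ := h3 t
          exact ⟨l, hl, hlt⟩
        · intro s
          obtain ⟨L, h1, h2, h3⟩ := hc s.2
          exact (h2.inter (isClosed_singleton.preimage χ.continuous_toFun)).isCompact
        · intro s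
          obtain ⟨L, h1, h2, h3⟩ := hc s.2
          exact h2.inter (isClosed_singleton.preimage χ.continuous_toFun)
  obtain ⟨m, hm⟩ := zorn_superset S hz
  obtain ⟨L, hLm, hLc, hLt⟩ := hm.prop
  refine ⟨L, by rw [hLm]; exact hLc, fun t => ?_, ?_⟩
  · obtain ⟨l, hl, h⟩ := hLt t
    refine ⟨l, ?_, h⟩
    rw [← hLm] at hl
    exact hl
  · intro L' hL' hc' ht'
    have hmem : (L' : Set K) ∈ S := ⟨L', rfl, hc', ht'⟩
    have hsub : (L' : Set K) ⊆ m := by rw [← hLm]; exact hL'
    have h2 : m ⊆ (L' : Set K) := hm.le_of_le hmem hsub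
    apply le_antisymm hL'
    intro x hx
    apply h2
    rw [← hLm]
    exact hx

end

/-- St_M -/
theorem t_M : St_M := by
  intro K _ _ _ _ _ hT
  unfold TorX at hT
  push Not at hT
  obtain ⟨χ₀, hχ₀⟩ := hT
  have hsurj : ∀ t : Circle, ∃ l : K, χ₀ l = t := by
    rcases mM_dich (⊤ : Subgroup K) isClosed_univ χ₀ with h | ⟨n, hn, h⟩
    · intro t
      obtain ⟨l, -, hl⟩ := h t
      exact ⟨l, hl⟩
    · exfalso
      obtain ⟨k, hk⟩ := hχ₀ n hn
      exact hk (h k trivial)
  obtain ⟨L, hLc, hLt, hmin⟩ := mM_zorn χ₀ hsurj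
  -- divisibility
  have hdiv : ∀ n : ℕ, 0 < n → ∀ l ∈ L, ∃ l' ∈ L, l' ^ n = l := by
    intro n hn
    have h1 : L.map (powMonoidHom n : K →* K) ≤ L := by
      rintro _ ⟨l, hl, rfl⟩
      exact L.pow_mem hl n
    have h2 : IsClosed ((L.map (powMonoidHom n : K →* K) : Subgroup K) : Set K) := by
      have h : ((L.map (powMonoidHom n : K →* K) : Subgroup K) : Set K) =
        (fun k : K => k ^ n) '' (L : Set K) := rfl
      rw [h]
      exact (hLc.isCompact.image (continuous_pow n)).isClosed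
    have h3 : ∀ t : Circle, ∃ l ∈ L.map (powMonoidHom n : K →* K), χ₀ l = t := by
      intro t
      obtain ⟨s, rfl⟩ := mM_root n hn t
      obtain ⟨l, hl, rfl⟩ := hLt s
      exact ⟨l ^ n, ⟨l, hl, rfl⟩, by rw [map_pow]⟩
    have h4 := hmin _ h1 h2 h3
    intro l hl
    rw [← h4] at hl
    obtain ⟨l', hl', h5⟩ := hl
    exact ⟨l', hl', h5⟩
  refine ⟨L, χ₀, hLc, hLt, hdiv, ?_⟩
  rintro ψ ⟨l, hl, hψl⟩
  have hψt : ∀ t : Circle, ∃ l ∈ L, ψ l = t := by
    rcases mM_dich L hLc ψ with h | ⟨n, hn, h⟩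
    · exact h
    · exfalso
      obtain ⟨l', hl', rfl⟩ := hdiv n hn l hl
      apply hψl
      rw [map_pow]
      exact h l' hl'
  apply mM_step L hLc ψ _ hψt
  intro L' hL' hc' ht'
  rcases mM_dich L' hc' χ₀ with h | ⟨n, hn, h⟩
  · exact hmin L' hL' hc' h
  · exfalso
    have h1 : ∀ t : Circle, ∃ u ∈ L ⊓ (χ₀ : K →* Circle).ker, ψ u = t := by
      intro t
      obtain ⟨s, rfl⟩ := mM_root n hn t
      obtain ⟨l, hl, rfl⟩ := ht' s
      refine ⟨l ^ n, ⟨L.pow_mem (hL' hl) n, ?_⟩, by rw [map_pow]⟩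
      change χ₀ (l ^ n) = 1
      rw [map_pow]
      exact h l hl
    have h2 := mM_step L hLc χ₀ hmin hLt ψ
    have h3 : ((fun k => ψ k) '' ((L ⊓ (χ₀ : K →* Circle).ker : Subgroup K) : Set K)) = Set.univ := by
      apply Set.eq_univ_of_forall
      intro t
      obtain ⟨u, hu, hut⟩ := h1 t
      exact ⟨u, hu, hut⟩
    rw [h3] at h2
    -- the circle is infinite
    have h4 : Finite Circle := Set.finite_univ_iff.mp h2
    obtain ⟨t, ht⟩ := mM_noexp (Nat.card Circle) (Nat.card_pos)
    exact ht (pow_card_eq_one')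

end Pool.Agent.N515.DMin
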