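import Pool.Agent.N515.DMin.Stm

set_option autoImplicit false
set_option linter.unusedSectionVars false

/-! MP_00f11d_al, part NT (helper820): the dual is a torsion group. -/

open Topology Set

namespace Pool.Agent.N515.DMin

section aux

theorem nt_cop {A : Type} [Group A] {a : A} {m n : ℕ} (h : Nat.Coprime m n) (h1 : a ^ m = 1)
    (h2 : a ^ n = 1) : a = 1 := by
  have h3 : orderOf a ∣ Nat.gcd m n :=
    Nat.dvd_gcd (orderOf_dvd_of_pow_eq_one h1) (orderOf_dvd_of_pow_eq_one h2)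
  rw [show Nat.gcd m n = 1 from h] at h3
  exact orderOf_eq_one_iff.1 (Nat.dvd_one.1 h3)

/-- a root of unity of order `p` -/
theorem nt_root (p : ℕ) (hp : p.Prime) : ∃ z : Circle, z ≠ 1 ∧ z ^ p = 1 := by
  have hp0 : (p : ℝ) ≠ 0 := by exact_mod_cast hp.ne_zero
  refine ⟨Circle.exp (2 * Real.pi / p), ?_, ?_⟩
  · intro h
    obtain ⟨n, hn⟩ := Circle.exp_eq_one.1 h
    have hpi := Real.pi_pos
    have h1 : (1 : ℝ) = n * p := by
      field_simp at hn
      rw [mul_comm]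
      exact hn
    have h3 : (1 : ℤ) = n * p := by exact_mod_cast h1
    have h4 : (p : ℤ) ∣ 1 := ⟨n, by rw [mul_comm]; exact h3⟩
    have h5 := Int.eq_one_of_dvd_one (by positivity) h4
    have h6 := hp.one_lt
    omega
  · rw [← Circle.exp_natCast_mul, mul_div_cancel₀ _ hp0, Circle.exp_two_pi]

/-- the powers of a root of unity of order exactly `p ^ (m + 1)` -/
theorem nt_cyc {p m : ℕ} (hp : p.Prime) {z w : Circle} (hz : z ^ (p ^ m) ≠ 1)
    (hz' : z ^ (p ^ (m + 1)) = 1) (hw : w ^ (p ^ m) = 1) : ∃ j : ℕ, w = z ^ j := by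
  have h1 : orderOf z = p ^ (m + 1) := by
    have := Fact.mk hp
    exact orderOf_eq_prime_pow hz hz'
  have h2 : IsPrimitiveRoot (z : ℂ) (p ^ (m + 1)) := by
    rw [← h1]
    have h3 := IsPrimitiveRoot.orderOf z
    exact h3.map_of_injective (f := Circle.coeHom) Circle.coe_injective
  have : NeZero (p ^ (m + 1)) := ⟨pow_ne_zero _ hp.ne_zero⟩
  have h4 : (w : ℂ) ^ (p ^ (m + 1)) = 1 := by
    have h5 : w ^ (p ^ (m + 1)) = 1 := by rw [pow_succ, pow_mul, hw, one_pow]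
    have h6 := congrArg (fun t : Circle => (t : ℂ)) h5
    simpa using h6
  obtain ⟨j, -, hj⟩ := h2.eq_pow_of_pow_eq_one h4
  refine ⟨j, Circle.coe_injective ?_⟩
  rw [← hj]
  simp

variable {K : Type} [CommGroup K] [TopologicalSpace K] [IsTopologicalGroup K] [CompactSpace K]
  [T2Space K]

theorem nt_sep (hT1 : St_T1) {z : K} (h : ∀ χ : K →ₜ* Circle, χ z = 1) : z = 1 := by
  by_contra hz
  obtain ⟨χ, -, h2⟩ := hT1 K ⊥ (by
    rw [Subgroup.coe_bot]
    exact isClosed_singleton) z (by rwa [Subgroup.mem_bot])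
  exact h2 (h χ)

omit [IsTopologicalGroup K] [CompactSpace K] [T2Space K] in
theorem nt_pad_pow {p : ℕ} {x : K} (h : Pad p x) (n : ℕ) : Pad p (x ^ n) := by
  intro χ
  obtain ⟨m, hm⟩ := h χ
  exact ⟨m, by rw [map_pow, ← pow_mul, mul_comm, pow_mul, hm, one_pow]⟩

omit [CompactSpace K] [T2Space K] in
theorem nt_cl_closed (x : K) : IsClosed (cl x : Set K) := Subgroup.isClosed_topologicalClosure _

omit [CompactSpace K] [T2Space K] in
theorem nt_mem_cl (x : K) : x ∈ cl x :=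
  Subgroup.le_topologicalClosure _ (Subgroup.mem_zpowers x)

omit [CompactSpace K] [T2Space K] in
theorem nt_cl_le {x : K} {N : Subgroup K} (hN : IsClosed (N : Set K)) (hx : x ∈ N) : cl x ≤ N :=
  Subgroup.topologicalClosure_minimal _ (by rwa [Subgroup.zpowers_le]) hN

omit [IsTopologicalGroup K] [CompactSpace K] [T2Space K] in
theorem nt_ker_closed (f : K →* Circle) (hf : Continuous f) : IsClosed (f.ker : Set K) := by
  have : (f.ker : Set K) = f ⁻¹' {1} := by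
    ext z
    simp [MonoidHom.mem_ker]
  rw [this]
  exact isClosed_singleton.preimage hf

omit [CompactSpace K] [T2Space K] in
theorem nt_pad_cl {p : ℕ} {x z : K} (h : Pad p x) (hz : z ∈ cl x) : Pad p z := by
  intro χ
  obtain ⟨m, hm⟩ := h χ
  refine ⟨m, ?_⟩
  have hf : Continuous ((powMonoidHom (p ^ m)).comp (χ : K →* Circle)) :=
    (map_continuous χ).pow _
  have h2 := nt_cl_le (nt_ker_closed _ hf) (x := x)
    (show x ∈ ((powMonoidHom (p ^ m)).comp (χ : K →* Circle)).ker from hm) hz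
  exact h2

theorem nt_pad_two (hT1 : St_T1) {p q : ℕ} (hp : p.Prime) (hq : q.Prime) (hpq : p ≠ q) {z : K}
    (h1 : Pad p z) (h2 : Pad q z) : z = 1 := by
  refine nt_sep hT1 fun χ => ?_
  obtain ⟨m, hm⟩ := h1 χ
  obtain ⟨n, hn⟩ := h2 χ
  exact nt_cop (Nat.Coprime.pow _ _ ((Nat.coprime_primes hp hq).2 hpq)) hm hn

theorem nt_fin_closed {c : K} {n : ℕ} (hn : 0 < n) (hc : c ^ n = 1) :
    IsClosed ((Subgroup.zpowers c : Subgroup K) : Set K) :=
  (finite_zpowers.2 (isOfFinOrder_iff_pow_eq_one.2 ⟨n, hn, hc⟩)).isClosed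

theorem nt_zpow_ne_bot {c : K} (hc : c ≠ 1) : Subgroup.zpowers c ≠ ⊥ := by
  intro h
  exact hc (Subgroup.mem_bot.1 (h ▸ Subgroup.mem_zpowers c))

/-- a nontrivial `p`-adic element of finite order has a power of order `p` -/
theorem nt_order (hT1 : St_T1) {p : ℕ} (hp : p.Prime) {x : K} (h : Pad p x) (hx : x ≠ 1) {n : ℕ}
    (hn : 0 < n) (hxn : x ^ n = 1) : ∃ k : ℕ, x ^ (p ^ k) ≠ 1 ∧ (x ^ (p ^ k)) ^ p = 1 := by
  obtain ⟨a, r, hr, rfl⟩ := Nat.exists_eq_pow_mul_and_not_dvd hn.ne' p hp.ne_one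
  have h1 : x ^ (p ^ a) = 1 := by
    refine nt_sep hT1 fun χ => ?_
    obtain ⟨m, hm⟩ := nt_pad_pow h (p ^ a) χ
    have hc : Nat.Coprime (p ^ m) r := Nat.Coprime.pow_left _ ((hp.coprime_iff_not_dvd).2 hr)
    refine nt_cop hc hm ?_
    rw [← map_pow, ← pow_mul, hxn, map_one]
  classical
  have hex : ∃ a, x ^ (p ^ a) = 1 := ⟨a, h1⟩
  have hmin := Nat.find_spec hex
  have hpos : Nat.find hex ≠ 0 := by
    intro h0
    rw [h0, pow_zero, pow_one] at hmin
    exact hx hmin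
  obtain ⟨k, hk⟩ := Nat.exists_eq_succ_of_ne_zero hpos
  refine ⟨k, Nat.find_min hex (by omega), ?_⟩
  rw [← pow_mul, ← pow_succ]
  have : k + 1 = Nat.find hex := hk.symm
  rw [this]
  exact hmin

end aux

/-- **NT.** -/
theorem t_NT (hT1 : St_T1) (hT2 : St_T2) (hT3 : St_T3) (hC4 : St_C4) (hE1 : St_E1) (hI : St_I)
    (hB : St_B) (hM : St_M) : St_NT := by
  intro K _ _ _ _ _ G hG hDM
  by_contra hTor
  obtain ⟨L, χ₀, hLc, hsurj, hdiv, hLP⟩ := hM K hTor
  -- `G` meets all closed subgroups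
  have hmeet : ∀ N : Subgroup K, IsClosed (N : Set K) → N ≠ ⊥ → ∃ z ∈ G, z ∈ N ∧ z ≠ 1 := by
    intro N hN hN0
    have h1 := hDM G le_rfl hG N hN hN0
    rw [Ne, Subgroup.eq_bot_iff_forall] at h1
    push Not at h1
    obtain ⟨z, hz, hz1⟩ := h1
    exact ⟨z, (Subgroup.mem_inf.1 hz).1, (Subgroup.mem_inf.1 hz).2, hz1⟩
  -- the elements `x p`
  have hx : ∀ p : ℕ, ∃ x : K, p.Prime → x ∈ L ∧ Pad p x ∧ χ₀ x ≠ 1 ∧ χ₀ x ^ p = 1 := by
    intro p
    by_cases hp : p.Prime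
    · obtain ⟨z, hz1, hzp⟩ := nt_root p hp
      obtain ⟨l, hl, hlz⟩ := hsurj z
      obtain ⟨x, hxL, hxp, hxl⟩ := hT2 K L hLc χ₀ p hp l hl (by rwa [hlz]) (by rwa [hlz])
      exact ⟨x, fun _ => ⟨hxL, hxp, by rw [hxl, hlz]; exact hz1, by rw [hxl, hlz]; exact hzp⟩⟩
    · exact ⟨1, fun h => absurd h hp⟩
  choose x hx using hx
  have hx1 : ∀ p : ℕ, p.Prime → x p ≠ 1 := by
    intro p hp h
    refine (hx p hp).2.2.1 ?_
    rw [h, map_one]
  set P : Set ℕ := {p | p.Prime ∧ ∀ n : ℕ, 0 < n → x p ^ n ≠ 1} with hP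
  by_cases hPi : P.Infinite
  · -- (a)
    set M' : Subgroup K := G ⊓ (L ⊓ (χ₀ : K →* Circle).ker) with hM'
    have hLP' : LP M' := by
      intro ψ
      refine ((hLP χ₀ ⟨x 2, (hx 2 Nat.prime_two).1, (hx 2 Nat.prime_two).2.2.1⟩) ψ).subset ?_
      exact image_mono fun z hz => (Subgroup.mem_inf.1 hz).2
    have hc : ∀ p : ℕ, ∃ c : K, p ∈ P → Pad p c ∧ c ∈ M' ∧ ∀ n : ℕ, 0 < n → c ^ n ≠ 1 := by
      intro p
      by_cases hpP : p ∈ P
      swap
      · exact ⟨1, fun h => absurd h hpP⟩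
      obtain ⟨hp, hinf⟩ := hpP
      obtain ⟨hxL, hxp, -, hxpp⟩ := hx p hp
      set y : K := x p ^ p with hy
      have hyne : y ≠ 1 := hinf p hp.pos
      have hyp : Pad p y := nt_pad_pow hxp p
      have hcl0 : cl y ≠ ⊥ := by
        intro h
        exact hyne (Subgroup.mem_bot.1 (h ▸ nt_mem_cl y))
      obtain ⟨c, hcG, hcy, hc1⟩ := hmeet (cl y) (nt_cl_closed y) hcl0
      have hcl : cl y ≤ L ⊓ (χ₀ : K →* Circle).ker := by
        refine nt_cl_le ?_ ?_
        · rw [Subgroup.coe_inf]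
          exact hLc.inter (nt_ker_closed _ (map_continuous χ₀))
        · refine Subgroup.mem_inf.2 ⟨L.pow_mem hxL p, ?_⟩
          show χ₀ y = 1
          rw [hy, map_pow]
          exact hxpp
      refine ⟨c, fun _ => ⟨nt_pad_cl hyp hcy, Subgroup.mem_inf.2 ⟨hcG, hcl hcy⟩, ?_⟩⟩
      intro n hn hcn
      obtain ⟨k, hk⟩ := hT3 K p hp y hyp (Subgroup.zpowers c) (nt_fin_closed hn hcn)
        (by rwa [Subgroup.zpowers_le]) (nt_zpow_ne_bot hc1)
      have h1 : y ^ (p ^ k) ∈ Subgroup.zpowers c := by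
        rw [hk]
        exact nt_mem_cl _
      obtain ⟨j, hj⟩ := Subgroup.mem_zpowers_iff.1 h1
      have h2 : (y ^ (p ^ k)) ^ n = 1 := by
        rw [← hj, ← zpow_natCast, ← zpow_mul, mul_comm, zpow_mul, zpow_natCast, hcn, one_zpow]
      rw [hy, ← pow_mul, ← pow_mul] at h2
      refine hinf _ ?_ h2
      have h3 := hp.pos
      positivity
    choose c hc using hc
    have hrank := hI K M' P hPi (fun p hp => hp.1) c (fun p hp => hc p hp)
    have h2 := hx 2 Nat.prime_two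
    have h3 := hx 3 Nat.prime_three
    refine hB K G hG hDM 2 3 Nat.prime_two Nat.prime_three (x 2) (x 3) h2.2.1 h3.2.1
      (hx1 2 Nat.prime_two) (hx1 3 Nat.prime_three) ?_ M' inf_le_left hLP' hrank
    rw [Subgroup.eq_bot_iff_forall]
    intro z hz
    obtain ⟨hz1, hz2⟩ := Subgroup.mem_inf.1 hz
    exact nt_pad_two hT1 Nat.prime_two Nat.prime_three (by norm_num) (nt_pad_cl h2.2.1 hz1)
      (nt_pad_cl h3.2.1 hz2)
  · -- (b)
    have hPf : P.Finite := Set.not_infinite.1 hPi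
    have hinf : ({p : ℕ | p.Prime} \ P).Infinite := Nat.infinite_setOfPred_prime.sdiff hPf
    obtain ⟨p, hpm⟩ := hinf.nonempty
    obtain ⟨q, hqm, hqp⟩ := hinf.exists_notMem_finset {p}
    have hp : p.Prime := hpm.1
    have hq : q.Prime := hqm.1
    have hpq : p ≠ q := fun h => hqp (by rw [h]; exact Finset.mem_singleton_self q)
    have hfin : ∀ r : ℕ, r.Prime → r ∉ P → ∃ g ∈ L, g ≠ 1 ∧ g ^ r = 1 := by
      intro r hr hrP
      have h1 : ∃ n : ℕ, 0 < n ∧ x r ^ n = 1 := by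
        by_contra hcon
        push Not at hcon
        exact hrP ⟨hr, hcon⟩
      obtain ⟨n, hn, hxn⟩ := h1
      obtain ⟨k, hk1, hk2⟩ := nt_order hT1 hr (hx r hr).2.1 (hx1 r hr) hn hxn
      exact ⟨x r ^ (r ^ k), L.pow_mem (hx r hr).1 _, hk1, hk2⟩
    obtain ⟨gp, hgpL, hgp1, hgpp⟩ := hfin p hp hpm.2
    obtain ⟨gq, hgqL, hgq1, hgqq⟩ := hfin q hq hqm.2
    have hgpG : gp ∈ G := hC4 K G hG hDM p hp 1 gp (by rwa [pow_one])
    -- the homomorphism `β`
    obtain ⟨β, hβp, hβ1⟩ := hE1 G p hp ⟨gp, hgpG⟩ (by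
      intro m hm h
      have h1 : gp ^ m = 1 := congrArg Subtype.val h
      exact hgp1 (nt_cop hm h1 hgpp))
    set H : Subgroup K := β.ker.map G.subtype with hH
    have hHG : H ≤ G := by
      rintro _ ⟨g, -, rfl⟩
      exact g.2
    have hβgp : (β ⟨gp, hgpG⟩) ^ p = 1 := by
      rw [← map_pow]
      have : (⟨gp, hgpG⟩ : G) ^ p = 1 := Subtype.ext hgpp
      rw [this, map_one]
    have hHgp : H ⊓ Subgroup.zpowers gp = ⊥ := by
      rw [Subgroup.eq_bot_iff_forall]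
      intro z hz
      obtain ⟨⟨g, hg, hgz⟩, hz2⟩ := Subgroup.mem_inf.1 hz
      obtain ⟨j, hj⟩ := Subgroup.mem_zpowers_iff.1 hz2
      have h1 : g = (⟨gp, hgpG⟩ : G) ^ j := by
        apply Subtype.ext
        rw [Subgroup.coe_zpow]
        show (g : K) = gp ^ j
        rw [hj]
        exact hgz
      have h2 : (β ⟨gp, hgpG⟩) ^ j = 1 := by
        rw [← map_zpow, ← h1]
        exact hg
      have h3 : orderOf (β ⟨gp, hgpG⟩) = p := by
        have := Fact.mk hp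
        exact orderOf_eq_prime hβgp hβ1
      have h4 : ((orderOf (β ⟨gp, hgpG⟩) : ℕ) : ℤ) ∣ j := orderOf_dvd_iff_zpow_eq_one.2 h2
      rw [h3] at h4
      obtain ⟨i, rfl⟩ := h4
      rw [← hj, zpow_mul, zpow_natCast, hgpp, one_zpow]
    have hHd : ¬ Dense (H : Set K) := by
      intro hd
      exact hDM H hHG hd (Subgroup.zpowers gp) (nt_fin_closed hp.pos hgpp) (nt_zpow_ne_bot hgp1)
        hHgp
    -- the character `χ`
    obtain ⟨χ, hχH, k, hk⟩ : ∃ χ : K →ₜ* Circle, (∀ h ∈ H, χ h = 1) ∧ ∃ k, χ k ≠ 1 := by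
      have h1 : ∃ k, k ∉ H.topologicalClosure := by
        by_contra hcon
        push Not at hcon
        exact hHd fun k => hcon k
      obtain ⟨k, hk⟩ := h1
      obtain ⟨χ, h2, h3⟩ := hT1 K H.topologicalClosure (Subgroup.isClosed_topologicalClosure _) k hk
      exact ⟨χ, fun h hh => h2 h (Subgroup.le_topologicalClosure _ hh), k, h3⟩
    obtain ⟨h, hhG, hχh⟩ : ∃ h ∈ G, χ h ≠ 1 := by
      by_contra hcon
      push Not at hcon
      have h1 : (univ : Set K) ⊆ ((χ : K →* Circle).ker : Set K) := by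
        rw [← hG.closure_eq]
        exact closure_minimal (fun g hg => hcon g hg) (nt_ker_closed _ (map_continuous χ))
      exact hk (h1 (mem_univ k))
    have hχβ : ∀ g : G, β g = 1 → χ g = 1 := fun g hg => hχH g ⟨g, hg, rfl⟩
    have hχp : ∀ g : K, g ∈ G → ∃ n : ℕ, χ g ^ (p ^ n) = 1 := by
      intro g hg
      obtain ⟨n, hn⟩ := hβp ⟨g, hg⟩
      refine ⟨n, ?_⟩
      rw [← map_pow] at hn
      have h1 := hχβ _ hn
      rw [Subgroup.coe_pow] at h1
      rw [← map_pow]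
      exact h1
    -- `χ` is nontrivial on `L`
    have hχL : ∃ l ∈ L, χ l ≠ 1 := by
      obtain ⟨m, hm⟩ := hβp ⟨h, hhG⟩
      have hpm0 : 0 < p ^ m := pow_pos hp.pos m
      obtain ⟨l, hlL, hl⟩ := hdiv (p ^ m) hpm0 gp hgpL
      have hl1 : l ^ (p ^ (m + 1)) = 1 := by rw [pow_succ, pow_mul, hl, hgpp]
      have hlG : l ∈ G := hC4 K G hG hDM p hp (m + 1) l hl1
      have e1 : (⟨l, hlG⟩ : G) ^ (p ^ m) = ⟨gp, hgpG⟩ := Subtype.ext hl
      have e2 : (⟨l, hlG⟩ : G) ^ (p ^ (m + 1)) = 1 := Subtype.ext hl1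
      have f1 : (β ⟨l, hlG⟩) ^ (p ^ m) ≠ 1 := by
        rw [← map_pow, e1]
        exact hβ1
      have f2 : (β ⟨l, hlG⟩) ^ (p ^ (m + 1)) = 1 := by rw [← map_pow, e2, map_one]
      obtain ⟨j, hj⟩ := nt_cyc hp f1 f2 hm
      refine ⟨l, hlL, fun hχl => hχh ?_⟩
      have h1 : β (⟨h, hhG⟩ * (⟨l, hlG⟩ ^ j)⁻¹) = 1 := by
        rw [map_mul, map_inv, map_pow, ← hj, mul_inv_cancel]
      have h2 := hχβ _ h1
      have h3 : ((⟨h, hhG⟩ * (⟨l, hlG⟩ ^ j)⁻¹ : G) : K) = h * (l ^ j)⁻¹ := rfl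
      rw [h3, map_mul, map_inv, map_pow, hχl, one_pow, inv_one, mul_one] at h2
      exact h2
    -- the `q`-power torsion elements of `L` are in the kernel of `χ`
    have hD : ∀ l ∈ L, ∀ n : ℕ, l ^ (q ^ n) = 1 → l ∈ L ⊓ (χ : K →* Circle).ker := by
      intro l hl n hln
      refine Subgroup.mem_inf.2 ⟨hl, ?_⟩
      have hlG : l ∈ G := hC4 K G hG hDM q hq n l hln
      obtain ⟨a, ha⟩ := hχp l hlG
      refine nt_cop (Nat.Coprime.pow a n ((Nat.coprime_primes hp hq).2 hpq)) ha ?_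
      show χ l ^ (q ^ n) = 1
      rw [← map_pow, hln, map_one]
    have hLPχ := hLP χ hχL
    refine hgq1 (nt_sep hT1 fun ψ => ?_)
    set S : Subgroup Circle := (L ⊓ (χ : K →* Circle).ker).map (ψ : K →* Circle) with hS
    have hSf : (S : Set Circle).Finite := hLPχ ψ
    have : Finite S := hSf.to_subtype
    have hcard : Nat.card S ≠ 0 := Nat.card_pos.ne'
    obtain ⟨m, r, hr, hmr⟩ := Nat.exists_eq_pow_mul_and_not_dvd hcard q hq.ne_one
    have hkey : ∀ l ∈ L, ∀ n : ℕ, l ^ (q ^ n) = 1 → ψ l ^ (q ^ m) = 1 := by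
      intro l hl n hln
      have h1 : ψ l ∈ S := ⟨l, hD l hl n hln, rfl⟩
      have h2 : ψ l ^ Nat.card S = 1 := by
        have h3 : (⟨ψ l, h1⟩ : S) ^ Nat.card S = 1 := pow_card_eq_one'
        exact congrArg Subtype.val h3
      have h4 : ψ l ^ (q ^ n) = 1 := by rw [← map_pow, hln, map_one]
      refine nt_cop (m := q ^ n) (n := r)
        (Nat.Coprime.pow_left _ ((hq.coprime_iff_not_dvd).2 hr)) ?_ ?_
      · rw [← pow_mul, mul_comm, pow_mul, h4, one_pow]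
      · rw [← pow_mul, ← hmr, h2]
    obtain ⟨l, hlL, hl⟩ := hdiv (q ^ m) (pow_pos hq.pos m) gq hgqL
    have hl1 : l ^ (q ^ (m + 1)) = 1 := by rw [pow_succ, pow_mul, hl, hgqq]
    have h5 := hkey l hlL (m + 1) hl1
    rw [← map_pow, hl] at h5
    exact h5

end Pool.Agent.N515.DMin
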