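import Pool.Agent.N515.DMin.Stm

set_option autoImplicit false

open Topology Set

namespace Pool.Agent.N515.DMin

@[reducible] noncomputable def r_circleDiv : DivisibleBy (Additive Circle) ℤ :=
  divisibleByOfSMulRightSurj (Additive Circle) ℤ (by
    intro n hn z
    have ht := Circle.exp_arg (Additive.toMul z)
    refine ⟨Additive.ofMul (Circle.exp (Complex.arg (Additive.toMul z : Circle) / n)), ?_⟩
    show Additive.ofMul ((Circle.exp (Complex.arg (Additive.toMul z : Circle) / n)) ^ n) = z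
    rw [← Circle.exp_zsmul, zsmul_eq_mul, mul_div_cancel₀ _ (Int.cast_ne_zero.2 hn), ht]
    rfl)

attribute [local instance] r_circleDiv

theorem r_extend {A : Type} [CommGroup A] (N : Subgroup A) (χ : N →* Circle) :
    ∃ ψ : A →* Circle, ∀ x : N, ψ x = χ x := by
  let ψ0 : Additive N →+ Additive Circle := MonoidHom.toAdditive χ
  let ι : Additive N →+ Additive A := MonoidHom.toAdditive N.subtype
  obtain ⟨g, hg⟩ := (Module.Baer.of_divisible (Additive Circle)).extension_property_addMonoidHom ι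
    (fun x y hxy => by
      have : (Additive.toMul x).1 = (Additive.toMul y).1 := hxy
      exact Additive.toMul.injective (Subtype.ext this)) ψ0
  refine ⟨AddMonoidHom.toMultiplicative g, fun x => ?_⟩
  exact DFunLike.congr_fun hg (Additive.ofMul x)

/-- a homomorphism that kills the elements of order `p` is a `p`-th power -/
theorem r_root {B : Type} [CommGroup B] (p : ℕ) (φ : B →* Circle)
    (h : ∀ b : B, b ^ p = 1 → φ b = 1) : ∃ φ' : B →* Circle, ∀ b, φ' b ^ p = φ b := by
  let f : B →* B := powMonoidHom p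
  have hk : f.rangeRestrict.ker ≤ φ.ker := by
    intro b hb
    rw [MonoidHom.ker_rangeRestrict] at hb
    exact h b hb
  let φ1 : f.range →* Circle :=
    (f.rangeRestrict).liftOfSurjective f.rangeRestrict_surjective ⟨φ, hk⟩
  obtain ⟨ψ, hψ⟩ := r_extend f.range φ1
  refine ⟨ψ, fun b => ?_⟩
  have h1 := hψ (f.rangeRestrict b)
  have h2 : φ1 (f.rangeRestrict b) = φ b :=
    MonoidHom.liftOfRightInverse_comp_apply _ _ _ ⟨φ, hk⟩ b
  rw [h2] at h1
  rw [← map_pow]
  exact h1

/-- the roots of unity are finite -/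
theorem r_fin (n : ℕ) (hn : 0 < n) : ({z : Circle | z ^ n = 1}).Finite := by
  have h1 : (({z : ℂ | z ^ n = 1}) : Set ℂ).Finite := by
    refine ((Polynomial.nthRootsFinset n (1 : ℂ)).finite_toSet).subset ?_
    intro z hz
    simp only [Finset.mem_coe]
    rw [Polynomial.mem_nthRootsFinset hn]
    exact hz
  have h2 := h1.preimage (f := fun z : Circle => (z : ℂ)) (Circle.coe_injective.injOn)
  refine h2.subset ?_
  intro z hz
  simp only [Set.mem_preimage, Set.mem_setOf_eq] at hz ⊢
  rw [← Circle.coe_pow, hz, Circle.coe_one]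

variable {K : Type} [CommGroup K] [TopologicalSpace K]

/-- the complement of the kernel of a character of finite order is closed -/
theorem r_closed (χ : K →ₜ* Circle) (n : ℕ) (hn : 0 < n) (h : ∀ k, χ k ^ n = 1) :
    IsClosed {k : K | χ k ≠ 1} := by
  have h1 : IsClosed ({z : Circle | z ^ n = 1} \ {1}) :=
    ((r_fin n hn).subset Set.diff_subset).isClosed
  have h2 := h1.preimage χ.continuous_toFun
  convert h2 using 1
  ext k
  simp only [Set.mem_preimage, Set.mem_diff, Set.mem_setOf_eq, Set.mem_singleton_iff]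
  constructor
  · intro hk
    exact ⟨h k, hk⟩
  · intro hk
    exact hk.2

theorem t_R (hT1 : St_T1) : St_R := by
  intro K _ _ _ _ _ htor p hp χ hχ
  -- the compact set of the `p`-th powers of elements outside the kernel
  obtain ⟨n, hn, hχn⟩ := htor χ
  have hF := r_closed χ n hn hχn
  have hE : IsCompact ((fun y : K => y ^ p) '' {k : K | χ k ≠ 1}) :=
    hF.isCompact.image (continuous_pow p)
  have hbot : IsClosed ((⊥ : Subgroup K) : Set K) := by
    rw [Subgroup.coe_bot]; exact isClosed_singleton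
  have hcov : ((fun y : K => y ^ p) '' {k : K | χ k ≠ 1}) ⊆
      ⋃ χ' : K →ₜ* Circle, {k : K | χ' k ≠ 1} := by
    rintro _ ⟨y, hy, rfl⟩
    have h1 : y ^ p ∉ (⊥ : Subgroup K) := by
      intro h
      rw [Subgroup.mem_bot] at h
      exact hy (hχ y h)
    obtain ⟨χ', _, h2⟩ := hT1 K ⊥ hbot _ h1
    exact Set.mem_iUnion.2 ⟨χ', h2⟩
  have hopen : ∀ χ' : K →ₜ* Circle, IsOpen {k : K | χ' k ≠ 1} := by
    intro χ'
    exact isOpen_ne.preimage χ'.continuous_toFun
  obtain ⟨t, ht⟩ := hE.elim_finite_subcover _ hopen hcov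
  -- the open subgroup
  let W : Subgroup K := χ.toMonoidHom.ker ⊓ ⨅ χ' ∈ t, χ'.toMonoidHom.ker
  have hker : ∀ χ' : K →ₜ* Circle, IsOpen ((χ'.toMonoidHom.ker : Subgroup K) : Set K) := by
    intro χ'
    obtain ⟨m, hm, h⟩ := htor χ'
    have h1 := (r_closed χ' m hm h).isOpen_compl
    convert h1 using 1
    ext k
    simp only [SetLike.mem_coe, MonoidHom.mem_ker, Set.mem_compl_iff, Set.mem_setOf_eq, not_not]
    rfl
  have hWset : (W : Set K) = (χ.toMonoidHom.ker : Set K) ∩
      ⋂ χ' ∈ t, (χ'.toMonoidHom.ker : Set K) := by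
    simp only [W, Subgroup.coe_inf, Subgroup.coe_iInf]
  have hWo : IsOpen (W : Set K) := by
    rw [hWset]
    exact (hker χ).inter (isOpen_biInter_finset fun χ' _ => hker χ')
  have hWχ : W ≤ χ.toMonoidHom.ker := inf_le_left
  -- the quotient
  let B := K ⧸ W
  let φ : B →* Circle := QuotientGroup.lift W χ.toMonoidHom hWχ
  have hφ : ∀ k : K, φ (QuotientGroup.mk k) = χ k := fun k => rfl
  have hφp : ∀ b : B, b ^ p = 1 → φ b = 1 := by
    intro b hb
    obtain ⟨y, rfl⟩ := QuotientGroup.mk_surjective b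
    rw [hφ]
    by_contra hne
    have h1 : y ^ p ∈ W := by
      rw [← QuotientGroup.mk_pow] at hb
      exact (QuotientGroup.eq_one_iff _).1 hb
    have h2 := ht ⟨y, hne, rfl⟩
    rw [Set.mem_iUnion₂] at h2
    obtain ⟨χ', hχ', h3⟩ := h2
    have h4 : y ^ p ∈ (W : Set K) := h1
    rw [hWset] at h4
    have h5 := Set.mem_iInter₂.1 h4.2 χ' hχ'
    exact h3 h5
  obtain ⟨φ', hφ'⟩ := r_root p φ hφp
  let ψ0 : K →* Circle := φ'.comp (QuotientGroup.mk' W)
  have hψW : ∀ k ∈ W, ψ0 k = 1 := by
    intro k hk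
    have : (QuotientGroup.mk' W) k = 1 := (QuotientGroup.eq_one_iff _).2 hk
    show φ' ((QuotientGroup.mk' W) k) = 1
    rw [this, map_one]
  have hcont : Continuous ψ0 := by
    refine continuous_of_continuousAt_one ψ0 ?_
    rw [ContinuousAt, map_one]
    refine tendsto_nhds_of_eventually_eq ?_ |>.mono_left le_rfl
    filter_upwards [hWo.mem_nhds W.one_mem] with k hk
    exact hψW k hk
  refine ⟨⟨ψ0, hcont⟩, fun k => ?_⟩
  show φ' (QuotientGroup.mk k) ^ p = χ k
  rw [hφ', hφ]

end Pool.Agent.N515.DMin
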