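import Pool.Agent.N515.DMin.Stm
import Pool.Agent.Helper472.Lat_Chars

set_option autoImplicit false

open Topology Set

namespace Pool.Agent.N515.DMin

theorem t_T1 : St_T1 := by
  intro K _ _ _ _ _ H hH k hk
  have : T3Space (K ⧸ H) := by
    have := hH
    infer_instance
  have hk' : (QuotientGroup.mk k : K ⧸ H) ≠ 1 := fun h => hk ((QuotientGroup.eq_one_iff k).1 h)
  obtain ⟨χ, hχ⟩ := Pool.LatH472.chars (QuotientGroup.mk k : K ⧸ H) hk'
  refine ⟨χ.comp ⟨QuotientGroup.mk' H, QuotientGroup.continuous_mk⟩, ?_, ?_⟩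
  · intro h hh
    show χ (QuotientGroup.mk h : K ⧸ H) = 1
    rw [(QuotientGroup.eq_one_iff h).2 hh, map_one]
  · exact hχ

end Pool.Agent.N515.DMin
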