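import Pool.Agent.N515.DMin.Stm

set_option autoImplicit false

/-! MP_00f11d_al (helper515), leaf T2: existence of `p`-adic elements, by helper862. -/

open Topology Set

namespace Pool.Agent.N515.DMin

/-- the powers of an element of infinite order are dense in the circle -/
theorem t2_dense (b : Circle) (hb : ∀ n : ℕ, 0 < n → b ^ n ≠ 1) :
    DenseRange (fun n : ℤ => b ^ n) := by
  set e : AddCircle (1 : ℝ) ≃ₜ Circle := AddCircle.homeomorphCircle one_ne_zero with he
  have h1 : ∀ n : ℤ, e (n • e.symm b) = b ^ n := by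
    intro n
    rw [he, AddCircle.homeomorphCircle_apply, AddCircle.toCircle_zsmul,
      ← AddCircle.homeomorphCircle_apply one_ne_zero, ← he, e.apply_symm_apply]
  have h2 : addOrderOf (e.symm b) = 0 := by
    rw [addOrderOf_eq_zero_iff']
    intro n hn h0
    apply hb n hn
    have h3 := h1 (n : ℤ)
    rw [natCast_zsmul, h0, zpow_natCast] at h3
    rw [← h3, he, AddCircle.homeomorphCircle_apply, AddCircle.toCircle_zero]
  have h3 : DenseRange (fun n : ℤ => n • e.symm b) := AddCircle.denseRange_zsmul_iff.2 h2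
  have h4 := e.surjective.denseRange.comp h3 e.continuous
  have h5 : (e ∘ fun n : ℤ => n • e.symm b) = fun n : ℤ => b ^ n := by
    funext n; exact h1 n
  rwa [h5] at h4

variable {K : Type} [CommGroup K] [TopologicalSpace K] [IsTopologicalGroup K]

theorem t2_cl_le (x : K) (H : Subgroup K) (hH : IsClosed (H : Set K)) (hx : x ∈ H) : cl x ≤ H := by
  unfold cl
  exact Subgroup.topologicalClosure_minimal _ (by rwa [Subgroup.zpowers_le]) hH

theorem t2_mem_cl (x : K) (n : ℤ) : x ^ n ∈ cl x :=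
  Subgroup.le_topologicalClosure _ (Subgroup.zpow_mem_zpowers x n)

theorem t2_mem_cl' (x : K) (n : ℕ) : x ^ n ∈ cl x :=
  Subgroup.le_topologicalClosure _ (Subgroup.npow_mem_zpowers x n)

theorem t2_cl_closed (x : K) : IsClosed (cl x : Set K) :=
  Subgroup.isClosed_topologicalClosure _

/-- closed kernel of a power of a character -/
theorem t2_ker (χ : K →ₜ* Circle) (n : ℕ) :
    ∃ H : Subgroup K, IsClosed (H : Set K) ∧ ∀ k, k ∈ H ↔ χ k ^ n = 1 := by
  refine ⟨((powMonoidHom n).comp (χ : K →* Circle)).ker, ?_, ?_⟩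
  · have : ((((powMonoidHom n).comp (χ : K →* Circle)).ker : Subgroup K) : Set K) =
        (fun k => χ k ^ n) ⁻¹' {1} := by
      ext k
      simp [MonoidHom.mem_ker]
    rw [this]
    exact isClosed_singleton.preimage (χ.continuous_toFun.pow n)
  · intro k
    simp [MonoidHom.mem_ker]

theorem t2_zorn [CompactSpace K] [T2Space K] (L : Subgroup K) (hL : IsClosed (L : Set K))
    (ψ : K →ₜ* Circle) (t : Circle) (ht : ∃ y ∈ L, ψ y = t) :
    ∃ L0 : Subgroup K, IsClosed (L0 : Set K) ∧ L0 ≤ L ∧ (∃ y ∈ L0, ψ y = t) ∧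
      ∀ L1 : Subgroup K, IsClosed (L1 : Set K) → L1 ≤ L0 → (∃ y ∈ L1, ψ y = t) → L0 ≤ L1 := by
  have hψ : Continuous ψ := ψ.continuous_toFun
  obtain ⟨L0, h1, h2⟩ := @zorn_le_nonempty₀ (Subgroup K)ᵒᵈ _
    {A | IsClosed ((OrderDual.ofDual A : Subgroup K) : Set K) ∧ OrderDual.ofDual A ≤ L ∧
      ∃ y ∈ OrderDual.ofDual A, ψ y = t} (by
      intro c hc hch A hA
      refine ⟨OrderDual.toDual (sInf (OrderDual.toDual ⁻¹' c)), ⟨?_, ?_, ?_⟩, ?_⟩
      · show IsClosed ((sInf (OrderDual.toDual ⁻¹' c) : Subgroup K) : Set K)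
        rw [Subgroup.coe_sInf]
        refine isClosed_biInter ?_
        intro B hB
        exact (hc hB).1
      · show sInf (OrderDual.toDual ⁻¹' c) ≤ L
        refine le_trans (sInf_le (a := OrderDual.ofDual A) hA) (hc hA).2.1
      · show ∃ y ∈ (sInf (OrderDual.toDual ⁻¹' c) : Subgroup K), ψ y = t
        haveI : Nonempty c := ⟨⟨A, hA⟩⟩
        have hne := IsCompact.nonempty_iInter_of_directed_nonempty_isCompact_isClosed
          (ι := c) (fun B : c => ((OrderDual.ofDual B.1 : Subgroup K) : Set K) ∩ ψ ⁻¹' {t})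
          (by
            intro B C
            rcases hch.total B.2 C.2 with h | h
            · exact ⟨C, Set.inter_subset_inter_left _ h, Set.Subset.rfl⟩
            · exact ⟨B, Set.Subset.rfl, Set.inter_subset_inter_left _ h⟩)
          (by
            intro B
            obtain ⟨y, hy, hyt⟩ := (hc B.2).2.2
            exact ⟨y, hy, hyt⟩)
          (by
            intro B
            exact ((hc B.2).1.inter (isClosed_singleton.preimage hψ)).isCompact)
          (by
            intro B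
            exact (hc B.2).1.inter (isClosed_singleton.preimage hψ))
        obtain ⟨y, hy⟩ := hne
        rw [Set.mem_iInter] at hy
        refine ⟨y, ?_, (hy ⟨A, hA⟩).2⟩
        rw [Subgroup.mem_sInf]
        intro B hB
        exact (hy ⟨_, hB⟩).1
      · intro B hB
        show sInf (OrderDual.toDual ⁻¹' c) ≤ OrderDual.ofDual B
        exact sInf_le hB)
    (OrderDual.toDual L) ⟨hL, le_refl _, ht⟩
  refine ⟨OrderDual.ofDual L0, h2.prop.1, h2.prop.2.1, h2.prop.2.2, ?_⟩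
  intro L1 h3 h4 h5
  exact h2.le_of_ge (y := OrderDual.toDual L1) ⟨h3, h4.trans h2.prop.2.1, h5⟩ h4

theorem t_T2 : St_T2 := by
  intro K _ _ _ _ _ L hL ψ p hp l hl hne hpow
  obtain ⟨L0, hc, hle, ⟨x, hx, hxt⟩, hmin⟩ := t2_zorn L hL ψ (ψ l) ⟨l, hl, rfl⟩
  refine ⟨x, hle hx, ?_, hxt⟩
  intro χ
  -- step 1
  have h1 : ∃ n : ℕ, 0 < n ∧ χ x ^ n = 1 := by
    by_contra hcon
    push Not at hcon
    have hb : ∀ n : ℕ, 0 < n → (χ x ^ p) ^ n ≠ 1 := by
      intro n hn
      rw [← pow_mul]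
      exact hcon _ (Nat.mul_pos hp.pos hn)
    have hd := t2_dense _ hb
    have hcl : IsClosed (χ '' (cl (x ^ p) : Set K)) :=
      ((t2_cl_closed (x ^ p)).isCompact.image χ.continuous_toFun).isClosed
    have hall : χ '' (cl (x ^ p) : Set K) = univ := by
      rw [Set.eq_univ_iff_forall]
      intro z
      have h2 := hd z
      refine (closure_minimal ?_ hcl) h2
      rintro _ ⟨n, rfl⟩
      exact ⟨(x ^ p) ^ n, t2_mem_cl _ n, by simp⟩
    obtain ⟨d, hd1, hd2⟩ : χ x ∈ χ '' (cl (x ^ p) : Set K) := by rw [hall]; trivial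
    obtain ⟨H, hH, hH'⟩ := t2_ker ψ 1
    have h3 : ψ d = 1 := by
      have : cl (x ^ p) ≤ H := t2_cl_le _ H hH (by rw [hH', pow_one, map_pow, hxt, hpow])
      simpa using (hH' d).1 (this hd1)
    obtain ⟨H2, hH2, hH2'⟩ := t2_ker χ 1
    have h4 : cl (x ^ p) ≤ L0 := t2_cl_le _ L0 hc (L0.pow_mem hx p)
    have h5 := hmin (L0 ⊓ H2) (by rw [Subgroup.coe_inf]; exact hc.inter hH2) inf_le_left
      ⟨x * d⁻¹, ⟨L0.mul_mem hx (L0.inv_mem (h4 hd1)), (hH2' _).2 (by simp [hd2])⟩,
        by rw [map_mul, map_inv, h3, hxt]; simp⟩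
    have h6 := (hH2' x).1 (h5 hx).2
    exact hcon 1 one_pos h6
  -- step 2
  obtain ⟨n, hn, hxn⟩ := h1
  obtain ⟨k, m, hm, rfl⟩ := Nat.exists_eq_pow_mul_and_not_dvd hn.ne' p hp.ne_one
  refine ⟨k, ?_⟩
  have hcop : Nat.Coprime m p := (Nat.Coprime.symm ((Nat.Prime.coprime_iff_not_dvd hp).2 hm))
  obtain ⟨m', hm'⟩ : ∃ m' : ℕ, m * m' ≡ 1 [MOD p] := by
    have := Nat.exists_mul_mod_eq_one_of_coprime hcop hp.one_lt
    obtain ⟨m', _, h⟩ := this
    exact ⟨m', by rw [Nat.ModEq, h, Nat.mod_eq_of_lt hp.one_lt]⟩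
  have h7 : ψ (x ^ (m * m')) = ψ l := by
    rw [map_pow, hxt]
    have := pow_eq_pow_mod (m * m') hpow
    rw [this, hm', Nat.mod_eq_of_lt hp.one_lt, pow_one]
  have h8 := hmin (cl (x ^ m)) (t2_cl_closed _) (t2_cl_le _ L0 hc (L0.pow_mem hx m))
    ⟨x ^ (m * m'), by rw [pow_mul]; exact t2_mem_cl' _ m', h7⟩
  obtain ⟨H, hH, hH'⟩ := t2_ker χ (p ^ k)
  have h9 : cl (x ^ m) ≤ H := t2_cl_le _ H hH (by
    rw [hH', map_pow, ← pow_mul, mul_comm m]; exact hxn)
  exact (hH' x).1 (h9 (h8 hx))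

end Pool.Agent.N515.DMin
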