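import Pool.Agent.N515.DMin.Stm

/-! Closed subgroups of a `p`-adic monothetic group (helper93). -/

set_option autoImplicit false

open Topology Set

namespace Pool.Agent.N515.DMin

section

variable {K : Type} [CommGroup K] [TopologicalSpace K] [IsTopologicalGroup K]

theorem t3_closed (x : K) : IsClosed (cl x : Set K) := Subgroup.isClosed_topologicalClosure _

theorem t3_mem (x : K) : x ∈ cl x := Subgroup.le_topologicalClosure _ (Subgroup.mem_zpowers x)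

theorem t3_le {x : K} {A : Subgroup K} (hA : IsClosed (A : Set K)) (hx : x ∈ A) : cl x ≤ A :=
  Subgroup.topologicalClosure_minimal _ (by rwa [Subgroup.zpowers_le]) hA

/-- characters on `cl y` -/
theorem t3_char {y : K} (χ : K →ₜ* Circle) (hy : IsOfFinOrder (χ y)) {a : K} (ha : a ∈ cl y) :
    ∃ j : ℤ, χ a = χ y ^ j := by
  have hfin : ((Subgroup.zpowers (χ y) : Subgroup Circle) : Set Circle).Finite :=
    finite_zpowers.2 hy
  have hcl : IsClosed (((Subgroup.zpowers (χ y)).comap (χ : K →* Circle) : Subgroup K) : Set K) :=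
    hfin.isClosed.preimage χ.continuous_toFun
  have h1 : y ∈ (Subgroup.zpowers (χ y)).comap (χ : K →* Circle) :=
    Subgroup.mem_zpowers (χ y)
  have h2 := t3_le hcl h1 ha
  obtain ⟨j, hj⟩ := Subgroup.mem_zpowers_iff.1 (show χ a ∈ Subgroup.zpowers (χ y) from h2)
  exact ⟨j, hj.symm⟩

/-- cosets -/
theorem t3_coset {p : ℕ} (hp : 0 < p) (y : K) {a : K} (ha : a ∈ cl y) :
    ∃ i < p, (y ^ i)⁻¹ * a ∈ cl (y ^ p) := by
  have hcl : IsClosed (⋃ i ∈ Finset.range p, (fun a : K => (y ^ i)⁻¹ * a) ⁻¹' (cl (y ^ p) : Set K)) :=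
    isClosed_biUnion_finset fun i _ => (t3_closed _).preimage (continuous_const.mul continuous_id)
  have hsub : ((Subgroup.zpowers y : Subgroup K) : Set K) ⊆
      ⋃ i ∈ Finset.range p, (fun a : K => (y ^ i)⁻¹ * a) ⁻¹' (cl (y ^ p) : Set K) := by
    intro b hb
    obtain ⟨j, rfl⟩ := Subgroup.mem_zpowers_iff.1 (show b ∈ Subgroup.zpowers y from hb)
    have hp' : (0 : ℤ) < p := by exact_mod_cast hp
    obtain ⟨i, hi⟩ := Int.eq_ofNat_of_zero_le (Int.emod_nonneg j hp'.ne')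
    have h1 : j = i + p * (j / p) := by rw [← hi]; exact (Int.emod_add_mul_ediv j p).symm
    have h2 : (i : ℤ) < p := by rw [← hi]; exact Int.emod_lt_of_pos _ hp'
    simp only [mem_iUnion]
    refine ⟨i, Finset.mem_range.2 (by exact_mod_cast h2), ?_⟩
    show (y ^ i)⁻¹ * y ^ j ∈ cl (y ^ p)
    have h3 : (y ^ i)⁻¹ * y ^ j = (y ^ p) ^ (j / p) := by
      rw [← zpow_natCast y i, ← zpow_neg, ← zpow_add, ← zpow_natCast y p, ← zpow_mul]
      congr 1
      omega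
    rw [h3]
    exact (cl (y ^ p)).zpow_mem (t3_mem _) _
  have h1 : (cl y : Set K) ⊆ _ := closure_minimal hsub hcl
  have h2 := h1 ha
  simp only [mem_iUnion] at h2
  obtain ⟨i, hi, h3⟩ := h2
  exact ⟨i, Finset.mem_range.1 hi, h3⟩

end

/-- **(T3)** -/
theorem t_T3 (hT1 : St_T1) : St_T3 := by
  intro K _ _ _ _ _ p hp x hx A hA hAx hne
  classical
  have hfo : ∀ (χ : K →ₜ* Circle) (k : ℕ), IsOfFinOrder (χ (x ^ (p ^ k))) := by
    intro χ k
    obtain ⟨m, hm⟩ := hx χ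
    rw [isOfFinOrder_iff_pow_eq_one]
    refine ⟨p ^ m, pow_pos hp.pos m, ?_⟩
    rw [map_pow, ← pow_mul, mul_comm, pow_mul, hm, one_pow]
  -- the intersection
  have h1 : ∃ k, ¬ A ≤ cl (x ^ (p ^ k)) := by
    obtain ⟨z, hz, hz1⟩ : ∃ z ∈ A, z ≠ 1 := by
      by_contra h
      push Not at h
      exact hne ((Subgroup.eq_bot_iff_forall A).2 h)
    obtain ⟨χ, -, hχ⟩ := hT1 K ⊥ (by rw [Subgroup.coe_bot]; exact isClosed_singleton) z
      (by rwa [Subgroup.mem_bot])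
    obtain ⟨m, hm⟩ := hx χ
    refine ⟨m, fun h => hχ ?_⟩
    obtain ⟨j, hj⟩ := t3_char χ (hfo χ m) (h hz)
    rw [hj, map_pow, hm, one_zpow]
  obtain ⟨k, hk, hk'⟩ : ∃ k, A ≤ cl (x ^ (p ^ k)) ∧ ¬ A ≤ cl (x ^ (p ^ (k + 1))) := by
    have h2 : Nat.find h1 ≠ 0 := by
      intro h0
      have := Nat.find_spec h1
      rw [h0, pow_zero, pow_one] at this
      exact this hAx
    obtain ⟨k, hk⟩ := Nat.exists_eq_succ_of_ne_zero h2
    refine ⟨k, ?_, ?_⟩
    · by_contra h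
      have := Nat.find_min' h1 h
      omega
    · have := Nat.find_spec h1
      rwa [hk] at this
  refine ⟨k, le_antisymm hk (t3_le hA ?_)⟩
  obtain ⟨a, ha, ha'⟩ := SetLike.not_le_iff_exists.1 hk'
  obtain ⟨i, hi, hn⟩ := t3_coset hp.pos (x ^ (p ^ k)) (hk ha)
  rw [← pow_mul, ← pow_succ] at hn
  have hi0 : i ≠ 0 := by
    rintro rfl
    rw [pow_zero, inv_one, one_mul] at hn
    exact ha' hn
  by_contra hxA
  obtain ⟨χ, hχA, hχ⟩ := hT1 K A hA _ hxA
  obtain ⟨j, hj⟩ := t3_char χ (hfo χ (k + 1)) hn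
  obtain ⟨b, hb⟩ : ∃ b, b = χ (x ^ (p ^ k)) := ⟨_, rfl⟩
  rw [← hb] at hχ
  have h3 : χ (x ^ (p ^ (k + 1))) = b ^ p := by
    rw [pow_succ, pow_mul, map_pow, hb]
  rw [map_mul, map_inv, map_pow, ← hb, hχA a ha, mul_one, h3] at hj
  have h4 : b ^ ((i : ℤ) + p * j) = 1 := by
    rw [zpow_add, zpow_natCast, zpow_mul, zpow_natCast, ← hj, mul_inv_cancel]
  obtain ⟨m, hm⟩ := hx χ
  have h5 : b ^ (p ^ m) = 1 := by
    rw [hb, map_pow, ← pow_mul, mul_comm, pow_mul, hm, one_pow]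
  have h6 := orderOf_dvd_of_pow_eq_one h5
  obtain ⟨s, -, hs⟩ := (Nat.dvd_prime_pow hp).1 h6
  have h7 := orderOf_dvd_iff_zpow_eq_one.2 h4
  rcases Nat.eq_zero_or_pos s with h0 | h0
  · rw [h0, pow_zero, orderOf_eq_one_iff] at hs
    exact hχ hs
  · have h8 : (p : ℤ) ∣ (i : ℤ) + p * j := by
      refine dvd_trans ?_ h7
      rw [hs]
      exact_mod_cast dvd_pow_self p h0.ne'
    have h9 : (p : ℤ) ∣ i := (Int.dvd_add_left (dvd_mul_right _ _)).1 h8
    have h10 : p ∣ i := by exact_mod_cast h9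
    exact absurd (Nat.le_of_dvd (Nat.pos_of_ne_zero hi0) h10) (not_le.2 hi)

end Pool.Agent.N515.DMin
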