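import Mathlib
import Pool.Agent.N515.DMin.Stm

set_option autoImplicit false

/-! MP_00f11d_al (project DM of helper515): the torsion case (helper624). -/

open Topology Set

namespace Pool.Agent.N515.DMin

theorem tor6_cop {A : Type} [Group A] {z : A} {a b : ℕ} (h : Nat.Coprime a b) (ha : z ^ a = 1)
    (hb : z ^ b = 1) : z = 1 := by
  have h1 := Nat.dvd_gcd (orderOf_dvd_of_pow_eq_one ha) (orderOf_dvd_of_pow_eq_one hb)
  rw [Nat.Coprime.gcd_eq_one h] at h1
  exact orderOf_eq_one_iff.1 (Nat.dvd_one.1 h1)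

section
variable {K : Type} [CommGroup K] [TopologicalSpace K] [IsTopologicalGroup K]

theorem tor6_mem_cl (x : K) : x ∈ cl x :=
  Subgroup.le_topologicalClosure _ (Subgroup.mem_zpowers x)

theorem tor6_cl_closed (x : K) : IsClosed (cl x : Set K) :=
  Subgroup.isClosed_topologicalClosure _

theorem tor6_cl_le {x : K} {N : Subgroup K} (hN : IsClosed (N : Set K)) (hx : x ∈ N) :
    cl x ≤ N :=
  Subgroup.topologicalClosure_minimal _ (by rwa [Subgroup.zpowers_le]) hN

omit [IsTopologicalGroup K] in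
theorem tor6_ker (χ : K →ₜ* Circle) (m : ℕ) :
    ∃ H : Subgroup K, IsClosed (H : Set K) ∧ ∀ k, k ∈ H ↔ χ k ^ m = 1 := by
  refine ⟨((powMonoidHom m).comp (χ : K →* Circle)).ker, ?_, fun k => ?_⟩
  · have h1 : ((((powMonoidHom m).comp (χ : K →* Circle)).ker : Subgroup K) : Set K) =
        (fun k => χ k ^ m) ⁻¹' {1} := by
      ext k
      simp [MonoidHom.mem_ker]
    rw [h1]
    exact isClosed_singleton.preimage ((map_continuous χ).pow m)
  · simp [MonoidHom.mem_ker]

theorem tor6_pad_cl {p : ℕ} {x c : K} (h : Pad p x) (hc : c ∈ cl x) : Pad p c := by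
  intro χ
  obtain ⟨n, hn⟩ := h χ
  obtain ⟨H, hH, hHm⟩ := tor6_ker χ (p ^ n)
  exact ⟨n, (hHm c).1 (tor6_cl_le hH ((hHm x).2 hn) hc)⟩

variable [CompactSpace K] [T2Space K]

omit [IsTopologicalGroup K] [CompactSpace K] in
theorem tor6_bot_closed : IsClosed (((⊥ : Subgroup K)) : Set K) := by
  rw [Subgroup.coe_bot]
  exact isClosed_singleton

theorem tor6_sep (hT1 : St_T1) {k : K} (hk : k ≠ 1) : ∃ χ : K →ₜ* Circle, χ k ≠ 1 := by
  obtain ⟨χ, -, h⟩ := hT1 K ⊥ tor6_bot_closed k (by rwa [Subgroup.mem_bot])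
  exact ⟨χ, h⟩

theorem tor6_pad_ne (hT1 : St_T1) {p q : ℕ} (hpq : Nat.Coprime p q) {z : K} (hp : Pad p z)
    (hq : Pad q z) : z = 1 := by
  by_contra hz
  obtain ⟨χ, hχ⟩ := tor6_sep hT1 hz
  obtain ⟨n, hn⟩ := hp χ
  obtain ⟨m, hm⟩ := hq χ
  exact hχ (tor6_cop (Nat.Coprime.pow n m hpq) hn hm)

theorem tor6_pad_pow (hT1 : St_T1) {p m : ℕ} (hpm : Nat.Coprime m p) {z : K} (hp : Pad p z)
    (hm : z ^ m = 1) : z = 1 := by
  by_contra hz
  obtain ⟨χ, hχ⟩ := tor6_sep hT1 hz
  obtain ⟨n, hn⟩ := hp χ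
  have h1 : χ z ^ m = 1 := by rw [← map_pow, hm, map_one]
  exact hχ (tor6_cop (Nat.Coprime.pow_right n hpm) h1 hn)

theorem tor6_step (hT2 : St_T2) {L : Subgroup K} (hL : IsClosed (L : Set K)) (χ : K →ₜ* Circle)
    {k : K} (hk : k ∈ L) {n q : ℕ} (hn : 0 < n) (hχn : χ k ^ n = 1) (hq : q.Prime)
    (hd : q ∣ orderOf (χ k)) : ∃ x ∈ L, Pad q x ∧ x ≠ 1 := by
  have hr : 0 < orderOf (χ k) := by
    rw [orderOf_pos_iff, isOfFinOrder_iff_pow_eq_one]
    exact ⟨n, hn, hχn⟩
  obtain ⟨r, hr'⟩ := hd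
  have hr0 : 0 < r := by
    rcases Nat.eq_zero_or_pos r with h | h
    · rw [h, mul_zero] at hr'
      omega
    · exact h
  have h1 : χ (k ^ r) ≠ 1 := by
    rw [map_pow]
    intro h
    have h2 := orderOf_dvd_of_pow_eq_one h
    have h3 := Nat.le_of_dvd hr0 h2
    rw [hr'] at h3
    have h4 := hq.two_le
    nlinarith
  have h2 : χ (k ^ r) ^ q = 1 := by
    rw [map_pow, ← pow_mul, mul_comm, ← hr', pow_orderOf_eq_one]
  obtain ⟨x, hx, hpad, hxk⟩ := hT2 K L hL χ q hq (k ^ r) (L.pow_mem hk r) h1 h2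
  refine ⟨x, hx, hpad, fun h => ?_⟩
  rw [h, map_one] at hxk
  exact h1 hxk.symm

omit [TopologicalSpace K] [IsTopologicalGroup K] [CompactSpace K] [T2Space K] in
theorem tor6_ne {H : Subgroup K} (h : H ≠ ⊥) : ∃ k ∈ H, k ≠ 1 := by
  by_contra hcon
  push Not at hcon
  exact h ((Subgroup.eq_bot_iff_forall H).2 hcon)

theorem tor6_step0 (hT1 : St_T1) (hT2 : St_T2) (hTor : TorX K) {N : Subgroup K}
    (hN : IsClosed (N : Set K)) (h0 : N ≠ ⊥) : ∃ q : ℕ, q.Prime ∧ ∃ x ∈ N, Pad q x ∧ x ≠ 1 := by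
  obtain ⟨k, hk, hk1⟩ := tor6_ne h0
  obtain ⟨χ, hχ⟩ := tor6_sep hT1 hk1
  obtain ⟨n, hn, hχn⟩ := hTor χ
  have h1 : orderOf (χ k) ≠ 1 := fun h => hχ (orderOf_eq_one_iff.1 h)
  exact ⟨_, Nat.minFac_prime h1, tor6_step hT2 hN χ hk hn (hχn k) (Nat.minFac_prime h1)
    (Nat.minFac_dvd _)⟩

theorem tor6_roots (n : ℕ) (hn : 0 < n) : {z : Circle | z ^ n = 1}.Finite := by
  apply Set.Finite.of_finite_image (f := fun z : Circle => (z : ℂ)) _ Circle.coe_injective.injOn
  apply ((Polynomial.nthRoots n (1 : ℂ)).toFinset.finite_toSet).subset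
  rintro _ ⟨z, hz, rfl⟩
  rw [Finset.mem_coe, Multiset.mem_toFinset, Polynomial.mem_nthRoots hn]
  have h1 : z ^ n = 1 := hz
  rw [← Circle.coe_pow, h1, Circle.coe_one]

end

theorem t_Tor (hT1 : St_T1) (hT2 : St_T2) (hT3 : St_T3) (hL1 : St_L1) (hE1 : St_E1)
    (hE7 : St_E7) (hB : St_B) (hG : St_G) : St_Tor := by
  have _ := hE7
  intro K _ _ _ _ _ G hGd hDM hTor S N hSG hN hNS hN0 hSN
  have hGN : ∀ N : Subgroup K, IsClosed (N : Set K) → N ≠ ⊥ → G ⊓ N ≠ ⊥ :=
    hDM G le_rfl hGd
  have hSN' : ∀ s, s ∈ S → s ∈ N → s = 1 := by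
    intro s h1 h2
    have h3 : s ∈ S ⊓ N := ⟨h1, h2⟩
    rw [hSN] at h3
    exact Subgroup.mem_bot.1 h3
  obtain ⟨p, hp, x, hxN, hxp, hx1⟩ := tor6_step0 hT1 hT2 hTor hN hN0
  have hclx : cl x ≠ ⊥ := by
    intro h
    have h1 := tor6_mem_cl x
    rw [h] at h1
    exact hx1 (Subgroup.mem_bot.1 h1)
  have hclxN : cl x ≤ N := tor6_cl_le hN hxN
  obtain ⟨c, ⟨hcG, hcx⟩, hc1⟩ := tor6_ne (hGN _ (tor6_cl_closed x) hclx)
  have hcG' : c ∈ G := hcG
  have hcx' : c ∈ cl x := hcx
  have hcN : c ∈ N := hclxN hcx'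
  have hcp : Pad p c := tor6_pad_cl hxp hcx'
  by_cases hA : ∃ g : K, g ≠ 1 ∧ g ^ p = 1
  · -- case A
    obtain ⟨φ, hφ, hφb⟩ := hE1 (G ⧸ S.subgroupOf G) p hp
      (QuotientGroup.mk' (S.subgroupOf G) ⟨c, hcG'⟩) (by
        intro m hm h
        rw [← map_pow] at h
        have h1 := (QuotientGroup.eq_one_iff _).1 h
        have h2 : c ^ m ∈ S := h1
        have h3 := hSN' _ h2 (N.pow_mem hcN m)
        exact hc1 (tor6_pad_pow hT1 hm hcp h3))
    obtain ⟨ψ, hψ⟩ := hL1 K G hGd hDM hTor p hp hA (φ.comp (QuotientGroup.mk' (S.subgroupOf G)))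
      (fun b => hφ _)
    obtain ⟨H, hH, hHm⟩ := tor6_ker ψ 1
    have h1 : (S : Set K) ⊆ (H : Set K) := by
      intro s hs
      show s ∈ H
      rw [hHm, pow_one]
      have h2 := hψ ⟨s, hSG hs⟩
      have h3 : ψ s = φ (QuotientGroup.mk' (S.subgroupOf G) ⟨s, hSG hs⟩) := h2
      have h4 : QuotientGroup.mk' (S.subgroupOf G) ⟨s, hSG hs⟩ = 1 :=
        (QuotientGroup.eq_one_iff _).2 hs
      rw [h3, h4, map_one]
    have h2 : c ∈ H := (closure_minimal h1 hH) (hNS hcN)
    rw [hHm, pow_one] at h2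
    exact hφb ((hψ ⟨c, hcG'⟩).symm.trans h2)
  · -- no element of order `p`
    push Not at hA
    have hnp : ∀ g : K, g ^ p = 1 → g = 1 := by
      intro g hg
      by_contra h
      exact hA g h hg
    have hnpp : ∀ (a : ℕ) (g : K), g ^ (p ^ a) = 1 → g = 1 := by
      intro a
      induction a with
      | zero => intro g hg; simpa using hg
      | succ a ih =>
        intro g hg
        apply hnp
        apply ih
        rw [← pow_mul, ← pow_succ']
        exact hg
    have hcinf : ∀ n : ℕ, 0 < n → c ^ n ≠ 1 := by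
      intro n hn h
      obtain ⟨a, m, hm, rfl⟩ := Nat.exists_eq_pow_mul_and_not_dvd hn.ne' p hp.ne_one
      have hcop : Nat.Coprime m p := ((Nat.Prime.coprime_iff_not_dvd hp).2 hm).symm
      rw [pow_mul] at h
      have h1 : Pad p (c ^ p ^ a) := tor6_pad_cl hcp ((cl c).pow_mem (tor6_mem_cl c) _)
      exact hc1 (hnpp a c (tor6_pad_pow hT1 hcop h1 h))
    by_cases hB1 : ∃ q : ℕ, q.Prime ∧ ∃ g : K, g ≠ 1 ∧ g ^ q = 1
    · obtain ⟨q, hq, g, hg1, hgq⟩ := hB1
      have hqp : q ≠ p := by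
        rintro rfl
        exact hA g hg1 hgq
      obtain ⟨φ, hφ, hφb⟩ := hE1 G q hq ⟨c, hcG'⟩ (by
        intro m hm h
        have hm0 : 0 < m := by
          rcases Nat.eq_zero_or_pos m with h0 | h0
          · subst h0
            rw [Nat.coprime_zero_left] at hm
            exact absurd hm hq.ne_one
          · exact h0
        exact hcinf m hm0 (congrArg Subtype.val h))
      obtain ⟨ψ, hψ⟩ := hL1 K G hGd hDM hTor q hq ⟨g, hg1, hgq⟩ φ hφ
      obtain ⟨n, hn⟩ := hcp ψ
      obtain ⟨m, hm⟩ := hφ ⟨c, hcG'⟩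
      have h1 : ψ c = φ ⟨c, hcG'⟩ := hψ ⟨c, hcG'⟩
      rw [← h1] at hm hφb
      exact hφb (tor6_cop (Nat.Coprime.pow n m ((Nat.coprime_primes hp hq).2 hqp.symm)) hn hm)
    · push Not at hB1
      have htf : ∀ (n : ℕ) (k : K), 0 < n → k ^ n = 1 → k = 1 := by
        intro n
        induction n using Nat.strong_induction_on with
        | _ n ih =>
          intro k hn hk
          by_cases h1 : n = 1
          · subst h1; simpa using hk
          · have hq := Nat.minFac_prime h1
            obtain ⟨m, hm⟩ := Nat.minFac_dvd n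
            have hm0 : 0 < m := by
              rcases Nat.eq_zero_or_pos m with h | h
              · rw [h, mul_zero] at hm; omega
              · exact h
            have hmn : m < n := by
              have := hq.two_le
              nlinarith
            have h2 : (k ^ m) ^ n.minFac = 1 := by
              rw [← pow_mul, mul_comm, ← hm]; exact hk
            have h3 : k ^ m = 1 := by
              by_contra h4
              exact hB1 _ hq _ h4 h2
            exact ih m hmn k hm0 h3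
      by_cases hall : ∀ N' : Subgroup K, IsClosed (N' : Set K) → N' ≠ ⊥ → N' ⊓ cl x ≠ ⊥
      · have hS0 : S ≠ ⊥ := by
          intro h
          apply hN0
          rw [Subgroup.eq_bot_iff_forall]
          intro k hk
          have h1 := hNS hk
          rw [h, (tor6_bot_closed (K := K)).closure_eq] at h1
          exact Subgroup.mem_bot.1 h1
        obtain ⟨s, hs, hs1⟩ := tor6_ne hS0
        have hsp : Pad p s := by
          intro χ
          obtain ⟨n, hn, hχn⟩ := hTor χ
          by_cases hpow : ∃ e, orderOf (χ s) = p ^ e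
          · obtain ⟨e, he⟩ := hpow
            exact ⟨e, by rw [← he, pow_orderOf_eq_one]⟩
          · exfalso
            have hr : orderOf (χ s) ≠ 0 := by
              have : 0 < orderOf (χ s) := by
                rw [orderOf_pos_iff, isOfFinOrder_iff_pow_eq_one]
                exact ⟨n, hn, hχn s⟩
              omega
            obtain ⟨a, m, hm, hr'⟩ := Nat.exists_eq_pow_mul_and_not_dvd hr p hp.ne_one
            have hm1 : m ≠ 1 := by
              rintro rfl
              exact hpow ⟨a, by rw [hr', mul_one]⟩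
            have hq := Nat.minFac_prime hm1
            have hqp : m.minFac ≠ p := by
              intro h
              exact hm (h ▸ Nat.minFac_dvd m)
            obtain ⟨y, -, hyq, hy1⟩ := tor6_step hT2 (L := (⊤ : Subgroup K)) (by simp) χ
              (Subgroup.mem_top s) hn (hχn s) hq (by
                rw [hr']; exact (Nat.minFac_dvd m).mul_left _)
            have hcly : cl y ≠ ⊥ := by
              intro h
              have h1 := tor6_mem_cl y
              rw [h] at h1
              exact hy1 (Subgroup.mem_bot.1 h1)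
            obtain ⟨z, ⟨hzy, hzx⟩, hz1⟩ := tor6_ne (hall _ (tor6_cl_closed y) hcly)
            exact hz1 (tor6_pad_ne hT1 ((Nat.coprime_primes hq hp).2 hqp)
              (tor6_pad_cl hyq hzy) (tor6_pad_cl hxp hzx))
        have hcls : cl s ≠ ⊥ := by
          intro h
          have h1 := tor6_mem_cl s
          rw [h] at h1
          exact hs1 (Subgroup.mem_bot.1 h1)
        obtain ⟨k, hk⟩ := hT3 K p hp s hsp (cl s ⊓ cl x)
          (by rw [Subgroup.coe_inf]; exact (tor6_cl_closed s).inter (tor6_cl_closed x))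
          inf_le_left (hall _ (tor6_cl_closed s) hcls)
        have h1 : s ^ p ^ k ∈ cl s ⊓ cl x := by
          rw [hk]; exact tor6_mem_cl _
        have h2 := hSN' _ (S.pow_mem hs _) (hclxN h1.2)
        exact hs1 (htf _ _ (pow_pos hp.pos k) h2)
      · push Not at hall
        obtain ⟨N', hN', hN'0, hN'x⟩ := hall
        obtain ⟨q, hq, y, hyN, hyq, hy1⟩ := tor6_step0 hT1 hT2 hTor hN' hN'0
        have hxy : cl x ⊓ cl y = ⊥ := by
          rw [eq_bot_iff, ← hN'x]
          exact le_inf (inf_le_right.trans (tor6_cl_le hN' hyN)) inf_le_left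
        rcases le_or_gt Cardinal.aleph0 (Module.rank ℤ (Additive G)) with hr | hr
        · refine hB K G hGd hDM p q hp hq x y hxp hyq hx1 hy1 hxy G le_rfl ?_ hr
          intro χ
          obtain ⟨n, hn, hχn⟩ := hTor χ
          apply (tor6_roots n hn).subset
          rintro _ ⟨k, -, rfl⟩
          exact hχn k
        · obtain ⟨g, hgG, hgd⟩ := hG K htf hTor G hGd hGN hr
          have hgN := hDM (Subgroup.zpowers g) (by rwa [Subgroup.zpowers_le]) hgd
          have hcly : cl y ≠ ⊥ := by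
            intro h
            have h1 := tor6_mem_cl y
            rw [h] at h1
            exact hy1 (Subgroup.mem_bot.1 h1)
          obtain ⟨u, ⟨hu1, hu2⟩, hu3⟩ := tor6_ne (hgN _ (tor6_cl_closed x) hclx)
          obtain ⟨v, ⟨hv1, hv2⟩, hv3⟩ := tor6_ne (hgN _ (tor6_cl_closed y) hcly)
          obtain ⟨a, rfl⟩ := Subgroup.mem_zpowers_iff.1 hu1
          obtain ⟨b, rfl⟩ := Subgroup.mem_zpowers_iff.1 hv1
          have hb0 : b ≠ 0 := by
            rintro rfl
            exact hv3 (zpow_zero g)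
          have h1 : (g ^ a) ^ b ∈ cl x ⊓ cl y := by
            refine ⟨(cl x).zpow_mem hu2 b, ?_⟩
            rw [← zpow_mul, mul_comm, zpow_mul]
            exact (cl y).zpow_mem hv2 a
          rw [hxy, Subgroup.mem_bot] at h1
          have h2 : (g ^ a) ^ b.natAbs = 1 := by
            rcases Int.natAbs_eq b with h | h
            · rw [h, zpow_natCast] at h1
              exact h1
            · rw [h, zpow_neg, zpow_natCast, inv_eq_one] at h1
              exact h1
          exact hu3 (htf _ _ (Int.natAbs_pos.2 hb0) h2)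

end Pool.Agent.N515.DMin
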