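import Pool.Agent.N515.DMin.Stm

set_option autoImplicit false

/-! MP_00f11d_al: the uncountability argument (helper722). -/

open Topology Set

namespace Pool.Agent.N515.DMin

section

variable {K : Type} [CommGroup K] [TopologicalSpace K] [IsTopologicalGroup K]

theorem u722_mem_cl (x : K) : x ∈ cl x :=
  Subgroup.le_topologicalClosure _ (Subgroup.mem_zpowers x)

theorem u722_closed (x : K) : IsClosed ((cl x : Subgroup K) : Set K) :=
  Subgroup.isClosed_topologicalClosure _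

theorem u722_cl_le {x : K} {H : Subgroup K} (hH : IsClosed (H : Set K)) (hx : x ∈ H) :
    cl x ≤ H :=
  Subgroup.topologicalClosure_minimal _ ((Subgroup.zpowers_le).2 hx) hH

theorem u722_cl_ne_bot {x : K} (hx : x ≠ 1) : cl x ≠ ⊥ := by
  intro h
  have := u722_mem_cl x
  rw [h, Subgroup.mem_bot] at this
  exact hx this

theorem u722_pad_cl {p : ℕ} {y w : K} (hy : Pad p y) (hw : w ∈ cl y) : Pad p w := by
  intro χ
  obtain ⟨n, hn⟩ := hy χ
  refine ⟨n, ?_⟩
  let f : K →* Circle := (powMonoidHom (p ^ n)).comp (χ : K →* Circle)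
  have hf : ∀ z, f z = χ z ^ (p ^ n) := fun z => rfl
  have hc : IsClosed ((f.ker : Subgroup K) : Set K) := by
    have h1 : ((f.ker : Subgroup K) : Set K) = (fun z => χ z ^ (p ^ n)) ⁻¹' {1} := by
      ext z
      simp only [SetLike.mem_coe, MonoidHom.mem_ker, Set.mem_preimage, Set.mem_singleton_iff, hf]
    rw [h1]
    exact isClosed_singleton.preimage ((χ.continuous_toFun).pow _)
  have h2 : cl y ≤ f.ker := u722_cl_le hc (by rw [MonoidHom.mem_ker, hf]; exact hn)
  have h3 := h2 hw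
  rw [MonoidHom.mem_ker, hf] at h3
  exact h3

omit [IsTopologicalGroup K] in
theorem u722_pad_mul {p : ℕ} {x w : K} (hx : Pad p x) (hw : Pad p w) : Pad p (x * w) := by
  intro χ
  obtain ⟨n, hn⟩ := hx χ
  obtain ⟨m, hm⟩ := hw χ
  refine ⟨n + m, ?_⟩
  rw [map_mul, mul_pow, pow_add, pow_mul, hn, one_pow, one_mul, mul_comm, pow_mul, hm, one_pow]

end

theorem u722_uncountable {K : Type} [CommGroup K] [TopologicalSpace K] [IsTopologicalGroup K]
    [CompactSpace K] [T2Space K] (htf : ∀ (n : ℕ) (k : K), 0 < n → k ^ n = 1 → k = 1)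
    (y : K) (hy : y ≠ 1) : ¬ Countable (cl y) := by
  intro hc
  have hcomp : CompactSpace (cl y) := isCompact_iff_compactSpace.1 (u722_closed y).isCompact
  obtain ⟨z, hz⟩ := nonempty_interior_of_iUnion_of_closed (f := fun z : cl y => ({z} : Set (cl y)))
    (fun z => isClosed_singleton) (by ext z; simp)
  have hopen : IsOpen ({z} : Set (cl y)) := by
    obtain ⟨t, ht⟩ := hz
    have h1 : t ∈ ({z} : Set (cl y)) := interior_subset ht
    rw [Set.mem_singleton_iff] at h1
    subst h1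
    have h2 : interior ({t} : Set (cl y)) = {t} := by
      apply Set.Subset.antisymm interior_subset
      intro s hs
      rw [Set.mem_singleton_iff] at hs
      rw [hs]; exact ht
    rw [← h2]; exact isOpen_interior
  have hone : IsOpen ({1} : Set (cl y)) := by
    have h1 : ({1} : Set (cl y)) = (fun t => z * t) ⁻¹' {z} := by
      ext t
      simp
    rw [h1]
    exact hopen.preimage (continuous_const.mul continuous_id)
  have hd : DiscreteTopology (cl y) := discreteTopology_of_isOpen_singleton_one hone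
  have hfin : Finite (cl y) := finite_of_compact_of_discrete
  have h1 : IsOfFinOrder (⟨y, u722_mem_cl y⟩ : cl y) := isOfFinOrder_of_finite _
  obtain ⟨n, hn, hn'⟩ := isOfFinOrder_iff_pow_eq_one.1 h1
  apply hy
  apply htf n y hn
  have := congrArg (fun t : cl y => (t : K)) hn'
  simpa using this

theorem t_U (hT3 : St_T3) : St_U := by
  intro K _ _ _ _ _ htf G hG hmeet p hp x y hx hy hx1 hy1 hbot
  have hunc := u722_uncountable htf y hy1
  have hin : ∀ z, z ∈ cl x → z ∈ cl y → z = 1 := by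
    intro z h1 h2
    have : z ∈ cl x ⊓ cl y := ⟨h1, h2⟩
    rw [hbot, Subgroup.mem_bot] at this
    exact this
  have hne : ∀ w ∈ cl y, x * w ≠ 1 := by
    intro w hw h
    apply hx1
    apply hin x (u722_mem_cl x)
    have : x = w⁻¹ := eq_inv_of_mul_eq_one_left h
    rw [this]
    exact (cl y).inv_mem hw
  have hd : ∀ w : cl y, ∃ d : G, (d : K) ∈ cl (x * (w : K)) ∧ (d : K) ≠ 1 := by
    intro w
    have h1 := hmeet (cl (x * (w : K))) (u722_closed _) (u722_cl_ne_bot (hne w w.2))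
    obtain ⟨d, hd, hd1⟩ := (Subgroup.ne_bot_iff_exists_ne_one).1 h1 |>.elim
      (fun a ha => (⟨a.1, a.2, fun h => ha (Subtype.ext h)⟩ :
        ∃ d : K, d ∈ G ⊓ cl (x * (w : K)) ∧ d ≠ 1))
    exact ⟨⟨d, hd.1⟩, hd.2, hd1⟩
  choose d hd1 hd2 using hd
  obtain ⟨w, w', hww, hne'⟩ : ∃ w w' : cl y, d w = d w' ∧ w ≠ w' := by
    by_contra hcon
    push Not at hcon
    exact hunc (Function.Injective.countable (f := d) (fun a b h => hcon a b h))
  have key : ∀ v : cl y, d v = d w → ∃ k : ℕ, (x * (v : K)) ^ (p ^ k) ∈ cl (d w : K) := by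
    intro v hv
    obtain ⟨k, hk⟩ := hT3 K p hp (x * (v : K)) (u722_pad_mul hx (u722_pad_cl hy v.2))
      (cl (d w : K)) (u722_closed _) (u722_cl_le (u722_closed _) (by rw [← hv]; exact hd1 v))
      (u722_cl_ne_bot (hd2 w))
    exact ⟨k, by rw [hk]; exact u722_mem_cl _⟩
  obtain ⟨k, hk⟩ := key w rfl
  obtain ⟨l, hl⟩ := key w' hww.symm
  have hk' : (x * (w : K)) ^ (p ^ (k + l)) ∈ cl (d w : K) := by
    rw [pow_add, pow_mul]
    exact Subgroup.pow_mem _ hk _
  have hl' : (x * (w' : K)) ^ (p ^ (k + l)) ∈ cl (d w : K) := by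
    rw [add_comm, pow_add, pow_mul]
    exact Subgroup.pow_mem _ hl _
  have hquot : ((w : K) * (w' : K)⁻¹) ^ (p ^ (k + l)) ∈ cl (d w : K) := by
    have h1 : ((w : K) * (w' : K)⁻¹) ^ (p ^ (k + l)) =
        (x * (w : K)) ^ (p ^ (k + l)) * ((x * (w' : K)) ^ (p ^ (k + l)))⁻¹ := by
      rw [← inv_pow, ← mul_pow]
      congr 1
      rw [mul_inv, mul_comm x (w : K), mul_assoc, ← mul_assoc x, mul_inv_cancel, one_mul]
    rw [h1]
    exact Subgroup.mul_mem _ hk' (Subgroup.inv_mem _ hl')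
  have hquoty : ((w : K) * (w' : K)⁻¹) ^ (p ^ (k + l)) ∈ cl y :=
    Subgroup.pow_mem _ (Subgroup.mul_mem _ w.2 (Subgroup.inv_mem _ w'.2)) _
  have hquot1 : ((w : K) * (w' : K)⁻¹) ^ (p ^ (k + l)) ≠ 1 := by
    intro h
    have h1 := htf _ _ (pow_pos hp.pos _) h
    exact hne' (Subtype.ext (mul_inv_eq_one.1 h1))
  obtain ⟨j, hj⟩ := hT3 K p hp (x * (w : K)) (u722_pad_mul hx (u722_pad_cl hy w.2))
    (cl (d w : K) ⊓ cl y) ((u722_closed _).inter (u722_closed _))
    (inf_le_left.trans (u722_cl_le (u722_closed _) (hd1 w)))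
    (by
      intro h
      have h2 : ((w : K) * (w' : K)⁻¹) ^ (p ^ (k + l)) ∈ cl (d w : K) ⊓ cl y := ⟨hquot, hquoty⟩
      rw [h, Subgroup.mem_bot] at h2
      exact hquot1 h2)
  have hxw : (x * (w : K)) ^ (p ^ j) ∈ cl y := by
    have h1 : (x * (w : K)) ^ (p ^ j) ∈ cl (d w : K) ⊓ cl y := by
      rw [hj]; exact u722_mem_cl _
    exact h1.2
  have hxp : x ^ (p ^ j) ∈ cl y := by
    have h1 : x ^ (p ^ j) = (x * (w : K)) ^ (p ^ j) * ((w : K) ^ (p ^ j))⁻¹ := by
      rw [mul_pow, mul_inv_cancel_right]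
    rw [h1]
    exact Subgroup.mul_mem _ hxw (Subgroup.inv_mem _ (Subgroup.pow_mem _ w.2 _))
  have h1 := hin _ (Subgroup.pow_mem _ (u722_mem_cl x) (p ^ j)) hxp
  exact hx1 (htf _ _ (pow_pos hp.pos _) h1)

end Pool.Agent.N515.DMin
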