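import Pool.Agent.N515.DMin.Stm
import Pool.Agent.N515.DMin.AlgA
import Pool.Agent.N515.DMin.AlgB
import Pool.Agent.N515.DMin.AlgC
import Pool.Agent.N515.DMin.AlgD
import Pool.Agent.N515.DMin.T1
import Pool.Agent.N515.DMin.T2
import Pool.Agent.N515.DMin.T3
import Pool.Agent.N515.DMin.D
import Pool.Agent.N515.DMin.A
import Pool.Agent.N515.DMin.B
import Pool.Agent.N515.DMin.C
import Pool.Agent.N515.DMin.R
import Pool.Agent.N515.DMin.L1
import Pool.Agent.N515.DMin.U
import Pool.Agent.N515.DMin.U2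
import Pool.Agent.N515.DMin.I
import Pool.Agent.N515.DMin.Gg
import Pool.Agent.N515.DMin.M
import Pool.Agent.N515.DMin.NT
import Pool.Agent.N515.DMin.Tor
import Pool.Agent.N515.DMin.Fin

set_option autoImplicit false

namespace Pool.Agent.N515.DMin

theorem fT3 : St_T3 := t_T3 t_T1
theorem fA : St_A := t_A t_T1
theorem fB : St_B := t_B fA t_E4 t_E5 t_E6 fT3
theorem fC : St_C := t_C t_D t_E2 t_T1
theorem fC4 : St_C4 := t_C4 fC t_E3
theorem fR : St_R := t_R t_T1
theorem fL1 : St_L1 := t_L1 t_T1 t_D fC fC4 t_E1 fR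
theorem fU : St_U := t_U fT3
theorem fU2 : St_U2 := t_U2 t_T1 t_T2 fT3
theorem fI : St_I := t_I t_T1
theorem fG : St_G := t_G t_T1 t_T2 fT3 t_E7 fU fU2 fI
theorem fTor : St_Tor := t_Tor t_T1 t_T2 fT3 fL1 t_E1 t_E7 fB fG
theorem fNT : St_NT := t_NT t_T1 t_T2 fT3 fC4 t_E1 fI fB t_M

theorem main (A : Type) [CommGroup A] [TopologicalSpace A] [IsTopologicalGroup A] [T2Space A]
    (h : ∀ D : Subgroup A, Dense (D : Set A) → Pool.Agent.N485.MG.MinGrp D) (S : Subgroup A) :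
    Pool.Agent.N485.MG.MinGrp S :=
  fin_main fNT fTor A h S

end Pool.Agent.N515.DMin
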