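import Pool.Agent.N515.DMin.Stm

set_option autoImplicit false

/-! MP_00f11d_al (project DM of helper515), leaf U2 (helper37). -/

open Topology Set

namespace Pool.Agent.N515.DMin

section

variable {K : Type} [CommGroup K] [TopologicalSpace K] [IsTopologicalGroup K]

theorem U2_self_mem (x : K) : x ∈ cl x :=
  Subgroup.le_topologicalClosure _ (Subgroup.mem_zpowers x)

theorem U2_closed (x : K) : IsClosed (cl x : Set K) := Subgroup.isClosed_topologicalClosure _

theorem U2_le {x : K} {H : Subgroup K} (hH : IsClosed (H : Set K)) (hx : x ∈ H) : cl x ≤ H :=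
  Subgroup.topologicalClosure_minimal _ (by rwa [Subgroup.zpowers_le]) hH

theorem U2_pow [CompactSpace K] [T2Space K] (z : K) (m : ℕ) (v : K) (hv : v ∈ cl (z ^ m)) :
    ∃ w ∈ cl z, w ^ m = v := by
  have h1 : IsClosed (((cl z).map (powMonoidHom m) : Subgroup K) : Set K) := by
    rw [Subgroup.coe_map]
    exact ((U2_closed z).isCompact.image (continuous_pow m)).isClosed
  have h2 : cl (z ^ m) ≤ (cl z).map (powMonoidHom m) :=
    U2_le h1 ⟨z, U2_self_mem z, rfl⟩
  obtain ⟨w, hw, h⟩ := h2 hv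
  exact ⟨w, hw, h⟩

theorem U2_tf (htf : ∀ (n : ℕ) (k : K), 0 < n → k ^ n = 1 → k = 1) {n : ℕ} (hn : 0 < n) {a b : K}
    (h : a ^ n = b ^ n) : a = b := by
  have h1 := htf n (a / b) hn (by rw [div_pow, h, div_self'])
  exact div_eq_one.1 h1

theorem U2_circle {p : ℕ} (hp : p.Prime) (z w : Circle) (hz : z ^ p = 1) (hz1 : z ≠ 1)
    (hw : w ^ p = 1) : ∃ j : ℕ, w = z ^ j := by
  have hz' : (z : ℂ) ^ p = 1 := by
    rw [← Circle.coe_pow, hz, Circle.coe_one]
  have hz1' : (z : ℂ) ≠ 1 := by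
    intro h
    exact hz1 (Circle.coe_eq_one.1 h)
  have hw' : (w : ℂ) ^ p = 1 := by
    rw [← Circle.coe_pow, hw, Circle.coe_one]
  have := Fact.mk hp
  have hord : orderOf (z : ℂ) = p := orderOf_eq_prime hz' hz1'
  have hprim : IsPrimitiveRoot (z : ℂ) p := by
    rw [← hord]
    exact IsPrimitiveRoot.orderOf _
  have : NeZero p := ⟨hp.ne_zero⟩
  obtain ⟨i, -, hi⟩ := hprim.eq_pow_of_pow_eq_one hw'
  refine ⟨i, ?_⟩
  apply Circle.ext
  rw [Circle.coe_pow, hi]

end

theorem t_U2 (hT1 : St_T1) (hT2 : St_T2) (hT3 : St_T3) : St_U2 := by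
  intro K _ _ _ _ _ htf p hp hint χ ψ hχ hχ1 hψ
  obtain ⟨k, hk⟩ := hχ1
  have htop : IsClosed ((⊤ : Subgroup K) : Set K) := by
    rw [Subgroup.coe_top]
    exact isClosed_univ
  obtain ⟨x, -, hx, hxk⟩ := hT2 K ⊤ htop χ p hp k (Subgroup.mem_top k) hk (hχ k)
  have hχx : χ x ≠ 1 := by
    rw [hxk]
    exact hk
  have hx1 : x ≠ 1 := by
    rintro rfl
    exact hχx (map_one χ)
  have key : ∀ y : K, Pad p y → y ≠ 1 → y ∈ cl x := by
    intro y hy hy1
    have hA : IsClosed ((cl x ⊓ cl y : Subgroup K) : Set K) := by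
      rw [Subgroup.coe_inf]
      exact (U2_closed x).inter (U2_closed y)
    have hne := hint x y hx hy hx1 hy1
    obtain ⟨a, ha⟩ := hT3 K p hp x hx _ hA inf_le_left hne
    obtain ⟨b, hb⟩ := hT3 K p hp y hy _ hA inf_le_right hne
    have hab : cl (x ^ p ^ a) = cl (y ^ p ^ b) := ha.symm.trans hb
    rcases le_or_gt a b with h | h
    · obtain ⟨w, hw, hw'⟩ := U2_pow y (p ^ b) (x ^ p ^ a) (by
        rw [← hab]
        exact U2_self_mem _)
      obtain ⟨c, rfl⟩ := Nat.exists_eq_add_of_le h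
      have h1 : x = w ^ p ^ c := by
        refine U2_tf htf (pow_pos hp.pos a) ?_
        rw [← hw', ← pow_mul, pow_add, mul_comm (p ^ a)]
      rcases Nat.eq_zero_or_pos c with rfl | hc
      · obtain ⟨v, hv, hv'⟩ := U2_pow x (p ^ a) (y ^ p ^ a) (by
          rw [add_zero] at hab
          rw [hab]
          exact U2_self_mem _)
        rwa [← U2_tf htf (pow_pos hp.pos a) hv']
      · exfalso
        apply hχx
        obtain ⟨c', rfl⟩ : ∃ c', c = c' + 1 := ⟨c - 1, by omega⟩
        rw [h1, map_pow, pow_succ', pow_mul, hχ, one_pow]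
    · obtain ⟨w, hw, hw'⟩ := U2_pow x (p ^ a) (y ^ p ^ b) (by
        rw [hab]
        exact U2_self_mem _)
      obtain ⟨c, rfl⟩ := Nat.exists_eq_add_of_le h.le
      have h1 : y = w ^ p ^ c := by
        refine U2_tf htf (pow_pos hp.pos b) ?_
        rw [← hw', ← pow_mul, pow_add, mul_comm (p ^ b)]
      rw [h1]
      exact Subgroup.pow_mem _ hw _
  obtain ⟨j, hj⟩ := U2_circle hp (χ x) (ψ x) (hχ x) hχx (hψ x)
  let θ : K →ₜ* Circle :=
    { toFun := fun k => ψ k * (χ k ^ j)⁻¹
      map_one' := by simp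
      map_mul' := by
        intro a b
        rw [map_mul, map_mul, mul_pow, mul_inv]
        exact mul_mul_mul_comm _ _ _ _
      continuous_toFun := by
        have h1 : Continuous fun k => ψ k := ψ.continuous_toFun
        have h2 : Continuous fun k => χ k := χ.continuous_toFun
        exact h1.mul (h2.pow j).inv }
  have hθ : ∀ k, θ k = ψ k * (χ k ^ j)⁻¹ := fun k => rfl
  have hθp : ∀ k, θ k ^ p = 1 := by
    intro k
    rw [hθ, mul_pow, inv_pow, ← pow_mul, mul_comm j p, pow_mul, hχ, hψ, one_pow, inv_one, mul_one]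
  have hker : cl x ≤ (θ : K →* Circle).ker := by
    apply U2_le
    · have h1 : (((θ : K →* Circle).ker : Subgroup K) : Set K) = (fun k => θ k) ⁻¹' {1} := by
        ext k
        rfl
      rw [h1]
      exact isClosed_singleton.preimage θ.continuous_toFun
    · show θ x = 1
      rw [hθ, hj, mul_inv_cancel]
  refine ⟨(j : ℤ), fun k' => ?_⟩
  by_contra hne
  have h1 : θ k' ≠ 1 := by
    intro h
    rw [hθ, mul_inv_eq_one] at h
    exact hne (by rw [h, zpow_natCast])
  obtain ⟨y, -, hy, hyk⟩ := hT2 K ⊤ htop θ p hp k' (Subgroup.mem_top k') h1 (hθp k')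
  have hy1 : y ≠ 1 := by
    rintro rfl
    exact h1 (by rw [← hyk, map_one])
  have h2 := hker (key y hy hy1)
  have h3 : θ y = 1 := h2
  exact h1 (by rw [← hyk, h3])

end Pool.Agent.N515.DMin
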